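import Mathlib
import Pool.Agent.H985.Chow.StmKey
import Pool.Agent.H985.Chow.StmLoc
import Pool.Agent.H985.Chow.StmAsm

/-!
# The Möbius function at values of quadratic polynomials in characteristic two: statements

`K` is a finite field of characteristic two, `a = x ^ 2 + X y ^ 2`, `Cc = ε ^ 2 + X δ ^ 2` and
`f = a ^ 2 + θ ^ 2 a + Cc = U ^ 2 + X G ^ 2` with `U = x ^ 2 + X y ^ 2 + θ x + ε`, `G = θ y + δ`.
-/

set_option autoImplicit false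

namespace Pool.Agent.H140.Q

open Polynomial
open Pool.Agent.H524 (AC)
open Pool.Agent.H985.Chow (mob MD PD PDc Good Wr Wl)

/-- the polynomial `U` -/
noncomputable def UQ {K : Type} [Field K] (θ : K) (ε x y : K[X]) : K[X] :=
  x ^ 2 + X * y ^ 2 + C θ * x + ε

open Classical in
/-- **Key formula** for quadratic polynomials. -/
def S_keyQ : Prop :=
  ∀ (K : Type) [Field K] [Fintype K] [CharP K 2] (n : ℕ) (c θ : K) (x₁ x₂ y ε δ e h : K[X]),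
    c ≠ 0 → θ ≠ 0 → e.Monic → h.Monic → IsCoprime e h → Squarefree h →
    C θ * y + δ = C c * (e * h) →
    (x₁ ^ 2 + X * y ^ 2).Monic → (x₁ ^ 2 + X * y ^ 2).natDegree = n →
    (x₂ ^ 2 + X * y ^ 2).Monic → (x₂ ^ 2 + X * y ^ 2).natDegree = n →
    IsCoprime (UQ θ ε x₁ y) (e * h) → IsCoprime (UQ θ ε x₂ y) (e * h) → e ^ 5 ∣ x₂ - x₁ →
    n + 2 * (x₂ - x₁).natDegree + 2 * (ε ^ 2 + X * δ ^ 2).natDegree + 2 ≤
      4 * (e * h).natDegree →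
    ∃ w : K, algebraMap K (AC K) w = ∑ ρ ∈ (h.aroots (AC K)).toFinset,
        (Wr (UQ θ ε x₁ y) (C c * (e * h)) ρ + Wr (UQ θ ε x₂ y) (C c * (e * h)) ρ) ∧
      mob ((UQ θ ε x₁ y) ^ 2 + X * (C c * (e * h)) ^ 2) *
        mob ((UQ θ ε x₂ y) ^ 2 + X * (C c * (e * h)) ^ 2) =
        if ∃ t : K, t ^ 2 + t = w then 1 else -1

open Classical in
/-- The local function: `0` at `(a, α)` if `a ^ 2 + κ a + c = 0`, otherwise
`ψ (W(a ^ 2 + κ a + c, κ α + σ))`. -/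
noncomputable def Glq {F : Type*} [Field F] (ψ : AddChar F ℂ) (β x κ c σ : F) (v : F × F) : ℂ :=
  if v.1 ^ 2 + κ * v.1 + c = 0 then 0 else ψ (Wl β x (v.1 ^ 2 + κ * v.1 + c) (κ * v.2 + σ))

/-- The Fourier transform of the local function. -/
noncomputable def Glqhat {F : Type*} [Field F] [Fintype F] (ψ : AddChar F ℂ) (β x κ c σ : F)
    (χ : AddChar (F × F) ℂ) : ℂ := ∑ v, Glq ψ β x κ c σ v * χ v

/-- **Task LOCQ.** -/
def S_locQ : Prop :=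
  ∀ (F : Type) [Field F] [Fintype F] [CharP F 2] (ψ : AddChar F ℂ), ψ ≠ 1 →
    (∀ x, ψ (x ^ 2) = ψ x) → ∀ β x κ c σ : F, β ≠ 0 → κ ≠ 0 →
    (∀ χ : AddChar (F × F) ℂ, ‖Glqhat ψ β x κ c σ χ‖ ≤ 8 * (Fintype.card F : ℝ)) ∧
    (∑ χ : AddChar (F × F) ℂ, ‖Glqhat ψ β x κ c σ χ‖ ≤ (Fintype.card F : ℝ) ^ 3 / Real.sqrt 2)

/-- **Window bound** (task WINQ). -/
def S_winQ : Prop :=
  ∀ (K : Type) [Field K] [Fintype K] [CharP K 2] (n L : ℕ) (c θ : K) (x y ε δ e h E : K[X])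
    (z : ℝ),
    c ≠ 0 → θ ≠ 0 → e.Monic → h.Monic → IsCoprime e h → Squarefree h → IsCoprime E h →
    E ≠ 0 → e ^ 5 ∣ E → 1 ≤ L → C θ * y + δ = C c * (e * h) →
    (x ^ 2 + X * y ^ 2).Monic → (x ^ 2 + X * y ^ 2).natDegree = n →
    n + 2 * (E.natDegree + (L - 1)) + 2 * (ε ^ 2 + X * δ ^ 2).natDegree + 2 ≤
      4 * (e * h).natDegree →
    L + 2 * (∑ᶠ P ∈ PD h z, P.natDegree) ≤ 2 * h.natDegree →
    |∑ᶠ u ∈ {u : K[X] | u.degree < (L : WithBot ℕ)},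
        (mob ((UQ θ ε (x + E * u) y) ^ 2 + X * (C c * (e * h)) ^ 2) : ℝ)| ≤
      (Fintype.card K : ℝ) ^ h.natDegree * 8 ^ (PDc h z).ncard *
        (1 / Real.sqrt 2) ^ (PD h z).ncard

/-- **The theorem** for `a ^ 2 + θ ^ 2 a + ε ^ 2 + X δ ^ 2`, with weights. -/
def S_apQ : Prop :=
  ∀ (K : Type) [Field K] [Fintype K] [CharP K 2] (θ : K) (ε δ Q : K[X]), θ ≠ 0 → Q ≠ 0 →
    ∀ η : ℝ, 0 < η → ∃ n₀ : ℕ, ∀ n : ℕ, n₀ ≤ n → ∀ w : K[X] → ℝ, (∀ g, |w g| ≤ 1) →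
      (∀ g u, w (g + (Q * u) ^ 2) = w g) →
      |∑ᶠ g ∈ MD K n, w g * (mob (g ^ 2 + C (θ ^ 2) * g + (ε ^ 2 + X * δ ^ 2)) : ℝ)| ≤
        η * (Fintype.card K : ℝ) ^ n

end Pool.Agent.H140.Q
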