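import Mathlib
import Pool.Agent.H140.Q.Stm

/-!
# Chowla's conjecture for all separable quadratic polynomials over `F_q[X]`, `q` even: statements

`K` is a finite field of characteristic two, `θ ∈ K[X]` is not zero, `g = x ^ 2 + X y ^ 2`,
`Cc = ε ^ 2 + X δ ^ 2` and `f = g ^ 2 + θ ^ 2 g + Cc = U ^ 2 + X G ^ 2` with
`U = x ^ 2 + X y ^ 2 + θ x + ε`, `G = θ y + δ`.
-/

set_option autoImplicit false

namespace Pool.Agent.H140.Q

open Polynomial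
open Pool.Agent.H524 (AC)
open Pool.Agent.H985.Chow (mob MD PD PDc Good Wr Wl)

/-- the polynomial `U` -/
noncomputable def UM {K : Type} [Field K] (θ ε x y : K[X]) : K[X] :=
  x ^ 2 + X * y ^ 2 + θ * x + ε

/-- the polynomial `f` -/
noncomputable def fM {K : Type} [Field K] (θ ε δ g : K[X]) : K[X] :=
  g ^ 2 + θ ^ 2 * g + (ε ^ 2 + X * δ ^ 2)

open Classical in
/-- **Key formula** for quadratic polynomials: `m` is a fixed divisor of `f`, and the Möbius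
function of `f / m` is considered, where `f / m` is prime to `m`, `θ` and `e h`. -/
def S_keyM : Prop :=
  ∀ (K : Type) [Field K] [Fintype K] [CharP K 2] (n c₀ : ℕ) (c : K)
    (θ x₁ x₂ y ε δ e h m g₁ g₂ : K[X]),
    c ≠ 0 → θ ≠ 0 → e.Monic → h.Monic → m.Monic → IsCoprime e h → Squarefree h →
    IsCoprime θ h → IsCoprime m h → θ * y + δ = C c * (e * h) →
    (x₁ ^ 2 + X * y ^ 2).Monic → (x₁ ^ 2 + X * y ^ 2).natDegree = n →
    (x₂ ^ 2 + X * y ^ 2).Monic → (x₂ ^ 2 + X * y ^ 2).natDegree = n →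
    (UM θ ε x₁ y) ^ 2 + X * (C c * (e * h)) ^ 2 = m * g₁ →
    (UM θ ε x₂ y) ^ 2 + X * (C c * (e * h)) ^ 2 = m * g₂ →
    IsCoprime g₁ (θ * m * (e * h)) → IsCoprime g₂ (θ * m * (e * h)) →
    (e * θ * m) ^ 5 ∣ x₂ - x₁ →
    (ε ^ 2 + X * δ ^ 2).natDegree ≤ c₀ → 4 * θ.natDegree ≤ c₀ → m.natDegree ≤ c₀ →
    n + 2 * (x₂ - x₁).natDegree + 2 * c₀ + 2 ≤ 4 * (e * h).natDegree →
    2 * (e * h).natDegree + 2 * θ.natDegree ≤ n + c₀ →
    2 * (x₂ - x₁).natDegree + 2 * c₀ + 4 ≤ n →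
    ∃ w : K, algebraMap K (AC K) w = ∑ ρ ∈ (h.aroots (AC K)).toFinset,
        (Wr (UM θ ε x₁ y) (C c * (e * h)) ρ + Wr (UM θ ε x₂ y) (C c * (e * h)) ρ) ∧
      mob g₁ * mob g₂ = if ∃ t : K, t ^ 2 + t = w then 1 else -1

open Classical in
/-- The local function: `0` at `(a, α)` if `a ^ 2 + κ a + c = 0`, otherwise
`ψ (W(a ^ 2 + κ a + c, κ α + τ a + σ))`. -/
noncomputable def Glm {F : Type*} [Field F] (ψ : AddChar F ℂ) (β x κ τ c σ : F) (v : F × F) : ℂ :=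
  if v.1 ^ 2 + κ * v.1 + c = 0 then 0
  else ψ (Wl β x (v.1 ^ 2 + κ * v.1 + c) (κ * v.2 + τ * v.1 + σ))

/-- **Task LOCM.** -/
def S_locM : Prop :=
  ∀ (F : Type) [Field F] [Fintype F] [CharP F 2] (ψ : AddChar F ℂ), ψ ≠ 1 →
    (∀ x, ψ (x ^ 2) = ψ x) → ∀ β x κ τ c σ : F, β ≠ 0 → κ ≠ 0 →
    (∀ χ : AddChar (F × F) ℂ, ‖∑ v, Glm ψ β x κ τ c σ v * χ v‖ ≤ 8 * (Fintype.card F : ℝ)) ∧
    (∑ χ : AddChar (F × F) ℂ, ‖∑ v, Glm ψ β x κ τ c σ v * χ v‖ ≤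
      (Fintype.card F : ℝ) ^ 3 / Real.sqrt 2)

open Classical in
/-- The Möbius function of `f / m`, if `m` divides `f` and `f / m` is prime to `m θ`; and `0`
otherwise. -/
noncomputable def mobM {K : Type} [Field K] (m θ f : K[X]) : ℤ :=
  if m ∣ f ∧ IsCoprime (f / m) (m * θ) then mob (f / m) else 0

/-- **Window bound** (task WINM). -/
def S_winM : Prop :=
  ∀ (K : Type) [Field K] [Fintype K] [CharP K 2] (n L c₀ : ℕ) (c : K)
    (θ x y ε δ e h m E : K[X]) (z : ℝ),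
    c ≠ 0 → θ ≠ 0 → e.Monic → h.Monic → m.Monic → IsCoprime e h → Squarefree h →
    IsCoprime E h → IsCoprime θ h → IsCoprime m h →
    E ≠ 0 → (e * θ * m) ^ 5 ∣ E → 1 ≤ L → θ * y + δ = C c * (e * h) →
    (x ^ 2 + X * y ^ 2).Monic → (x ^ 2 + X * y ^ 2).natDegree = n →
    (ε ^ 2 + X * δ ^ 2).natDegree ≤ c₀ → 4 * θ.natDegree ≤ c₀ → m.natDegree ≤ c₀ →
    n + 2 * (E.natDegree + (L - 1)) + 2 * c₀ + 2 ≤ 4 * (e * h).natDegree →
    2 * (e * h).natDegree + 2 * θ.natDegree ≤ n + c₀ →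
    2 * (E.natDegree + (L - 1)) + 2 * c₀ + 4 ≤ n →
    L + 2 * (∑ᶠ P ∈ PD h z, P.natDegree) ≤ 2 * h.natDegree →
    |∑ᶠ u ∈ {u : K[X] | u.degree < (L : WithBot ℕ)},
        (mobM m θ ((UM θ ε (x + E * u) y) ^ 2 + X * (C c * (e * h)) ^ 2) : ℝ)| ≤
      (Fintype.card K : ℝ) ^ h.natDegree * 8 ^ (PDc h z).ncard *
        (1 / Real.sqrt 2) ^ (PD h z).ncard

/-- **The theorem for `mobM`**, with weights. -/
def S_apM : Prop :=
  ∀ (K : Type) [Field K] [Fintype K] [CharP K 2] (θ ε δ m Q : K[X]), θ ≠ 0 → m.Monic → Q ≠ 0 →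
    ∀ η : ℝ, 0 < η → ∃ n₀ : ℕ, ∀ n : ℕ, n₀ ≤ n → ∀ w : K[X] → ℝ, (∀ g, |w g| ≤ 1) →
      (∀ g u, w (g + (Q * u) ^ 2) = w g) →
      |∑ᶠ g ∈ MD K n, w g * (mobM m θ (fM θ ε δ g) : ℝ)| ≤ η * (Fintype.card K : ℝ) ^ n

open Classical in
/-- The Liouville function of `K[X]`: `(-1) ^ k` if `F` is a nonzero constant times a product of `k`
monic irreducible polynomials, counted with multiplicity, and `0` for `F = 0`. -/
noncomputable def liou {K : Type} [Field K] (F : K[X]) : ℤ :=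
  if F = 0 then 0 else (-1) ^ Multiset.card (UniqueFactorizationMonoid.factors F)

/-- **The theorem for the Liouville function** and `g ^ 2 + θ ^ 2 g + Cc`. -/
def S_lioM : Prop :=
  ∀ (K : Type) [Field K] [Fintype K] [CharP K 2] (θ ε δ Q : K[X]), θ ≠ 0 → Q ≠ 0 →
    ∀ η : ℝ, 0 < η → ∃ n₀ : ℕ, ∀ n : ℕ, n₀ ≤ n → ∀ w : K[X] → ℝ, (∀ g, |w g| ≤ 1) →
      (∀ g u, w (g + (Q * u) ^ 2) = w g) →
      |∑ᶠ g ∈ MD K n, w g * (liou (fM θ ε δ g) : ℝ)| ≤ η * (Fintype.card K : ℝ) ^ n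

/-- `m` is the part of `F` made of the primes `P` with `P ∣ θ` or `P ^ 2 ∣ F`. -/
def GM {K : Type} [Field K] (θ m F : K[X]) : Prop :=
  m.Monic ∧ m ∣ F ∧ IsCoprime (F / m) (m * θ) ∧ Squarefree (F / m) ∧
    ∀ P, Irreducible P → P ∣ m → P ∣ θ ∨ P ^ 2 ∣ m

/-- **Task CNTM**: the values divisible by a power of a prime. -/
def S_cntM : Prop :=
  ∀ (K : Type) [Field K] [Fintype K] [CharP K 2] (θ ε δ P : K[X]) (τ k n : ℕ), θ ≠ 0 →
    Irreducible P → ¬ P ^ (τ + 1) ∣ θ ^ 2 → τ ≤ k → (k - τ) * P.natDegree ≤ n →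
    (MD K n ∩ {g | P ^ k ∣ fM θ ε δ g}).ncard ≤
      2 * Fintype.card K ^ (n - (k - τ) * P.natDegree)

/-- **Task BIGM**: the values divisible by the square of a prime of degree larger than `n / 2`. -/
def S_bigM : Prop :=
  ∀ (K : Type) [Field K] [Fintype K] [CharP K 2] (θ ε δ : K[X]), θ ≠ 0 → ∃ B n₀ : ℕ,
    ∀ n : ℕ, n₀ ≤ n →
      (MD K n ∩ {g | ∃ P : K[X], Irreducible P ∧ n < 2 * P.natDegree ∧ P ^ 2 ∣ fM θ ε δ g}).ncard ≤
        B * Fintype.card K ^ (n / 2)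

/-- **Task TAILM**: for almost all `g` the part `m` of `f(g)` has bounded degree. -/
def S_tailM : Prop :=
  ∀ (K : Type) [Field K] [Fintype K] [CharP K 2] (θ ε δ : K[X]), θ ≠ 0 → ∀ η : ℝ, 0 < η →
    ∃ D₀ n₀ : ℕ, ∀ n : ℕ, n₀ ≤ n →
      ((MD K n ∩ {g | ¬ ∃ m : K[X], m.natDegree ≤ D₀ ∧ GM θ m (fM θ ε δ g)}).ncard : ℝ) ≤
        η * (Fintype.card K : ℝ) ^ n

/-- **The theorem for the Liouville function and all separable quadratic polynomials**, uniformly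
in the weights `w` with `|w| ≤ 1` that do not change if `α β (Q u) ^ 2` is added to the
argument. -/
def S_quad : Prop :=
  ∀ (K : Type) [Field K] [Fintype K] [CharP K 2] (α β γ Q : K[X]), α ≠ 0 → β ≠ 0 → Q ≠ 0 →
    ∀ η : ℝ, 0 < η → ∃ n₀ : ℕ, ∀ n : ℕ, n₀ ≤ n → ∀ w : K[X] → ℝ, (∀ g, |w g| ≤ 1) →
      (∀ g u, w (g + α * β * (Q * u) ^ 2) = w g) →
      |∑ᶠ g ∈ MD K n, w g * (liou (α * g ^ 2 + β * g + γ) : ℝ)| ≤
        η * (Fintype.card K : ℝ) ^ n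

end Pool.Agent.H140.Q
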