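import Mathlib
import Pool.Agent.H140.Q.StmM
import Pool.Agent.H985.Chow.Asm

/-!
# Project QM, task FINM (helper685): from `g ^ 2 + θ ^ 2 g + Cc` to all separable quadratics
-/

set_option autoImplicit false

namespace Pool.Agent.H140.Q

open Polynomial
open Pool.Agent.H985.Chow (MD)

namespace FinM

section liou

variable {K : Type} [Field K]

theorem liou_ne {F : K[X]} (h : F ≠ 0) : liou F =
    (-1) ^ Multiset.card (UniqueFactorizationMonoid.factors F) := by
  unfold liou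
  rw [if_neg h]

theorem liou_zero : liou (0 : K[X]) = 0 := by
  unfold liou
  rw [if_pos rfl]

theorem liou_mul (F G : K[X]) : liou (F * G) = liou F * liou G := by
  by_cases hF : F = 0
  · rw [hF, zero_mul, liou_zero, zero_mul]
  by_cases hG : G = 0
  · rw [hG, mul_zero, liou_zero, mul_zero]
  rw [liou_ne hF, liou_ne hG, liou_ne (mul_ne_zero hF hG), ← pow_add,
    Multiset.card_eq_card_of_rel (UniqueFactorizationMonoid.factors_mul hF hG),
    Multiset.card_add]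

theorem liou_self {F : K[X]} (h : F ≠ 0) : liou F * liou F = 1 := by
  rw [liou_ne h, ← mul_pow]
  norm_num

theorem liou_unit {F : K[X]} (h : IsUnit F) : liou F = 1 := by
  have h1 : Associated F 1 := associated_one_iff_isUnit.2 h
  have h2 := Multiset.card_eq_card_of_rel
    (UniqueFactorizationMonoid.factors_rel_of_associated h1)
  rw [liou_ne h.ne_zero, h2, UniqueFactorizationMonoid.factors_one]
  simp

theorem liou_C {c : K} (h : c ≠ 0) : liou (C c) = 1 :=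
  liou_unit (isUnit_C.2 (IsUnit.mk0 c h))

theorem abs_liou (F : K[X]) : |(liou F : ℝ)| ≤ 1 := by
  unfold liou
  split_ifs
  · simp
  · push_cast
    rw [abs_pow]
    simp

end liou

end FinM

open FinM

open Classical in
theorem quadM (h : S_lioM) : S_quad := by
  intro K _ _ _ α β γ Q hα hβ hQ η hη
  have hαβ : α * β ≠ 0 := mul_ne_zero hα hβ
  obtain ⟨l, hl⟩ : ∃ l : K, l = (α * β).leadingCoeff := ⟨_, rfl⟩
  have hl0 : l ≠ 0 := by
    rw [hl]
    exact leadingCoeff_ne_zero.2 hαβ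
  obtain ⟨s, hs⟩ : ∃ s : K, s ^ 2 = l := by
    have h1 : Function.Surjective (frobenius K 2) :=
      Finite.injective_iff_surjective.mp (frobenius_inj K 2)
    obtain ⟨s, hs⟩ := h1 l
    exact ⟨s, hs⟩
  have hs0 : s ≠ 0 := by
    rintro rfl
    apply hl0
    rw [← hs]
    ring
  obtain ⟨M, hM⟩ : ∃ M : K[X], M = C l⁻¹ * (α * β) := ⟨_, rfl⟩
  have hMm : M.Monic := by
    rw [hM]
    apply Polynomial.monic_C_mul_of_mul_leadingCoeff_eq_one
    rw [← hl, inv_mul_cancel₀ hl0]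
  have hM0 : M ≠ 0 := hMm.ne_zero
  obtain ⟨θ, hθ⟩ : ∃ θ : K[X], θ = C s⁻¹ * β := ⟨_, rfl⟩
  have hCs : (C s⁻¹ : K[X]) ≠ 0 := C_ne_zero.2 (inv_ne_zero hs0)
  have hθ0 : θ ≠ 0 := by
    rw [hθ]
    exact mul_ne_zero hCs hβ
  obtain ⟨ε, δ, hεδ⟩ := Pool.Agent.H985.Chow.Asm.G_surj
    (C (l⁻¹ ^ 2) * (α * β ^ 2 * γ) : K[X])
  have hCc : ε ^ 2 + X * δ ^ 2 = C (l⁻¹ ^ 2) * (α * β ^ 2 * γ) := hεδ
  have hls : C l⁻¹ = (C s⁻¹ : K[X]) ^ 2 := by
    rw [← C_pow, ← hs, inv_pow]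
  -- the key identity
  have hkey : ∀ g : K[X], α * β ^ 2 * (α * g ^ 2 + β * g + γ) =
      C (l ^ 2) * fM θ ε δ (M * g) := by
    intro g
    have h1 : C (l ^ 2) * (C l⁻¹ : K[X]) ^ 2 = 1 := by
      rw [← C_pow, ← C_mul, ← mul_pow, mul_inv_cancel₀ hl0, one_pow, C_1]
    have h2 : (C (l⁻¹ ^ 2) : K[X]) = (C l⁻¹ : K[X]) ^ 2 := by rw [C_pow]
    have h3 : C (l ^ 2) * fM θ ε δ (M * g) =
        (C (l ^ 2) * (C l⁻¹ : K[X]) ^ 2) * (α * β ^ 2 * (α * g ^ 2 + β * g + γ)) := by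
      unfold fM
      rw [hCc, hθ, hM, h2, mul_pow (C s⁻¹) β 2, ← hls]
      ring
    rw [h3, h1, one_mul]
  have hliou : ∀ g : K[X], liou (α * g ^ 2 + β * g + γ) =
      liou α * liou (fM θ ε δ (M * g)) := by
    intro g
    have h1 := congrArg liou (hkey g)
    rw [liou_mul, liou_mul, liou_mul, liou_C (pow_ne_zero 2 hl0), one_mul, sq, liou_mul,
      liou_self hβ, mul_one] at h1
    rw [← h1, ← mul_assoc, liou_self hα, one_mul]
  obtain ⟨q, hq⟩ : ∃ q : ℝ, q = (Fintype.card K : ℝ) := ⟨_, rfl⟩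
  have hq0 : 0 < q := by
    rw [hq]
    exact_mod_cast Fintype.card_pos
  obtain ⟨d, hd⟩ : ∃ d : ℕ, d = M.natDegree := ⟨_, rfl⟩
  obtain ⟨n₀, hn₀⟩ := h K θ ε δ (M * Q) hθ0 (mul_ne_zero hM0 hQ) (η / q ^ d) (by positivity)
  refine ⟨n₀, fun n hn w hw1 hw2 => ?_⟩
  obtain ⟨w', hw'⟩ : ∃ w' : K[X] → ℝ, w' = fun a =>
    if M ∣ a then (liou α : ℝ) * w (a / M) else 0 := ⟨_, rfl⟩
  have hwM : ∀ g, w' (M * g) = (liou α : ℝ) * w g := by
    intro g
    rw [hw']
    change (if M ∣ M * g then (liou α : ℝ) * w (M * g / M) else 0) = _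
    rw [if_pos (dvd_mul_right M g), mul_div_cancel_left₀ _ hM0]
  have h1 := hn₀ (n + d) (by omega) w' ?_ ?_
  · have h2 : ∑ᶠ g ∈ MD K n, w g * (liou (α * g ^ 2 + β * g + γ) : ℝ) =
        ∑ᶠ g ∈ MD K (n + d), w' g * (liou (fM θ ε δ g) : ℝ) := by
      have h3 : ∑ᶠ g ∈ MD K n, w g * (liou (α * g ^ 2 + β * g + γ) : ℝ) =
          ∑ᶠ g ∈ MD K n, (fun a => w' a * (liou (fM θ ε δ a) : ℝ)) (M * g) := by
        refine finsum_mem_congr rfl fun g _ => ?_
        change _ = w' (M * g) * (liou (fM θ ε δ (M * g)) : ℝ)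
        rw [hwM, hliou]
        push_cast
        ring
      rw [h3, ← finsum_mem_image (f := fun a => w' a * (liou (fM θ ε δ a) : ℝ))
        (g := fun g => M * g) (s := MD K n) (fun a _ b _ hab => mul_left_cancel₀ hM0 hab)]
      refine finsum_mem_inter_support_eq' _ _ _ fun a ha => ?_
      have hMa : M ∣ a := by
        by_contra hcon
        apply ha
        change w' a * _ = 0
        rw [hw']
        change (if M ∣ a then (liou α : ℝ) * w (a / M) else 0) * _ = 0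
        rw [if_neg hcon, zero_mul]
      constructor
      · rintro ⟨g, ⟨hg1, hg2⟩, rfl⟩
        refine ⟨hMm.mul hg1, ?_⟩
        change (M * g).natDegree = n + d
        rw [hMm.natDegree_mul hg1, hg2, hd, add_comm]
      · rintro ⟨ha1, ha2⟩
        obtain ⟨g, rfl⟩ := hMa
        have hg1 : g.Monic := hMm.of_mul_monic_left ha1
        refine ⟨g, ⟨hg1, ?_⟩, rfl⟩
        rw [hMm.natDegree_mul hg1] at ha2
        omega
    rw [h2]
    refine h1.trans (le_of_eq ?_)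
    rw [← hq, pow_add]
    field_simp
  · intro a
    rw [hw']
    change |if M ∣ a then (liou α : ℝ) * w (a / M) else 0| ≤ 1
    split_ifs
    · rw [abs_mul]
      exact mul_le_one₀ (abs_liou α) (abs_nonneg _) (hw1 _)
    · simp
  · intro a u
    have hdv : M ∣ (M * Q * u) ^ 2 := ⟨M * (Q * u) ^ 2, by ring⟩
    by_cases hMa : M ∣ a
    · obtain ⟨g, rfl⟩ := hMa
      have h3 : M * g + (M * Q * u) ^ 2 = M * (g + α * β * (Q * (C s⁻¹ * u)) ^ 2) := by
        have h4 : M = (C s⁻¹ : K[X]) ^ 2 * (α * β) := by rw [hM, hls]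
        have h5 : M * (M * (Q * u) ^ 2) = M * (α * β * (Q * (C s⁻¹ * u)) ^ 2) := by
          congr 1
          nth_rewrite 1 [h4]
          ring
        rw [mul_add, ← h5]
        ring
      rw [h3, hwM, hwM, hw2]
    · have h3 : ¬ M ∣ a + (M * Q * u) ^ 2 := fun hcon => hMa ((dvd_add_left hdv).1 hcon)
      rw [hw']
      change (if M ∣ a + (M * Q * u) ^ 2 then _ else (0 : ℝ)) = if M ∣ a then _ else 0
      rw [if_neg h3, if_neg hMa]

end Pool.Agent.H140.Q
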