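import Pool.Agent.H140.Q.StmM
import Pool.Agent.H985.Chow.Asm

/-!
# Tasks CNTM and BIGM
-/

set_option autoImplicit false
set_option linter.unusedSectionVars false

namespace Pool.Agent.H140.Q

open Polynomial
open Pool.Agent.H985.Chow (MD)

namespace CntML

open Pool.Agent.H985.Chow.Asm (G G_mem mem_G ta tb card_deg mem_deg)

theorem pow_dvd_aux {R : Type} [CommRing R] [IsDomain R] {p : R} (hp : Prime p) :
    ∀ (τ k : ℕ) (a b : R), p ^ k ∣ a * b → ¬ p ^ (τ + 1) ∣ a → p ^ (k - τ) ∣ b := by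
  intro τ
  induction τ with
  | zero =>
    intro k a b h hn
    rw [zero_add, pow_one] at hn
    rw [Nat.sub_zero]
    exact hp.pow_dvd_of_dvd_mul_left k hn h
  | succ τ ih =>
    intro k a b h hn
    by_cases hpa : p ∣ a
    · obtain ⟨a', rfl⟩ := hpa
      cases k with
      | zero => simp
      | succ k =>
        have h1 : p ^ k ∣ a' * b := by
          rw [pow_succ', mul_assoc] at h
          exact (mul_dvd_mul_iff_left hp.ne_zero).mp h
        have h2 : ¬ p ^ (τ + 1) ∣ a' := by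
          intro h3
          apply hn
          rw [pow_succ' p (τ + 1)]
          exact mul_dvd_mul_left _ h3
        have := ih k a' b h1 h2
        rwa [Nat.add_sub_add_right]
    · exact (pow_dvd_pow p (Nat.sub_le _ _)).trans (hp.pow_dvd_of_dvd_mul_left k hpa h)

variable {K : Type} [Field K] [Fintype K]

/-- the range of a function on the polynomials of degree less than `m` -/
theorem card_range (m : ℕ) (F : K[X] → K[X]) :
    (Set.range (fun v : degreeLT K m => F v)).Finite ∧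
      (Set.range (fun v : degreeLT K m => F v)).ncard ≤ Fintype.card K ^ m := by
  refine ⟨Set.finite_range _, ?_⟩
  rw [← Set.image_univ]
  refine (Set.ncard_image_le Set.finite_univ).trans ?_
  rw [Set.ncard_univ, Nat.card_eq_fintype_card, card_deg]

theorem card_mult (Q : K[X]) (hQ : Q ≠ 0) (n : ℕ) (h : Q.natDegree ≤ n) :
    ({u : K[X] | u.degree < (n : WithBot ℕ) ∧ Q ∣ u}).Finite ∧
      ({u : K[X] | u.degree < (n : WithBot ℕ) ∧ Q ∣ u}).ncard ≤
        Fintype.card K ^ (n - Q.natDegree) := by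
  obtain ⟨h1, h2⟩ := card_range (K := K) (n - Q.natDegree) (fun v => Q * v)
  have hsub : {u : K[X] | u.degree < (n : WithBot ℕ) ∧ Q ∣ u} ⊆
      Set.range (fun v : degreeLT K (n - Q.natDegree) => Q * (v : K[X])) := by
    rintro u ⟨hu, v, rfl⟩
    refine ⟨⟨v, ?_⟩, rfl⟩
    rw [mem_degreeLT]
    by_cases hv : v = 0
    · rw [hv, degree_zero]
      exact WithBot.bot_lt_coe _
    · rw [degree_mul, degree_eq_natDegree hQ, degree_eq_natDegree hv] at hu
      rw [degree_eq_natDegree hv]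
      have hu' : Q.natDegree + v.natDegree < n := by exact_mod_cast hu
      have : v.natDegree < n - Q.natDegree := by omega
      exact_mod_cast this
  exact ⟨h1.subset hsub, (Set.ncard_le_ncard hsub h1).trans h2⟩

theorem card_coset (Q c : K[X]) (hQ : Q ≠ 0) (n : ℕ) (h : Q.natDegree ≤ n) :
    ({u : K[X] | u.degree < (n : WithBot ℕ) ∧ Q ∣ u + c}).Finite ∧
      ({u : K[X] | u.degree < (n : WithBot ℕ) ∧ Q ∣ u + c}).ncard ≤
        Fintype.card K ^ (n - Q.natDegree) := by
  rcases Set.eq_empty_or_nonempty {u : K[X] | u.degree < (n : WithBot ℕ) ∧ Q ∣ u + c} with h0 | h0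
  · rw [h0]
    exact ⟨Set.finite_empty, by simp⟩
  · obtain ⟨u₁, hu₁, hd₁⟩ := h0
    obtain ⟨h1, h2⟩ := card_mult Q hQ n h
    have hm : Set.MapsTo (fun u => u - u₁) {u : K[X] | u.degree < (n : WithBot ℕ) ∧ Q ∣ u + c}
        {u : K[X] | u.degree < (n : WithBot ℕ) ∧ Q ∣ u} := by
      rintro u ⟨hu, hd⟩
      refine ⟨(degree_sub_le _ _).trans_lt (max_lt hu hu₁), ?_⟩
      have := dvd_sub hd hd₁
      rwa [add_sub_add_right_eq_sub] at this
    have hi : Set.InjOn (fun u => u - u₁) {u : K[X] | u.degree < (n : WithBot ℕ) ∧ Q ∣ u + c} :=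
      fun a _ b _ hab => sub_left_inj.mp hab
    exact ⟨Set.Finite.of_injOn hm hi h1, (Set.ncard_le_ncard_of_injOn _ hm hi h1).trans h2⟩

theorem card_two (Q c : K[X]) (hQ : Q ≠ 0) (n : ℕ) (h : Q.natDegree ≤ n) (S : Set K[X])
    (hS : ∀ g ∈ S, ∀ g' ∈ S, (g' - g).degree < (n : WithBot ℕ) ∧ (Q ∣ g' - g ∨ Q ∣ g' - g + c)) :
    S.ncard ≤ 2 * Fintype.card K ^ (n - Q.natDegree) := by
  rcases Set.eq_empty_or_nonempty S with h0 | h0
  · rw [h0]; simp
  · obtain ⟨g₀, hg₀⟩ := h0
    obtain ⟨h1, h2⟩ := card_mult Q hQ n h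
    obtain ⟨h3, h4⟩ := card_coset Q c hQ n h
    have hm : Set.MapsTo (fun g => g - g₀) S ({u : K[X] | u.degree < (n : WithBot ℕ) ∧ Q ∣ u} ∪
        {u : K[X] | u.degree < (n : WithBot ℕ) ∧ Q ∣ u + c}) := by
      intro g hg
      obtain ⟨h5, h6⟩ := hS g₀ hg₀ g hg
      rcases h6 with h6 | h6
      · exact Or.inl ⟨h5, h6⟩
      · exact Or.inr ⟨h5, h6⟩
    have hi : Set.InjOn (fun g => g - g₀) S := fun a _ b _ hab => sub_left_inj.mp hab
    refine (Set.ncard_le_ncard_of_injOn _ hm hi (h1.union h3)).trans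
      ((Set.ncard_union_le _ _).trans ?_)
    omega

end CntML

open CntML in
theorem cntM : S_cntM := by
  intro K _ _ _ θ ε δ P τ k n hθ hP hPτ hτk hn
  have h2 : (2 : K[X]) = 0 := CharTwo.two_eq_zero
  have hdeg : (P ^ (k - τ)).natDegree = (k - τ) * P.natDegree := natDegree_pow _ _
  rw [← hdeg]
  refine card_two (P ^ (k - τ)) (θ ^ 2) (pow_ne_zero _ hP.ne_zero) n (by rw [hdeg]; exact hn) _ ?_
  rintro g ⟨⟨hgm, hgd⟩, hg⟩ g' ⟨⟨hgm', hgd'⟩, hg'⟩
  refine ⟨?_, ?_⟩
  · have h1 := degree_sub_lt_left (p := g') (q := g)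
      (by rw [degree_eq_natDegree hgm'.ne_zero, degree_eq_natDegree hgm.ne_zero, hgd, hgd'])
      hgm'.ne_zero (by rw [hgm'.leadingCoeff, hgm.leadingCoeff])
    rwa [degree_eq_natDegree hgm'.ne_zero, hgd'] at h1
  · have h3 : P ^ k ∣ (g' - g) * (g' - g + θ ^ 2) := by
      have h4 : (g' - g) * (g' - g + θ ^ 2) = fM θ ε δ g' - fM θ ε δ g := by
        unfold fM
        linear_combination (g * (g - g')) * h2
      rw [h4]
      exact dvd_sub hg' hg
    by_cases h5 : P ^ (τ + 1) ∣ g' - g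
    · have h6 : ¬ P ^ (τ + 1) ∣ g' - g + θ ^ 2 := by
        intro h7
        apply hPτ
        have := dvd_sub h7 h5
        rwa [add_sub_cancel_left] at this
      left
      rw [mul_comm] at h3
      exact pow_dvd_aux hP.prime τ k _ _ h3 h6
    · right
      exact pow_dvd_aux hP.prime τ k _ _ h3 h5

namespace CntML

open Pool.Agent.H985.Chow.Asm (G G_mem mem_G ta tb card_deg mem_deg)

variable {K : Type} [Field K] [Fintype K] [CharP K 2]

theorem fM_G (θ ε δ x y : K[X]) :
    fM θ ε δ (G x y) = (UM θ ε x y) ^ 2 + X * (θ * y + δ) ^ 2 := by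
  have h2 : (2 : K[X]) = 0 := CharTwo.two_eq_zero
  unfold fM UM G
  linear_combination (-((x ^ 2 + X * y ^ 2) * θ * x + (x ^ 2 + X * y ^ 2) * ε + θ * x * ε)
    - X * θ * y * δ) * h2

theorem dvd_both (P U V : K[X]) (hP : Irreducible P) (h : P ^ 2 ∣ U ^ 2 + X * V ^ 2) :
    P ∣ U ∧ P ∣ V := by
  have h2 : (2 : K[X]) = 0 := CharTwo.two_eq_zero
  have hV : P ∣ V := by
    obtain ⟨k, hk⟩ := h
    have h1 := congrArg derivative hk
    have h3 : derivative (U ^ 2 + X * V ^ 2) = V ^ 2 := by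
      rw [derivative_add, derivative_sq, derivative_mul, derivative_sq, derivative_X]
      have : (C (2 : K) : K[X]) = 0 := by
        rw [show (2 : K) = 0 from CharTwo.two_eq_zero, C_0]
      rw [this]
      ring
    have h4 : derivative (P ^ 2 * k) = P * (2 * derivative P * k + P * derivative k) := by
      rw [derivative_mul, derivative_sq]
      have : (C (2 : K) : K[X]) = 2 := C_ofNat 2
      rw [this]
      ring
    rw [h3, h4] at h1
    exact hP.prime.dvd_of_dvd_pow (n := 2) ⟨_, h1⟩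
  refine ⟨?_, hV⟩
  have h5 : P ∣ U ^ 2 + X * V ^ 2 := (dvd_pow_self P two_ne_zero).trans h
  have h6 : P ∣ X * V ^ 2 := (dvd_pow hV two_ne_zero).mul_left X
  have h7 : P ∣ U ^ 2 := (dvd_add_left h6).mp h5
  exact hP.prime.dvd_of_dvd_pow h7

/-- the solutions `x` for given `y` -/
def XS (θ ε δ : K[X]) (n : ℕ) (y : K[X]) : Set K[X] :=
  {x | x.degree < ((n / 2 + 1 : ℕ) : WithBot ℕ) ∧ θ * y + δ ≠ 0 ∧
    ∃ P : K[X], Irreducible P ∧ n < 2 * P.natDegree ∧ P ∣ UM θ ε x y ∧ P ∣ θ * y + δ}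

theorem XS_card (θ ε δ : K[X]) (n : ℕ) (y : K[X]) (hn : 2 * θ.natDegree ≤ n)
    (hn1 : (θ * y + δ).natDegree ≤ n) :
    (XS θ ε δ n y).Finite ∧ (XS θ ε δ n y).ncard ≤ 2 := by
  have h2 : (2 : K[X]) = 0 := CharTwo.two_eq_zero
  rcases Set.eq_empty_or_nonempty (XS θ ε δ n y) with h0 | ⟨x₀, hx₀, hG, P₀, hP₀, hn₀, hU₀, hG₀⟩
  · rw [h0]
    exact ⟨Set.finite_empty, by simp⟩
  · have hsub : XS θ ε δ n y ⊆ {x₀, x₀ + θ} := by
      rintro x ⟨hx, -, P, hP, hnP, hU, hGP⟩
      have hdvd : P₀ ∣ P := by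
        by_contra hnd
        have hco : IsCoprime P₀ P := (hP₀.coprime_iff_not_dvd).mpr hnd
        have h3 : P₀ * P ∣ θ * y + δ := hco.mul_dvd hG₀ hGP
        have h4 := natDegree_le_of_dvd h3 hG
        rw [natDegree_mul hP₀.ne_zero hP.ne_zero] at h4
        omega
      have h5 : P₀ ∣ (x - x₀) * (x - x₀ + θ) := by
        have h6 : (x - x₀) * (x - x₀ + θ) = UM θ ε x y - UM θ ε x₀ y := by
          unfold UM
          linear_combination (x₀ * (x₀ - x)) * h2
        rw [h6]
        exact dvd_sub (hdvd.trans hU) hU₀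
      have hb : ∀ v : K[X], v.degree < ((n / 2 + 1 : ℕ) : WithBot ℕ) → P₀ ∣ v → v = 0 := by
        intro v hv hd
        by_contra hv0
        have h7 := natDegree_le_of_dvd hd hv0
        rw [degree_eq_natDegree hv0] at hv
        have h8 : v.natDegree < n / 2 + 1 := by exact_mod_cast hv
        omega
      have hdx : (x - x₀).degree < ((n / 2 + 1 : ℕ) : WithBot ℕ) :=
        (degree_sub_le _ _).trans_lt (max_lt hx hx₀)
      have hdt : θ.degree < ((n / 2 + 1 : ℕ) : WithBot ℕ) := by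
        refine degree_le_natDegree.trans_lt ?_
        have : θ.natDegree < n / 2 + 1 := by omega
        exact_mod_cast this
      rcases hP₀.prime.dvd_or_dvd h5 with h6 | h6
      · left
        exact sub_eq_zero.mp (hb _ hdx h6)
      · right
        have h9 := hb _ ((degree_add_le _ _).trans_lt (max_lt hdx hdt)) h6
        rw [Set.mem_singleton_iff]
        linear_combination h9 - θ * h2
    have hf : ({x₀, x₀ + θ} : Set K[X]).Finite := Set.toFinite _
    refine ⟨hf.subset hsub, (Set.ncard_le_ncard hsub hf).trans ?_⟩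
    refine (Set.ncard_insert_le _ _).trans ?_
    rw [Set.ncard_singleton]

end CntML

open CntML Pool.Agent.H985.Chow.Asm in
theorem bigM : S_bigM := by
  intro K _ _ _ θ ε δ hθ
  refine ⟨3 * Fintype.card K, 2 * θ.natDegree + 2 * δ.natDegree + 2, ?_⟩
  intro n hn
  have hq : 0 < Fintype.card K := Fintype.card_pos
  -- the two parts
  let T1 : Set K[X] := {g | ∃ x y : K[X], x.degree < ((n / 2 + 1 : ℕ) : WithBot ℕ) ∧
    θ * y + δ = 0 ∧ G x y = g}
  let T2 : Set K[X] := ⋃ y : degreeLT K (n / 2 + 1), (fun x => G x (y : K[X])) '' XS θ ε δ n y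
  have hT1 : T1.Finite ∧ T1.ncard ≤ Fintype.card K ^ (n / 2 + 1) := by
    rcases Set.eq_empty_or_nonempty T1 with h0 | ⟨g₀, x₀, y₀, -, hy₀, -⟩
    · rw [h0]
      exact ⟨Set.finite_empty, by simp⟩
    · obtain ⟨h1, h2⟩ := card_range (K := K) (n / 2 + 1) (fun v => G v y₀)
      have hsub : T1 ⊆ Set.range (fun v : degreeLT K (n / 2 + 1) => G (v : K[X]) y₀) := by
        rintro g ⟨x, y, hx, hy, rfl⟩
        have : y = y₀ := by
          apply mul_left_cancel₀ hθ
          exact add_right_cancel (hy.trans hy₀.symm)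
        subst this
        exact ⟨⟨x, mem_degreeLT.mpr hx⟩, rfl⟩
      exact ⟨h1.subset hsub, (Set.ncard_le_ncard hsub h1).trans h2⟩
  have hXS : ∀ y : degreeLT K (n / 2 + 1), (XS θ ε δ n (y : K[X])).Finite ∧
      (XS θ ε δ n (y : K[X])).ncard ≤ 2 := by
    intro y
    refine XS_card θ ε δ n y (by omega) ?_
    refine (natDegree_add_le _ _).trans (max_le ?_ (by omega))
    refine natDegree_mul_le.trans ?_
    have hy : (y : K[X]).natDegree ≤ n / 2 := by
      have h1 : (y : K[X]).degree < ((n / 2 + 1 : ℕ) : WithBot ℕ) := mem_degreeLT.mp y.2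
      have h3 : (y : K[X]).natDegree < n / 2 + 1 := by
        by_cases h0 : (y : K[X]) = 0
        · rw [h0, natDegree_zero]; omega
        · rw [degree_eq_natDegree h0] at h1
          exact_mod_cast h1
      omega
    omega
  have hT2 : T2.Finite ∧ T2.ncard ≤ Fintype.card K ^ (n / 2 + 1) * 2 := by
    refine ⟨Set.finite_iUnion fun y => (hXS y).1.image _, ?_⟩
    refine (Set.ncard_iUnion_le_of_fintype _).trans ?_
    refine (Finset.sum_le_sum fun y _ => (Set.ncard_image_le (hXS y).1).trans (hXS y).2).trans ?_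
    rw [Finset.sum_const, Finset.card_univ, card_deg, smul_eq_mul]
  have hsub : MD K n ∩ {g | ∃ P : K[X], Irreducible P ∧ n < 2 * P.natDegree ∧ P ^ 2 ∣ fM θ ε δ g} ⊆
      T1 ∪ T2 := by
    rintro g ⟨hg, P, hP, hnP, hd⟩
    obtain ⟨v, hv, v', hv', rfl⟩ := mem_G n g hg
    set x : K[X] := ta K n + v with hx
    set y : K[X] := tb K n + v' with hy
    have hxd : x.degree < ((n / 2 + 1 : ℕ) : WithBot ℕ) := by
      rw [hx]
      refine (degree_add_le _ _).trans_lt (max_lt ?_ ?_)
      · unfold ta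
        split_ifs
        · rw [degree_X_pow]
          exact_mod_cast Nat.lt_succ_self _
        · rw [degree_zero]
          exact WithBot.bot_lt_coe _
      · refine (mem_degreeLT.mp hv).trans_le ?_
        have : (n + 1) / 2 ≤ n / 2 + 1 := by omega
        exact_mod_cast this
    have hyd : y.degree < ((n / 2 + 1 : ℕ) : WithBot ℕ) := by
      rw [hy]
      refine (degree_add_le _ _).trans_lt (max_lt ?_ ?_)
      · unfold tb
        split_ifs
        · rw [degree_zero]
          exact WithBot.bot_lt_coe _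
        · rw [degree_X_pow]
          exact_mod_cast Nat.lt_succ_self _
      · refine (mem_degreeLT.mp hv').trans_le ?_
        exact_mod_cast Nat.le_succ _
    rw [fM_G] at hd
    obtain ⟨hU, hV⟩ := dvd_both P _ _ hP hd
    by_cases h0 : θ * y + δ = 0
    · left
      exact ⟨x, y, hxd, h0, rfl⟩
    · right
      rw [Set.mem_iUnion]
      exact ⟨⟨y, mem_degreeLT.mpr hyd⟩, x, ⟨hxd, h0, P, hP, hnP, hU, hV⟩, rfl⟩
  refine (Set.ncard_le_ncard hsub (hT1.1.union hT2.1)).trans ((Set.ncard_union_le _ _).trans ?_)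
  have h5 := hT1.2
  have h6 := hT2.2
  calc T1.ncard + T2.ncard ≤ Fintype.card K ^ (n / 2 + 1) + Fintype.card K ^ (n / 2 + 1) * 2 := by
        omega
    _ = 3 * Fintype.card K * Fintype.card K ^ (n / 2) := by rw [pow_succ]; ring

end Pool.Agent.H140.Q
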