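import Mathlib

/-!
# The local computation at a simple root of `G` for the key formula
-/

set_option autoImplicit false

namespace Pool.Agent.H140.Q

open Polynomial

namespace Local

section
variable {R : Type*} [CommRing R]

lemma cm0 (p q : R[X]) : (p * q).coeff 0 = p.coeff 0 * q.coeff 0 := mul_coeff_zero p q

lemma cm1 (p q : R[X]) : (p * q).coeff 1 = p.coeff 0 * q.coeff 1 + p.coeff 1 * q.coeff 0 := by
  rw [coeff_mul]
  simp [Finset.Nat.antidiagonal_succ]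

lemma cm2 (p q : R[X]) : (p * q).coeff 2 =
    p.coeff 0 * q.coeff 2 + p.coeff 1 * q.coeff 1 + p.coeff 2 * q.coeff 0 := by
  rw [coeff_mul]
  simp [Finset.Nat.antidiagonal_succ]
  ring

lemma cm3 (p q : R[X]) : (p * q).coeff 3 =
    p.coeff 0 * q.coeff 3 + p.coeff 1 * q.coeff 2 + p.coeff 2 * q.coeff 1 +
      p.coeff 3 * q.coeff 0 := by
  rw [coeff_mul]
  simp [Finset.Nat.antidiagonal_succ]
  ring

lemma cd (p : R[X]) (n : ℕ) : (derivative p).coeff n = p.coeff (n + 1) * (n + 1) :=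
  coeff_derivative p n

lemma c2 (p : R[X]) (n : ℕ) : (2 * p).coeff n = 2 * p.coeff n := by
  have : (2 : R[X]) = C 2 := (map_ofNat C 2).symm
  rw [this, coeff_C_mul]

lemma c4 (p : R[X]) (n : ℕ) : (4 * p).coeff n = 4 * p.coeff n := by
  have : (4 : R[X]) = C 4 := (map_ofNat C 4).symm
  rw [this, coeff_C_mul]

end

section main

variable {R : Type*} [CommRing R] {k : Type*} [Field k] [CharP k 2]

/-- the elimination -/
lemma elim (red : R →+* k) (D0 D2 D3 d1 iD c0 c1 c2 c3 H0 H1 h2 h3 P0 P1 q0 q1 q2 q3 : R)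
    (hD : D0 * iD = 1)
    (e0 : c0 * D0 = -2 * H0 ^ 3 + 4 * q0)
    (e1 : c0 * (2 * d1) + c1 * D0 = -2 * (3 * H0 ^ 2 * H1) + 4 * q1)
    (e2 : c0 * D2 + c1 * (2 * d1) + c2 * D0 = P0 - 2 * h2 + 4 * q2)
    (e3 : c0 * D3 + c1 * D2 + c2 * (2 * d1) + c3 * D0 = 2 * P1 - 2 * h3 + 4 * q3) :
    ∃ l, c3 = 2 * l ∧ red l = red iD * (red P1 + red h3 + red iD * red P0 * red d1 +
      red iD * red H0 ^ 2 * red H1 * red D2 + red iD * red H0 ^ 3 * red D3) := by
  have htwo : (2 : k) = 0 := CharTwo.two_eq_zero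
  have hc0 : c0 = 2 * (iD * (-H0 ^ 3 + 2 * q0)) := by
    linear_combination iD * e0 - c0 * hD
  have hc1 : c1 = 2 * (iD * (-3 * H0 ^ 2 * H1 + 2 * q1 - 2 * (iD * (-H0 ^ 3 + 2 * q0)) * d1)) := by
    rw [hc0] at e1
    linear_combination iD * e1 - c1 * hD
  have hc2 : c2 = iD * (P0 - 2 * h2 + 4 * q2 - c0 * D2 - c1 * (2 * d1)) := by
    linear_combination iD * e2 - c2 * hD
  refine ⟨iD * (P1 - h3 + 2 * q3 - c2 * d1 -
    (iD * (-3 * H0 ^ 2 * H1 + 2 * q1 - 2 * (iD * (-H0 ^ 3 + 2 * q0)) * d1)) * D2 -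
    (iD * (-H0 ^ 3 + 2 * q0)) * D3), ?_, ?_⟩
  · linear_combination iD * e3 - c3 * hD - iD * D2 * hc1 - iD * D3 * hc0
  · have hr2 : red c2 = red iD * red P0 := by
      rw [hc2, hc0, hc1]
      simp only [map_mul, map_sub, map_add, map_ofNat, htwo]
      have h4 : (4 : k) = 0 := by linear_combination 2 * htwo
      rw [h4]
      ring
    simp only [map_mul, map_sub, map_add, map_ofNat, map_neg, map_pow, hr2]
    have h3' : (3 : k) = 1 := by linear_combination htwo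
    rw [htwo, h3']
    have hneg : ∀ x : k, -x = x := fun x => CharTwo.neg_eq x
    simp only [sub_eq_add_neg, hneg]
    ring

/-- the auxiliary polynomial `F' / 2` up to `G ^ 2` -/
noncomputable def HH (r : R) (U G M : R[X]) : R[X] :=
  U * derivative U + (X + C r) * G * derivative G + derivative M

/-- the polynomial `H` -/
noncomputable def Hp (r s : R) (a U G M F : R[X]) : R[X] :=
  C (s ^ 2) * HH r U G M + a * G ^ 2 + 2 * (a * HH r U G M - F * derivative a)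

lemma der_two (p : R[X]) : derivative (2 * p) = 2 * derivative p := by
  have : (2 : R[X]) = C 2 := (map_ofNat C 2).symm
  rw [this, derivative_C_mul]

lemma der_F (r : R) {U G M F : R[X]} (hF : F = U ^ 2 + (X + C r) * G ^ 2 + 2 * M) :
    derivative F = G ^ 2 + 2 * HH r U G M := by
  rw [hF]
  unfold HH
  simp only [derivative_add, derivative_mul, derivative_pow, derivative_X, derivative_C,
    derivative_ofNat, Nat.cast_ofNat, pow_one, map_ofNat, Nat.reduceSub]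
  ring

theorem loc (red : R →+* k) (hun : ∀ x, red x ≠ 0 → IsUnit x) (r s : R) (a U G M g c F : R[X])
    (hF : F = U ^ 2 + (X + C r) * G ^ 2 + 2 * M) (hG : C s * G = X * g)
    (hs : red s ≠ 0) (hU : red (U.coeff 0) ≠ 0) (hG1 : red (G.coeff 1) ≠ 0)
    (hc : X ^ 4 ∣ c * g ^ 4 * F -
      (Hp r s a U G M F * (C s * G) ^ 2 - (Hp r s a U G M F) ^ 2) * derivative F) :
    ∃ l, c.coeff 3 = 2 * l ∧ ∀ κ W e0 e1 : k,
      e0 = red (U.coeff 0) * red (U.coeff 1) + red (M.coeff 1) →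
      e1 = red (U.coeff 1) ^ 2 + red r * red (G.coeff 1) ^ 2 →
      κ = e0 * e1 / (red (G.coeff 1) ^ 2 * red (U.coeff 0) ^ 2) →
      W = e1 ^ 3 / (red (G.coeff 1) ^ 4 * red (U.coeff 0) ^ 2) →
      red l = κ + κ ^ 2 + W := by
  have htwo : (2 : k) = 0 := CharTwo.two_eq_zero
  have h4 : (4 : k) = 0 := by linear_combination 2 * htwo
  have h3 : (3 : k) = 1 := by linear_combination htwo
  have h6 : (6 : k) = 0 := by linear_combination 3 * htwo
  obtain ⟨si, hsi⟩ := hun s hs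
  have hG0 : G.coeff 0 = 0 := by
    have h1 := congrArg (fun p => p.coeff 0) hG
    simp only [coeff_C_mul, coeff_X_mul_zero] at h1
    rw [← hsi] at h1
    exact (Units.mul_right_eq_zero si).1 h1
  have hg : ∀ i, g.coeff i = s * G.coeff (i + 1) := by
    intro i
    have h1 := congrArg (fun p => p.coeff (i + 1)) hG
    simp only [coeff_C_mul, coeff_X_mul] at h1
    exact h1.symm
  obtain ⟨H, hH⟩ : ∃ H, H = Hp r s a U G M F := ⟨_, rfl⟩
  rw [← hH] at hc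
  obtain ⟨b, hb⟩ : ∃ b : R[X], b = C (s ^ 2) + 2 * a := ⟨_, rfl⟩
  have hdF := der_F r hF
  have hbF : b * derivative F = (X * g) ^ 2 + 2 * H + 4 * (F * derivative a) := by
    rw [← hG, hH, hb, hdF]
    unfold Hp
    rw [C_pow]
    ring
  have hdb : derivative b = 2 * derivative a := by
    rw [hb, derivative_add, derivative_C, der_two, zero_add]
  obtain ⟨D, hD⟩ : ∃ D : R[X], D = g ^ 4 * (F * b) := ⟨_, rfl⟩
  have key : X ^ 4 ∣ c * D - (H ^ 2 * (X ^ 2 * g ^ 2) - 2 * H ^ 3 +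
      4 * (F * derivative a * (H * (X ^ 2 * g ^ 2) - H ^ 2))) := by
    have e1 : c * D - (H ^ 2 * (X ^ 2 * g ^ 2) - 2 * H ^ 3 +
      4 * (F * derivative a * (H * (X ^ 2 * g ^ 2) - H ^ 2))) =
      b * (c * g ^ 4 * F - (H * (C s * G) ^ 2 - H ^ 2) * derivative F) +
        X ^ 4 * (H * g ^ 4) := by
      rw [hD, hG]
      linear_combination (H * (X * g) ^ 2 - H ^ 2) * hbF
    rw [e1]
    exact dvd_add (Dvd.dvd.mul_left hc b) (Dvd.intro _ rfl)
  rw [X_pow_dvd_iff] at key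
  -- coefficients of `F`
  have F0 : F.coeff 0 = U.coeff 0 ^ 2 + 2 * M.coeff 0 := by
    rw [hF]
    simp only [coeff_add, pow_two, cm0, coeff_X_zero, coeff_C_zero, coeff_ofNat_zero, hG0]
    ring
  have F1 : F.coeff 1 = 2 * (U.coeff 0 * U.coeff 1 + M.coeff 1) := by
    rw [hF]
    simp only [coeff_add, pow_two, cm0, cm1, coeff_X_zero, coeff_C_zero, coeff_X_one,
      coeff_C_succ, coeff_ofNat_zero, coeff_ofNat_succ, hG0]
    ring
  have F2 : F.coeff 2 = U.coeff 1 ^ 2 + r * G.coeff 1 ^ 2 +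
      2 * (U.coeff 0 * U.coeff 2 + M.coeff 2) := by
    rw [hF]
    simp only [coeff_add, pow_two, cm0, cm1, cm2, coeff_X_zero, coeff_C_zero, coeff_X_one,
      coeff_C_succ, coeff_ofNat_zero, coeff_ofNat_succ, coeff_X_of_ne_one, hG0, ne_eq,
      OfNat.ofNat_ne_one, not_false_eq_true]
    ring
  have F3 : F.coeff 3 = G.coeff 1 ^ 2 + 2 * (U.coeff 0 * U.coeff 3 + U.coeff 1 * U.coeff 2 +
      r * G.coeff 1 * G.coeff 2 + M.coeff 3) := by
    rw [hF]
    simp only [coeff_add, pow_two, cm0, cm1, cm2, cm3, coeff_X_zero, coeff_C_zero, coeff_X_one,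
      coeff_C_succ, coeff_ofNat_zero, coeff_ofNat_succ, coeff_X_of_ne_one, hG0, ne_eq,
      OfNat.ofNat_ne_one, not_false_eq_true]
    ring
  -- coefficients of `b`
  have b0 : b.coeff 0 = s ^ 2 + 2 * a.coeff 0 := by
    rw [hb]
    simp only [coeff_add, cm0, coeff_C_zero, coeff_ofNat_zero]
  have bi : ∀ i, b.coeff (i + 1) = 2 * a.coeff (i + 1) := by
    intro i
    rw [hb]
    simp only [coeff_add, coeff_C_succ, c2, zero_add]
  -- coefficients of `HH`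
  obtain ⟨hh, hhh⟩ : ∃ hh, hh = HH r U G M := ⟨_, rfl⟩
  have hh0 : hh.coeff 0 = U.coeff 0 * U.coeff 1 + M.coeff 1 := by
    rw [hhh]
    unfold HH
    simp only [coeff_add, cm0, cd, coeff_X_zero, coeff_C_zero, hG0]
    push_cast
    ring
  have hh1 : hh.coeff 1 = U.coeff 1 ^ 2 + r * G.coeff 1 ^ 2 +
      2 * (U.coeff 0 * U.coeff 2 + M.coeff 2) := by
    rw [hhh]
    unfold HH
    simp only [coeff_add, cm0, cm1, cd, coeff_X_zero, coeff_C_zero, coeff_X_one,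
      coeff_C_succ, hG0]
    push_cast
    ring
  have hh3 : hh.coeff 3 = G.coeff 1 * G.coeff 2 + 2 * (2 * U.coeff 0 * U.coeff 4 +
      2 * U.coeff 1 * U.coeff 3 + U.coeff 2 ^ 2 + G.coeff 1 * G.coeff 2 + r * G.coeff 2 ^ 2 +
      2 * r * G.coeff 1 * G.coeff 3 + 2 * M.coeff 4) := by
    rw [hhh]
    unfold HH
    simp only [coeff_add, cm0, cm1, cm2, cm3, cd, coeff_X_zero, coeff_C_zero, coeff_X_one,
      coeff_C_succ, coeff_X_of_ne_one, hG0, ne_eq,
      OfNat.ofNat_ne_one, not_false_eq_true]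
    push_cast
    ring
  have hHf : H = C (s ^ 2) * hh + a * G ^ 2 + 2 * (a * hh - F * derivative a) := by
    rw [hH, hhh]
    rfl
  have H0 : H.coeff 0 = s ^ 2 * (U.coeff 0 * U.coeff 1 + M.coeff 1) +
      2 * (a.coeff 0 * (U.coeff 0 * U.coeff 1 + M.coeff 1) - F.coeff 0 * a.coeff 1) := by
    rw [hHf]
    simp only [coeff_add, coeff_sub, pow_two, cm0, cd, coeff_C_zero, coeff_ofNat_zero, hG0, hh0]
    push_cast
    ring
  have rH0 : red (H.coeff 0) = red s ^ 2 * (red (U.coeff 0) * red (U.coeff 1) +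
      red (M.coeff 1)) := by
    rw [H0]
    simp only [map_add, map_mul, map_pow, map_ofNat, htwo, zero_mul, add_zero]
  have rH1 : red (H.coeff 1) = red s ^ 2 * (red (U.coeff 1) ^ 2 +
      red r * red (G.coeff 1) ^ 2) := by
    rw [hHf]
    simp only [coeff_add, coeff_C_mul, c2, hh1]
    simp only [pow_two, cm0, cm1, hG0]
    simp only [map_add, map_mul, map_ofNat, htwo, zero_mul, add_zero, mul_zero, map_zero]
  have rH3 : red (H.coeff 3) = red s ^ 2 * (red (G.coeff 1) * red (G.coeff 2)) +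
      red (a.coeff 1) * red (G.coeff 1) ^ 2 := by
    rw [hHf]
    simp only [coeff_add, coeff_C_mul, c2, hh3]
    simp only [pow_two, cm0, cm1, cm2, cm3, hG0]
    simp only [map_add, map_mul, map_ofNat, htwo, zero_mul, add_zero, mul_zero, map_zero, zero_add]
    linear_combination (red (a.coeff 0) * red (G.coeff 1) * red (G.coeff 2)) * htwo
  -- coefficients of `D`
  have FB1 : (F * b).coeff 1 = 2 * (F.coeff 0 * a.coeff 1 + (U.coeff 0 * U.coeff 1 +
      M.coeff 1) * (s ^ 2 + 2 * a.coeff 0)) := by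
    rw [cm1, b0, show b.coeff 1 = 2 * a.coeff 1 from bi 0, F1]
    ring
  have D1 : D.coeff 1 = 2 * (g.coeff 0 ^ 4 * (F.coeff 0 * a.coeff 1 + (U.coeff 0 * U.coeff 1 +
      M.coeff 1) * (s ^ 2 + 2 * a.coeff 0)) + 2 * g.coeff 0 ^ 3 * g.coeff 1 *
        (F.coeff 0 * (s ^ 2 + 2 * a.coeff 0))) := by
    rw [hD, cm1, FB1, cm0 F b, b0]
    simp only [show (4 : ℕ) = 2 * 2 from rfl, pow_mul, pow_two, cm0, cm1]
    ring
  have D0 : D.coeff 0 = g.coeff 0 ^ 4 * (F.coeff 0 * (s ^ 2 + 2 * a.coeff 0)) := by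
    rw [hD, cm0, cm0, b0]
    simp only [show (4 : ℕ) = 2 * 2 from rfl, pow_mul, pow_two, cm0]
  have rg0 : red (g.coeff 0) = red s * red (G.coeff 1) := by
    rw [hg, map_mul]
  have rD0 : red (D.coeff 0) = red s ^ 6 * red (G.coeff 1) ^ 4 * red (U.coeff 0) ^ 2 := by
    rw [D0, F0]
    simp only [map_add, map_mul, map_pow, map_ofNat, htwo, zero_mul, add_zero, rg0]
    ring
  have rD2 : red (D.coeff 2) = red s ^ 6 * red (G.coeff 1) ^ 4 * (red (U.coeff 1) ^ 2 +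
      red r * red (G.coeff 1) ^ 2) := by
    rw [hD]
    simp only [show (4 : ℕ) = 2 * 2 from rfl, pow_mul, pow_two, cm0, cm1, cm2, F1, F2, b0,
      show b.coeff 1 = 2 * a.coeff 1 from bi 0, show b.coeff 2 = 2 * a.coeff 2 from bi 1]
    simp only [map_add, map_mul, map_ofNat, htwo, zero_mul, add_zero, mul_zero, zero_add, rg0]
    ring_nf
    reduce_mod_char!
  have rD3 : red (D.coeff 3) = red s ^ 6 * red (G.coeff 1) ^ 6 := by
    rw [hD]
    simp only [show (4 : ℕ) = 2 * 2 from rfl, pow_mul, pow_two, cm0, cm1, cm2, cm3, F1, F2, F3, b0,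
      show b.coeff 1 = 2 * a.coeff 1 from bi 0, show b.coeff 2 = 2 * a.coeff 2 from bi 1,
      show b.coeff 3 = 2 * a.coeff 3 from bi 2]
    simp only [map_add, map_mul, map_ofNat, htwo, zero_mul, add_zero, mul_zero, zero_add, rg0]
    ring_nf
    reduce_mod_char!
  have hDu : IsUnit (D.coeff 0) := by
    apply hun
    rw [rD0]
    exact mul_ne_zero (mul_ne_zero (pow_ne_zero _ hs) (pow_ne_zero _ hG1)) (pow_ne_zero _ hU)
  obtain ⟨iD, hiD⟩ := hDu.exists_right_inv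
  -- the right hand side
  obtain ⟨T, hT⟩ : ∃ T, T = F * derivative a * (H * (X ^ 2 * g ^ 2) - H ^ 2) := ⟨_, rfl⟩
  rw [← hT] at key
  have hX2 : ∀ i, (H ^ 2 * (X ^ 2 * g ^ 2)).coeff (i + 2) = (H ^ 2 * g ^ 2).coeff i := by
    intro i
    rw [show H ^ 2 * (X ^ 2 * g ^ 2) = (H ^ 2 * g ^ 2) * X ^ 2 by ring, coeff_mul_X_pow]
  have hX20 : (H ^ 2 * (X ^ 2 * g ^ 2)).coeff 0 = 0 := by
    rw [show H ^ 2 * (X ^ 2 * g ^ 2) = (H ^ 2 * g ^ 2) * X ^ 2 by ring, coeff_mul_X_pow']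
    simp
  have hX21 : (H ^ 2 * (X ^ 2 * g ^ 2)).coeff 1 = 0 := by
    rw [show H ^ 2 * (X ^ 2 * g ^ 2) = (H ^ 2 * g ^ 2) * X ^ 2 by ring, coeff_mul_X_pow']
    simp
  have P0 : (H ^ 2 * g ^ 2).coeff 0 = (H.coeff 0 * g.coeff 0) ^ 2 := by
    simp only [pow_two, cm0]
    ring
  have P1 : (H ^ 2 * g ^ 2).coeff 1 = 2 * (H.coeff 0 * H.coeff 1 * g.coeff 0 ^ 2 +
      H.coeff 0 ^ 2 * g.coeff 0 * g.coeff 1) := by
    simp only [pow_two, cm0, cm1]
    ring
  have h30 : (H ^ 3).coeff 0 = H.coeff 0 ^ 3 := by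
    simp only [pow_succ, pow_zero, one_mul, cm0]
  have h31 : (H ^ 3).coeff 1 = 3 * H.coeff 0 ^ 2 * H.coeff 1 := by
    simp only [pow_succ, pow_zero, one_mul, cm0, cm1]
    ring
  have h33 : red ((H ^ 3).coeff 3) = red (H.coeff 0) ^ 2 * red (H.coeff 3) +
      red (H.coeff 1) ^ 3 := by
    simp only [pow_succ, pow_zero, one_mul, cm0, cm1, cm2, cm3]
    simp only [map_add, map_mul]
    ring_nf
    reduce_mod_char!
  have k0 := key 0 (by norm_num)
  have k1 := key 1 (by norm_num)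
  have k2 := key 2 (by norm_num)
  have k3 := key 3 (by norm_num)
  simp only [coeff_sub, coeff_add, c2, c4] at k0 k1 k2 k3
  rw [hX20, h30, cm0] at k0
  rw [hX21, h31, cm1, D1] at k1
  have hX22 : (H ^ 2 * (X ^ 2 * g ^ 2)).coeff 2 = (H ^ 2 * g ^ 2).coeff 0 := hX2 0
  have hX23 : (H ^ 2 * (X ^ 2 * g ^ 2)).coeff 3 = (H ^ 2 * g ^ 2).coeff 1 := hX2 1
  rw [hX22, P0, cm2, D1] at k2
  rw [hX23, P1, cm3, D1] at k3
  obtain ⟨l, hl, hl2⟩ := elim red (D.coeff 0) (D.coeff 2) (D.coeff 3)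
    (g.coeff 0 ^ 4 * (F.coeff 0 * a.coeff 1 + (U.coeff 0 * U.coeff 1 +
      M.coeff 1) * (s ^ 2 + 2 * a.coeff 0)) + 2 * g.coeff 0 ^ 3 * g.coeff 1 *
        (F.coeff 0 * (s ^ 2 + 2 * a.coeff 0))) iD (c.coeff 0) (c.coeff 1)
    (c.coeff 2) (c.coeff 3) (H.coeff 0) (H.coeff 1) ((H ^ 3).coeff 2) ((H ^ 3).coeff 3)
    ((H.coeff 0 * g.coeff 0) ^ 2) (H.coeff 0 * H.coeff 1 * g.coeff 0 ^ 2 +
      H.coeff 0 ^ 2 * g.coeff 0 * g.coeff 1) (T.coeff 0) (T.coeff 1) (T.coeff 2) (T.coeff 3) hiD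
    (by linear_combination k0) (by linear_combination k1) (by linear_combination k2)
    (by linear_combination k3)
  refine ⟨l, hl, ?_⟩
  intro κ W e0 e1 he0 he1 hκ hW
  have riD : red iD = 1 / (red s ^ 6 * red (G.coeff 1) ^ 4 * red (U.coeff 0) ^ 2) := by
    rw [eq_div_iff (mul_ne_zero (mul_ne_zero (pow_ne_zero _ hs) (pow_ne_zero _ hG1))
      (pow_ne_zero _ hU)), ← rD0, mul_comm, ← map_mul, hiD, map_one]
  rw [hl2, riD, rD2, rD3]
  simp only [map_add, map_mul, map_pow, map_ofNat, htwo, zero_mul, add_zero, h33, rH0, rH1, rH3,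
    rg0]
  have rg1 : red (g.coeff 1) = red s * red (G.coeff 2) := by
    rw [hg, map_mul]
  have rF0 : red (F.coeff 0) = red (U.coeff 0) ^ 2 := by
    rw [F0]
    simp only [map_add, map_mul, map_pow, map_ofNat, htwo, zero_mul, add_zero]
  rw [rg1, rF0, hκ, hW, ← he0, ← he1]
  generalize red s = S at *
  generalize red (G.coeff 1) = g1 at *
  generalize red (G.coeff 2) = g2 at *
  generalize red (U.coeff 0) = u0 at *
  generalize red (a.coeff 1) = a1 at *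
  have hfin : (1 / (S ^ 6 * g1 ^ 4 * u0 ^ 2) *
      (S ^ 2 * e0 * (S ^ 2 * e1) * (S * g1) ^ 2 + (S ^ 2 * e0) ^ 2 * (S * g1) * (S * g2) +
        ((S ^ 2 * e0) ^ 2 * (S ^ 2 * (g1 * g2) + a1 * g1 ^ 2) + (S ^ 2 * e1) ^ 3) +
        1 / (S ^ 6 * g1 ^ 4 * u0 ^ 2) * (S ^ 2 * e0 * (S * g1)) ^ 2 *
          ((S * g1) ^ 4 * (u0 ^ 2 * a1 + e0 * S ^ 2)) +
        1 / (S ^ 6 * g1 ^ 4 * u0 ^ 2) * (S ^ 2 * e0) ^ 2 * (S ^ 2 * e1) *
          (S ^ 6 * g1 ^ 4 * e1) +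
        1 / (S ^ 6 * g1 ^ 4 * u0 ^ 2) * (S ^ 2 * e0) ^ 3 * (S ^ 6 * g1 ^ 6))) =
      e0 * e1 / (g1 ^ 2 * u0 ^ 2) + (e0 * e1 / (g1 ^ 2 * u0 ^ 2)) ^ 2 +
        e1 ^ 3 / (g1 ^ 4 * u0 ^ 2) + 2 * (e0 ^ 2 * g2 / (g1 ^ 3 * u0 ^ 2) +
          e0 ^ 2 * a1 / (S ^ 2 * g1 ^ 2 * u0 ^ 2) + e0 ^ 3 / (g1 ^ 2 * u0 ^ 4)) := by
    field_simp
    ring
  rw [htwo, zero_mul, add_zero] at hfin
  rw [← hfin]

end main

end Local

end Pool.Agent.H140.Q
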