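import Mathlib
import Pool.Agent.H140.Q.Local
import Pool.Agent.H985.Chow.RT

/-!
# Algebra for the key formula
-/

set_option autoImplicit false

namespace Pool.Agent.H140.Q

open Polynomial
open Pool.Agent.H985.Chow

namespace Alg

/-- products of numbers `1 + 2 z` modulo eight -/
lemma prod12 {R : Type*} [CommRing R] {ι : Type*} (s : Finset ι) (z : ι → R) :
    ∃ e t : R, (∑ i ∈ s, z i) ^ 2 - ∑ i ∈ s, z i ^ 2 = 2 * e ∧
      ∏ i ∈ s, (1 + 2 * z i) = 1 + 2 * (∑ i ∈ s, z i) + 4 * e + 8 * t := by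
  classical
  induction s using Finset.induction_on with
  | empty => exact ⟨0, 0, by simp, by simp⟩
  | insert a s ha ih =>
    obtain ⟨e, t, h1, h2⟩ := ih
    refine ⟨e + z a * ∑ i ∈ s, z i, t + z a * e + 2 * z a * t, ?_, ?_⟩
    · rw [Finset.sum_insert ha, Finset.sum_insert ha]
      linear_combination h1
    · rw [Finset.prod_insert ha, Finset.sum_insert ha, h2]
      ring

section dom

variable {R : Type} [CommRing R] [IsDomain R]

open RT

lemma sum_eval {N : ℕ} (hN : 1 ≤ N) (v : Fin N → R) (P : R[X]) :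
    lc (∏ j, (X - C (v j))) (P * derivative (∏ j, (X - C (v j)))) = ∑ j, P.eval (v j) := by
  classical
  have hm : (∏ j, (X - C (v j))).Monic := monic_prod_of_monic _ _ fun j _ => monic_X_sub_C _
  have hd : (∏ j, (X - C (v j))).natDegree = N := by
    rw [natDegree_prod_of_monic _ _ fun j _ => monic_X_sub_C _]
    simp
  rw [derivative_prod_finset, Finset.mul_sum, lc_sum]
  refine Finset.sum_congr rfl fun j _ => ?_
  rw [derivative_sub, derivative_X, derivative_C, sub_zero, mul_one]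
  obtain ⟨q, hq⟩ : (X - C (v j)) ∣ P - C (P.eval (v j)) := X_sub_C_dvd_sub_C_eval
  have e1 : P * ∏ i ∈ Finset.univ.erase j, (X - C (v i)) =
      q * (∏ i, (X - C (v i))) + C (P.eval (v j)) * ∏ i ∈ Finset.univ.erase j, (X - C (v i)) := by
    rw [← Finset.mul_prod_erase Finset.univ _ (Finset.mem_univ j)]
    linear_combination (∏ i ∈ Finset.univ.erase j, (X - C (v i))) * hq
  have hm2 : (∏ i ∈ Finset.univ.erase j, (X - C (v i))).Monic :=
    monic_prod_of_monic _ _ fun j _ => monic_X_sub_C _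
  have hd2 : (∏ i ∈ Finset.univ.erase j, (X - C (v i))).natDegree = N - 1 := by
    rw [natDegree_prod_of_monic _ _ fun j _ => monic_X_sub_C _]
    simp
  have hd3 : (C (P.eval (v j)) * ∏ i ∈ Finset.univ.erase j, (X - C (v i))).natDegree <
      (∏ j, (X - C (v j))).natDegree := by
    refine (natDegree_C_mul_le _ _).trans_lt ?_
    rw [hd2, hd]
    omega
  rw [e1, lc_add, lc_dvd hm _ (Dvd.intro_left _ rfl), zero_add, lc_of_deg hm _ hd3, hd,
    coeff_C_mul]
  have h4 : (∏ i ∈ Finset.univ.erase j, (X - C (v i))).coeff (N - 1) = 1 := by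
    rw [← hd2]
    exact hm2
  rw [h4, mul_one]

lemma lc_eq_of_dvd {D N M : R[X]} (hD : D.Monic) (h : D ∣ N - M) : lc D N = lc D M := by
  have h1 := lc_dvd hD _ h
  rw [lc_sub] at h1
  linear_combination h1

lemma cmpTrace {N : ℕ} (hN : 1 ≤ N) (v₁ v₂ : Fin N → R) {F₁ F₂ P₁ P₂ N₁ N₂ : R[X]}
    (h₁ : F₁ = ∏ j, (X - C (v₁ j))) (h₂ : F₂ = ∏ j, (X - C (v₂ j)))
    (hd₁ : F₁ ∣ N₁ - P₁ * derivative F₁) (hd₂ : F₂ ∣ N₂ - P₂ * derivative F₂)
    (hdeg : (N₁ * F₂ - N₂ * F₁).natDegree + 1 < 2 * N) :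
    ∑ j, P₁.eval (v₁ j) = ∑ j, P₂.eval (v₂ j) := by
  have m₁ : F₁.Monic := by
    rw [h₁]
    exact monic_prod_of_monic _ _ fun j _ => monic_X_sub_C _
  have m₂ : F₂.Monic := by
    rw [h₂]
    exact monic_prod_of_monic _ _ fun j _ => monic_X_sub_C _
  have d₁ : F₁.natDegree = N := by
    rw [h₁, natDegree_prod_of_monic _ _ fun j _ => monic_X_sub_C _]
    simp
  have d₂ : F₂.natDegree = N := by
    rw [h₂, natDegree_prod_of_monic _ _ fun j _ => monic_X_sub_C _]
    simp
  have e1 : lc F₁ N₁ = ∑ j, P₁.eval (v₁ j) := by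
    rw [lc_eq_of_dvd m₁ hd₁, h₁, sum_eval hN]
  have e2 : lc F₂ N₂ = ∑ j, P₂.eval (v₂ j) := by
    rw [lc_eq_of_dvd m₂ hd₂, h₂, sum_eval hN]
  rw [← e1, ← e2, ← lc_mul m₁ m₂, ← lc_mul m₂ m₁, mul_comm F₂ F₁, ← sub_eq_zero, ← lc_sub]
  apply lc_small (m₁.mul m₂)
  rw [m₁.natDegree_mul m₂, d₁, d₂]
  omega

end dom

section tay

variable {R : Type*} [CommRing R]

lemma tay_der (r : R) (p : R[X]) : taylor r (derivative p) = derivative (taylor r p) := by
  rw [taylor_apply, taylor_apply, derivative_comp]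
  simp

lemma tay_HH (r : R) (U G M : R[X]) :
    taylor r (Local.HH 0 U G M) = Local.HH r (taylor r U) (taylor r G) (taylor r M) := by
  unfold Local.HH
  rw [C_0, add_zero, map_add, map_add, taylor_mul, taylor_mul, taylor_mul, tay_der, tay_der,
    tay_der, taylor_X]

lemma tay_Hp (r s : R) (a U G M F : R[X]) :
    taylor r (Local.Hp 0 s a U G M F) =
      Local.Hp r s (taylor r a) (taylor r U) (taylor r G) (taylor r M) (taylor r F) := by
  unfold Local.Hp
  have h2 : (2 : R[X]) = C 2 := (map_ofNat C 2).symm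
  rw [h2]
  simp only [map_add, map_sub, taylor_mul, taylor_C, taylor_pow, tay_HH, tay_der]

lemma tay_coeff3 (r : R) {c : R[X]} (hc : c.natDegree < 4) :
    (taylor r c).coeff 3 = c.coeff 3 := by
  rcases Nat.lt_or_ge c.natDegree 3 with h | h
  · rw [coeff_eq_zero_of_natDegree_lt h, coeff_eq_zero_of_natDegree_lt (by rwa [natDegree_taylor])]
  · have h3 : c.natDegree = 3 := by omega
    have := coeff_taylor_natDegree r c
    rw [h3] at this
    rw [this, leadingCoeff, h3]

variable {k : Type*} [Field k] [CharP k 2]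

theorem tloc (red : R →+* k) (hun : ∀ x, red x ≠ 0 → IsUnit x) (r s χ : R)
    (a U G M B c F : R[X])
    (hF : F = U ^ 2 + X * G ^ 2 + 2 * M) (hG : G = C χ * (B * (X - C r))) (hχ : red χ ≠ 0)
    (hs : red s ≠ 0) (hU : red (U.eval r) ≠ 0) (hG1 : red ((derivative G).eval r) ≠ 0)
    (hcd : c.natDegree < 4)
    (hc : (X - C r) ^ 4 ∣ c * B ^ 4 * F -
      (Local.Hp 0 s a U G M F * (C s * G) ^ 2 - (Local.Hp 0 s a U G M F) ^ 2) * derivative F) :
    ∃ l, c.coeff 3 = (s * χ) ^ 4 * (2 * l) ∧ ∀ κ W e0 e1 : k,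
      e0 = red (U.eval r) * red ((derivative U).eval r) + red ((derivative M).eval r) →
      e1 = red ((derivative U).eval r) ^ 2 + red r * red ((derivative G).eval r) ^ 2 →
      κ = e0 * e1 / (red ((derivative G).eval r) ^ 2 * red (U.eval r) ^ 2) →
      W = e1 ^ 3 / (red ((derivative G).eval r) ^ 4 * red (U.eval r) ^ 2) →
      red l = κ + κ ^ 2 + W := by
  have hsχ : IsUnit (s * χ) := by
    apply hun
    rw [map_mul]
    exact mul_ne_zero hs hχ
  obtain ⟨t, ht⟩ := hsχ.exists_right_inv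
  have hX : taylor r (X - C r) = X := by
    rw [map_sub, taylor_X, taylor_C]
    ring
  have h2 : taylor r (2 : R[X]) = 2 := by
    have h2 : (2 : R[X]) = C 2 := (map_ofNat C 2).symm
    rw [h2, taylor_C]
  have hF' : taylor r F = (taylor r U) ^ 2 + (X + C r) * (taylor r G) ^ 2 + 2 * taylor r M := by
    rw [hF]
    simp only [map_add, taylor_mul, taylor_pow, taylor_X, h2]
  have hG' : C s * taylor r G = X * (C (s * χ) * taylor r B) := by
    rw [hG, taylor_mul, taylor_mul, taylor_C, hX, C_mul]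
    ring
  have hc' : X ^ 4 ∣ (C (t ^ 4) * taylor r c) * (C (s * χ) * taylor r B) ^ 4 * taylor r F -
      (Local.Hp r s (taylor r a) (taylor r U) (taylor r G) (taylor r M) (taylor r F) *
        (C s * taylor r G) ^ 2 -
        (Local.Hp r s (taylor r a) (taylor r U) (taylor r G) (taylor r M) (taylor r F)) ^ 2) *
          derivative (taylor r F) := by
    obtain ⟨q, hq⟩ := hc
    have h0 := congrArg (taylor r) hq
    have h1 : X ^ 4 ∣ taylor r c * taylor r B ^ 4 * taylor r F -
        (Local.Hp r s (taylor r a) (taylor r U) (taylor r G) (taylor r M) (taylor r F) *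
        (C s * taylor r G) ^ 2 -
        (Local.Hp r s (taylor r a) (taylor r U) (taylor r G) (taylor r M) (taylor r F)) ^ 2) *
          derivative (taylor r F) := by
      refine ⟨taylor r q, ?_⟩
      rw [map_sub, taylor_mul, taylor_mul, taylor_pow, taylor_mul, map_sub, taylor_mul,
        taylor_pow, taylor_pow, taylor_mul, taylor_C, tay_Hp, tay_der, taylor_mul, taylor_pow,
        hX] at h0
      exact h0
    have e2 : (C (t ^ 4) * taylor r c) * (C (s * χ) * taylor r B) ^ 4 * taylor r F =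
        taylor r c * taylor r B ^ 4 * taylor r F := by
      have e3 : C (t ^ 4) * C (s * χ) ^ 4 = (1 : R[X]) := by
        rw [← C_pow, ← C_mul, ← mul_pow, mul_comm t, ht, one_pow, C_1]
      linear_combination (taylor r c * taylor r B ^ 4 * taylor r F) * e3
    rw [e2]
    exact h1
  obtain ⟨l, hl, hl2⟩ := Local.loc red hun r s (taylor r a) (taylor r U) (taylor r G) (taylor r M)
    (C (s * χ) * taylor r B) (C (t ^ 4) * taylor r c) (taylor r F) hF' hG' hs
    (by rwa [taylor_coeff_zero]) (by rwa [taylor_coeff_one]) hc'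
  refine ⟨l, ?_, ?_⟩
  · rw [coeff_C_mul, tay_coeff3 r hcd] at hl
    have h5 : (s * χ) ^ 4 * t ^ 4 = 1 := by rw [← mul_pow, ht, one_pow]
    linear_combination (s * χ) ^ 4 * hl - c.coeff 3 * h5
  · intro κ W e0 e1 he0 he1 hκ hW
    refine hl2 κ W e0 e1 ?_ ?_ ?_ ?_
    · rw [he0, taylor_coeff_zero, taylor_coeff_one, taylor_coeff_one]
    · rw [he1, taylor_coeff_one, taylor_coeff_one]
    · rw [hκ, taylor_coeff_zero, taylor_coeff_one]
    · rw [hW, taylor_coeff_zero, taylor_coeff_one]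

end tay

end Alg

end Pool.Agent.H140.Q
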