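import Mathlib
import Pool.Agent.H140.Q.Alg
import Pool.Agent.H524.Disc

/-!
# One side of the key formula
-/

set_option autoImplicit false

namespace Pool.Agent.H140.Q

open Polynomial
open Pool.Agent.H985.Chow
open Pool.Agent.H524 (vdm)

/-- the data attached to one polynomial `F = A ^ 2 + s ^ 2 A + Cc` -/
structure Sd {R : Type} [CommRing R] {k : Type} [Field k] (red : R →+* k) (s : R)
    (G Cc : R[X]) (N : ℕ) where
  A : R[X]
  U : R[X]
  M : R[X]
  F : R[X]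
  v : Fin N → R
  hF : F = U ^ 2 + X * G ^ 2 + 2 * M
  hA : F = A ^ 2 + C (s ^ 2) * A + Cc
  hv : F = ∏ j, (X - C (v j))
  hG : ∀ j, red (G.eval (v j)) ≠ 0

namespace Sd

variable {R : Type} [CommRing R] {k : Type} [Field k] [CharP k 2] {red : R →+* k} {s : R}
    {G Cc : R[X]} {N : ℕ} (D : Sd red s G Cc N)

/-- the polynomial `H` -/
noncomputable def H : R[X] := Local.Hp 0 s D.A D.U G D.M D.F

/-- the polynomial `b` -/
noncomputable def b : R[X] := 2 * D.A + C (s ^ 2)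

omit [CharP k 2] in
lemma bF : D.b * derivative D.F = (C s * G) ^ 2 + 2 * D.H + 4 * (D.F * derivative D.A) := by
  have h1 : D.F = D.U ^ 2 + (X + C 0) * G ^ 2 + 2 * D.M := by
    rw [C_0, add_zero]
    exact D.hF
  have h2 := Local.der_F 0 h1
  rw [h2]
  unfold b H Local.Hp
  rw [C_pow]
  ring

omit [CharP k 2] in
lemma F_eval (j : Fin N) : D.F.eval (D.v j) = 0 := by
  rw [D.hv, eval_prod]
  exact Finset.prod_eq_zero (Finset.mem_univ j) (by simp)

omit [CharP k 2] in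
lemma bF_eval (j : Fin N) : D.b.eval (D.v j) * (derivative D.F).eval (D.v j) =
    (s * G.eval (D.v j)) ^ 2 + 2 * D.H.eval (D.v j) := by
  have h := congrArg (eval (D.v j)) D.bF
  simp only [eval_mul, eval_add, eval_pow, eval_C, eval_ofNat, D.F_eval j] at h
  rw [h]
  ring

omit [CharP k 2] in
lemma exists_z (hun : ∀ x, red x ≠ 0 → IsUnit x) (hs : red s ≠ 0) :
    ∃ z : Fin N → R, ∀ j, (s * G.eval (D.v j)) ^ 2 * z j = D.H.eval (D.v j) := by
  have h : ∀ j, ∃ z, (s * G.eval (D.v j)) ^ 2 * z = D.H.eval (D.v j) := by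
    intro j
    have hu : IsUnit ((s * G.eval (D.v j)) ^ 2) := by
      apply hun
      rw [map_pow, map_mul]
      exact pow_ne_zero _ (mul_ne_zero hs (D.hG j))
    obtain ⟨t, ht⟩ := hu.exists_right_inv
    exact ⟨t * D.H.eval (D.v j), by rw [← mul_assoc, ht, one_mul]⟩
  choose z hz using h
  exact ⟨z, hz⟩

omit [CharP k 2] in
/-- the discriminant -/
lemma disc {z : Fin N → R} (hz : ∀ j, (s * G.eval (D.v j)) ^ 2 * z j = D.H.eval (D.v j)) :
    (∏ j, D.b.eval (D.v j)) * ((-1) ^ (N * (N - 1) / 2) * vdm D.v ^ 2) =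
      (∏ j, (s * G.eval (D.v j))) ^ 2 * ∏ j, (1 + 2 * z j) := by
  rw [← Pool.Agent.H524.prod_eval_derivative, ← D.hv, ← Finset.prod_mul_distrib,
    ← Finset.prod_pow, ← Finset.prod_mul_distrib]
  refine Finset.prod_congr rfl fun j _ => ?_
  rw [D.bF_eval j, ← hz j]
  ring

omit [CharP k 2] in
lemma exists_Q (hun : ∀ x, red x ≠ 0 → IsUnit x) (hs : red s ≠ 0) {z : Fin N → R}
    (hz : ∀ j, (s * G.eval (D.v j)) ^ 2 * z j = D.H.eval (D.v j)) :
    ∃ Q : R[X], D.F ∣ Q * (C s * G) ^ 4 - (D.H * (C s * G) ^ 2 - D.H ^ 2) ∧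
      ∀ j, Q.eval (D.v j) = z j - z j ^ 2 := by
  have hu : ∀ j, IsUnit (s * G.eval (D.v j)) := by
    intro j
    apply hun
    rw [map_mul]
    exact mul_ne_zero hs (D.hG j)
  have hcop : IsCoprime D.F ((C s * G) ^ 4) := by
    rw [D.hv]
    apply IsCoprime.pow_right
    apply IsCoprime.prod_left
    intro j _
    apply RT.coprime_X_sub_C
    rw [eval_mul, eval_C]
    exact hu j
  obtain ⟨u, w, huw⟩ := hcop
  have hdv : D.F ∣ (w * (D.H * (C s * G) ^ 2 - D.H ^ 2)) * (C s * G) ^ 4 -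
      (D.H * (C s * G) ^ 2 - D.H ^ 2) :=
    ⟨-u * (D.H * (C s * G) ^ 2 - D.H ^ 2), by
      linear_combination (D.H * (C s * G) ^ 2 - D.H ^ 2) * huw⟩
  refine ⟨w * (D.H * (C s * G) ^ 2 - D.H ^ 2), hdv, fun j => ?_⟩
  obtain ⟨q, hq⟩ := hdv
  have h := congrArg (eval (D.v j)) hq
  simp only [eval_mul, eval_sub, eval_pow, eval_C, D.F_eval j, zero_mul] at h
  have h2 : (s * G.eval (D.v j)) ^ 4 * (eval (D.v j) (w * (D.H * (C s * G) ^ 2 - D.H ^ 2)) -
      (z j - z j ^ 2)) = 0 := by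
    simp only [eval_mul, eval_sub, eval_pow, eval_C]
    rw [← hz j] at h ⊢
    linear_combination h
  have h3 := (((hu j).pow 4).mul_right_eq_zero).1 h2
  exact sub_eq_zero.1 h3

end Sd

end Pool.Agent.H140.Q
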