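import Mathlib
import Pool.Agent.H140.Q.Side

/-!
# Comparison of the products of `b` modulo eight
-/

set_option autoImplicit false

namespace Pool.Agent.H140.Q

open Polynomial
open Pool.Agent.H985.Chow
open Pool.Agent.H524 (vdm)

section deg

variable {R : Type} [CommRing R]

lemma dm {p q : R[X]} {a b c : ℕ} (hp : p.natDegree ≤ a) (hq : q.natDegree ≤ b)
    (h : a + b ≤ c) : (p * q).natDegree ≤ c :=
  natDegree_mul_le.trans ((Nat.add_le_add hp hq).trans h)

lemma da {p q : R[X]} {c : ℕ} (hp : p.natDegree ≤ c) (hq : q.natDegree ≤ c) :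
    (p + q).natDegree ≤ c := (natDegree_add_le _ _).trans (max_le hp hq)

lemma ds {p q : R[X]} {c : ℕ} (hp : p.natDegree ≤ c) (hq : q.natDegree ≤ c) :
    (p - q).natDegree ≤ c := (natDegree_sub_le _ _).trans (max_le hp hq)

lemma dd {p : R[X]} {c : ℕ} (hp : p.natDegree ≤ c) : (derivative p).natDegree ≤ c :=
  (natDegree_derivative_le p).trans ((Nat.sub_le _ _).trans hp)

lemma dC (x : R) {c : ℕ} : (C x : R[X]).natDegree ≤ c := by
  rw [natDegree_C]
  exact Nat.zero_le _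

lemma d2 {c : ℕ} : (2 : R[X]).natDegree ≤ c := by
  have h2 : (2 : R[X]) = C 2 := (map_ofNat C 2).symm
  rw [h2]
  exact dC 2

lemma d4 {c : ℕ} : (4 : R[X]).natDegree ≤ c := by
  have h2 : (4 : R[X]) = C 4 := (map_ofNat C 4).symm
  rw [h2]
  exact dC 4

lemma der_w (w : R[X]) : derivative (w ^ 2) = 2 * (w * derivative w) := by
  rw [derivative_pow]
  simp only [Nat.cast_ofNat, map_ofNat, Nat.add_one_sub_one, pow_one]
  ring

end deg

namespace Sd

variable {R : Type} [CommRing R] [IsDomain R] {k : Type} [Field k] {red : R →+* k} {s : R}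
    {G Cc : R[X]} {N : ℕ}

omit [IsDomain R] in
lemma prodb (D : Sd red s G Cc N) {σ : R} (hσ : s ^ 2 * σ = 1) :
    ∃ t, ∏ j, D.b.eval (D.v j) = (s ^ 2) ^ N * (1 + 4 * (σ * ∑ j, D.A.eval (D.v j)) +
      2 * (σ * ∑ j, D.A.eval (D.v j)) ^ 2 + 2 * (σ ^ 2 * ∑ j, Cc.eval (D.v j)) + 8 * t) := by
  obtain ⟨e, t, h1, h2⟩ := Alg.prod12 Finset.univ (fun j => σ * D.A.eval (D.v j))
  have hb : ∀ j, D.b.eval (D.v j) = s ^ 2 * (1 + 2 * (σ * D.A.eval (D.v j))) := by
    intro j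
    unfold b
    simp only [eval_add, eval_mul, eval_ofNat, eval_C]
    linear_combination (- 2 * D.A.eval (D.v j)) * hσ
  have hq : ∀ j, (σ * D.A.eval (D.v j)) ^ 2 =
      - (σ * D.A.eval (D.v j)) - σ ^ 2 * Cc.eval (D.v j) := by
    intro j
    have h := congrArg (eval (D.v j)) D.hA
    rw [D.F_eval j] at h
    simp only [eval_mul, eval_add, eval_pow, eval_C] at h
    linear_combination (-σ ^ 2) * h - (σ * D.A.eval (D.v j)) * hσ
  have hs : ∑ j, (σ * D.A.eval (D.v j)) ^ 2 =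
      - (σ * ∑ j, D.A.eval (D.v j)) - σ ^ 2 * ∑ j, Cc.eval (D.v j) := by
    rw [Finset.sum_congr rfl fun j _ => hq j, Finset.sum_sub_distrib, Finset.sum_neg_distrib,
      Finset.mul_sum, Finset.mul_sum]
  rw [hs, ← Finset.mul_sum] at h1
  rw [← Finset.mul_sum] at h2
  refine ⟨t, ?_⟩
  rw [Finset.prod_congr rfl fun j _ => hb j, Finset.prod_mul_distrib, Finset.prod_const,
    Finset.card_univ, Fintype.card_fin, h2]
  linear_combination (-2 * (s ^ 2) ^ N) * h1

variable (D₁ D₂ : Sd red s G Cc N)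

omit [IsDomain R] in
lemma F_dif {w : R[X]} (hw : D₂.A = D₁.A + w ^ 2) :
    D₂.F = D₁.F + w ^ 2 * (D₁.A + D₂.A + C (s ^ 2)) := by
  rw [D₂.hA, D₁.hA, hw]
  ring

omit [IsDomain R] in
lemma der_dif {w : R[X]} (hw : D₂.A = D₁.A + w ^ 2) :
    derivative D₂.F = derivative D₁.F + w * (2 * derivative w * (D₁.A + D₂.A + C (s ^ 2)) +
      w * (derivative D₁.A + derivative D₂.A)) := by
  rw [F_dif D₁ D₂ hw, derivative_add, derivative_mul, der_w, derivative_add, derivative_add,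
    derivative_C]
  ring

omit [IsDomain R] in
lemma der_F' (D : Sd red s G Cc N) : derivative D.F =
    2 * (D.A * derivative D.A) + C (s ^ 2) * derivative D.A + derivative Cc := by
  rw [D.hA, derivative_add, derivative_add, der_w, derivative_mul, derivative_C]
  ring

/-- the sums of `A` and `Cc` over the roots agree -/
lemma cmpA {w : R[X]} (hw : D₂.A = D₁.A + w ^ 2) {n d c : ℕ} (hN : N = 2 * n)
    (hA₁ : D₁.A.natDegree ≤ n) (hA₂ : D₂.A.natDegree ≤ n) (hF₁ : D₁.F.natDegree ≤ 2 * n)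
    (hwd : w.natDegree ≤ d) (hc : Cc.natDegree ≤ c) (h3 : 2 * d + 2 * c + 4 ≤ n) :
    ∑ j, D₁.A.eval (D₁.v j) = ∑ j, D₂.A.eval (D₂.v j) ∧
      ∑ j, Cc.eval (D₁.v j) = ∑ j, Cc.eval (D₂.v j) := by
  have hN1 : 1 ≤ N := by omega
  have hSA : (D₁.A + D₂.A + C (s ^ 2)).natDegree ≤ n := da (da hA₁ hA₂) (dC _)
  have hw2 : (w ^ 2).natDegree ≤ 2 * d := by
    rw [pow_two]
    exact dm hwd hwd (by omega)
  have hFd : (w ^ 2 * (D₁.A + D₂.A + C (s ^ 2))).natDegree ≤ 2 * d + n := dm hw2 hSA le_rfl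
  have hFd' : (derivative D₂.F - derivative D₁.F).natDegree ≤ 2 * d + n := by
    rw [der_dif D₁ D₂ hw]
    have e1 : ∀ p q : R[X], p + q - p = q := fun p q => by ring
    rw [e1]
    refine dm hwd (b := d + n) ?_ (by omega)
    exact da (dm (dm d2 (dd hwd) (c := d) (a := 0) (by omega)) hSA le_rfl)
      (dm hwd (da (dd hA₁) (dd hA₂)) le_rfl)
  constructor
  · refine Alg.cmpTrace hN1 D₁.v D₂.v D₁.hv D₂.hv
      (N₁ := D₁.A * derivative D₁.F - 2 * (D₁.F * derivative D₁.A))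
      (N₂ := D₂.A * derivative D₂.F - 2 * (D₂.F * derivative D₂.A))
      ⟨-2 * derivative D₁.A, by ring⟩ ⟨-2 * derivative D₂.A, by ring⟩ ?_
    have key : ∀ D : Sd red s G Cc N, D.A * derivative D.F - 2 * (D.F * derivative D.A) =
        D.A * derivative Cc - C (s ^ 2) * (D.A * derivative D.A) - 2 * (Cc * derivative D.A) := by
      intro D
      rw [der_F' D]
      conv_lhs => rw [D.hA]
      ring
    have hN₁ : (D₁.A * derivative Cc - C (s ^ 2) * (D₁.A * derivative D₁.A) -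
        2 * (Cc * derivative D₁.A)).natDegree ≤ 2 * n := by
      refine ds (ds (dm hA₁ (dd hc) (by omega)) (dm (dC _ (c := 0)) (dm hA₁ (dd hA₁) le_rfl)
        (by omega))) (dm (d2 (c := 0)) (dm hc (dd hA₁) le_rfl) (by omega))
    have hNd : ((D₂.A * derivative Cc - C (s ^ 2) * (D₂.A * derivative D₂.A) -
        2 * (Cc * derivative D₂.A)) - (D₁.A * derivative Cc - C (s ^ 2) * (D₁.A * derivative D₁.A) -
        2 * (Cc * derivative D₁.A))).natDegree ≤ 2 * d + n := by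
      have hdA : derivative D₂.A = derivative D₁.A + 2 * (w * derivative w) := by
        rw [hw, derivative_add, der_w]
      have e1 : (D₂.A * derivative Cc - C (s ^ 2) * (D₂.A * derivative D₂.A) -
        2 * (Cc * derivative D₂.A)) - (D₁.A * derivative Cc - C (s ^ 2) * (D₁.A * derivative D₁.A) -
        2 * (Cc * derivative D₁.A)) = w ^ 2 * derivative Cc -
          C (s ^ 2) * (w ^ 2 * derivative D₁.A + D₂.A * (2 * (w * derivative w))) -
          2 * (Cc * (2 * (w * derivative w))) := by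
        rw [hdA, hw]
        ring
      rw [e1]
      have hww : (2 * (w * derivative w)).natDegree ≤ 2 * d :=
        dm (d2 (c := 0)) (dm hwd (dd hwd) le_rfl) (by omega)
      refine ds (ds (dm hw2 (dd hc) (by omega)) (dm (dC _ (c := 0)) (da
        (dm hw2 (dd hA₁) le_rfl) (dm hA₂ hww (by omega))) (by omega))) ?_
      exact dm (d2 (c := 0)) (dm hc hww le_rfl) (by omega)
    rw [key D₁, key D₂]
    generalize D₁.A * derivative Cc - C (s ^ 2) * (D₁.A * derivative D₁.A) -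
        2 * (Cc * derivative D₁.A) = N₁ at *
    generalize D₂.A * derivative Cc - C (s ^ 2) * (D₂.A * derivative D₂.A) -
        2 * (Cc * derivative D₂.A) = N₂ at *
    have e2 : N₁ * D₂.F - N₂ * D₁.F = N₁ * (w ^ 2 * (D₁.A + D₂.A + C (s ^ 2))) -
        (N₂ - N₁) * D₁.F := by
      rw [F_dif D₁ D₂ hw]
      ring
    rw [e2]
    have e3 : (N₁ * (w ^ 2 * (D₁.A + D₂.A + C (s ^ 2))) -
        (N₂ - N₁) * D₁.F).natDegree ≤ 2 * n + (2 * d + n) :=
      ds (dm hN₁ hFd le_rfl) (dm hNd hF₁ (by omega))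
    omega
  · refine Alg.cmpTrace hN1 D₁.v D₂.v D₁.hv D₂.hv (N₁ := Cc * derivative D₁.F)
      (N₂ := Cc * derivative D₂.F) (by rw [sub_self]; exact dvd_zero _)
      (by rw [sub_self]; exact dvd_zero _) ?_
    have e2 : Cc * derivative D₁.F * D₂.F - Cc * derivative D₂.F * D₁.F =
        Cc * (derivative D₁.F * (w ^ 2 * (D₁.A + D₂.A + C (s ^ 2))) -
          (derivative D₂.F - derivative D₁.F) * D₁.F) := by
      rw [F_dif D₁ D₂ hw]
      ring
    rw [e2]
    have e3 : (Cc * (derivative D₁.F * (w ^ 2 * (D₁.A + D₂.A + C (s ^ 2))) -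
          (derivative D₂.F - derivative D₁.F) * D₁.F)).natDegree ≤ c + (2 * n + (2 * d + n)) :=
      dm hc (ds (dm (dd hF₁) hFd le_rfl) (dm hFd' hF₁ (by omega))) le_rfl
    omega

/-- the products of `b` over the roots agree modulo eight -/
lemma cmpb {w : R[X]} (hw : D₂.A = D₁.A + w ^ 2) {n d c : ℕ} (hN : N = 2 * n)
    (hA₁ : D₁.A.natDegree ≤ n) (hA₂ : D₂.A.natDegree ≤ n) (hF₁ : D₁.F.natDegree ≤ 2 * n)
    (hwd : w.natDegree ≤ d) (hc : Cc.natDegree ≤ c) (h3 : 2 * d + 2 * c + 4 ≤ n)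
    (hs : IsUnit s) :
    ∃ t, ∏ j, D₁.b.eval (D₁.v j) = ∏ j, D₂.b.eval (D₂.v j) + 8 * t := by
  obtain ⟨σ, hσ⟩ := (hs.pow 2).exists_right_inv
  obtain ⟨t₁, h₁⟩ := D₁.prodb hσ
  obtain ⟨t₂, h₂⟩ := D₂.prodb hσ
  obtain ⟨e1, e2⟩ := cmpA D₁ D₂ hw hN hA₁ hA₂ hF₁ hwd hc h3
  refine ⟨(s ^ 2) ^ N * (t₁ - t₂), ?_⟩
  rw [h₁, h₂, e1, e2]
  ring

end Sd

end Pool.Agent.H140.Q
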