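import Mathlib
import Pool.Agent.H140.Q.CmpA

/-!
# The residue theorem for `z - z ^ 2`
-/

set_option autoImplicit false

namespace Pool.Agent.H140.Q

open Polynomial
open Pool.Agent.H985.Chow
open Pool.Agent.H524 (vdm)

namespace Sd

variable {R : Type} [CommRing R] [IsDomain R] {k : Type} [Field k] [CharP k 2] {red : R →+* k}
    {s : R} {G Cc : R[X]} {N : ℕ}

/-- the numerator -/
noncomputable def Nm (D : Sd red s G Cc N) : R[X] :=
  (D.H * (C s * G) ^ 2 - D.H ^ 2) * derivative D.F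

omit [IsDomain R] in
lemma F_red (D : Sd red s G Cc N) {x : R} (hG : red (G.eval x) = 0) :
    red (D.F.eval x) = red (D.U.eval x) ^ 2 := by
  have htwo : (2 : k) = 0 := CharTwo.two_eq_zero
  have h := congrArg (fun p => red (eval x p)) D.hF
  simp only [eval_mul, eval_add, eval_pow, eval_X, eval_ofNat, map_add, map_mul, map_pow,
    map_ofNat, hG, htwo] at h
  rw [h]
  ring

lemma rtSide (D : Sd red s G Cc N) (hN : 1 ≤ N) (hun : ∀ x, red x ≠ 0 → IsUnit x)
    (hs : red s ≠ 0) {m : ℕ}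
    {χ : R} (hχ : red χ ≠ 0) {E : R[X]} {r : Fin m → R}
    (hGE : G = C χ * (E * ∏ i, (X - C (r i)))) (hr : ∀ i j, i ≠ j → red (r i) ≠ red (r j))
    (hE : ∀ i, red (E.eval (r i)) ≠ 0) (hU : ∀ i, red (D.U.eval (r i)) ≠ 0)
    {z : Fin N → R} (hz : ∀ j, (s * G.eval (D.v j)) ^ 2 * z j = D.H.eval (D.v j)) :
    ∃ (P : R[X]) (c : Fin m → R[X]) (l : Fin m → R),
      D.F ∣ D.Nm - P * (E * ∏ i, (X - C (r i))) ^ 4 ∧
      lc D.F P = (s * χ) ^ 4 * ∑ j, (z j - z j ^ 2) ∧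
      (∀ i, (c i).natDegree < 4) ∧
      (∀ i, (X - C (r i)) ^ 4 ∣ c i * (E * ∏ j ∈ Finset.univ.erase i, (X - C (r j))) ^ 4 * D.F -
        D.Nm) ∧
      (∀ i, (c i).coeff 3 = (s * χ) ^ 4 * (2 * l i)) ∧
      (∀ i, ∀ κ W e0 e1 : k,
        e0 = red (D.U.eval (r i)) * red ((derivative D.U).eval (r i)) +
          red ((derivative D.M).eval (r i)) →
        e1 = red ((derivative D.U).eval (r i)) ^ 2 +
          red (r i) * red ((derivative G).eval (r i)) ^ 2 →
        κ = e0 * e1 / (red ((derivative G).eval (r i)) ^ 2 * red (D.U.eval (r i)) ^ 2) →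
        W = e1 ^ 3 / (red ((derivative G).eval (r i)) ^ 4 * red (D.U.eval (r i)) ^ 2) →
        red (l i) = κ + κ ^ 2 + W) ∧
      IsCoprime E D.F ∧ (∀ i, IsUnit (D.F.eval (r i))) := by
  classical
  obtain ⟨Q, hQ1, hQ2⟩ := D.exists_Q hun hs hz
  have hB : ∀ i, G = C χ * ((E * ∏ j ∈ Finset.univ.erase i, (X - C (r j))) * (X - C (r i))) := by
    intro i
    rw [hGE, ← Finset.mul_prod_erase Finset.univ _ (Finset.mem_univ i)]
    ring
  have hGr : ∀ i, G.eval (r i) = 0 := by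
    intro i
    rw [hB i]
    simp
  have hFr : ∀ i, IsUnit (D.F.eval (r i)) := by
    intro i
    apply hun
    rw [D.F_red (by rw [hGr i, map_zero])]
    exact pow_ne_zero 2 (hU i)
  have hBr : ∀ i, red ((E * ∏ j ∈ Finset.univ.erase i, (X - C (r j))).eval (r i)) ≠ 0 := by
    intro i
    rw [eval_mul, eval_prod, map_mul, map_prod]
    refine mul_ne_zero (hE i) (Finset.prod_ne_zero_iff.2 fun j hj => ?_)
    simp only [eval_sub, eval_X, eval_C, map_sub]
    exact sub_ne_zero.2 (hr i j (Finset.ne_of_mem_erase hj).symm)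
  have hmon : ∀ i, ((X - C (r i)) ^ 4 : R[X]).Monic := fun i => (monic_X_sub_C _).pow 4
  have hex : ∀ i, ∃ c : R[X], c.natDegree < 4 ∧ (X - C (r i)) ^ 4 ∣
      c * (E * ∏ j ∈ Finset.univ.erase i, (X - C (r j))) ^ 4 * D.F - D.Nm := by
    intro i
    have h1 : IsCoprime ((X - C (r i)) ^ 4)
        ((E * ∏ j ∈ Finset.univ.erase i, (X - C (r j))) ^ 4 * D.F) := by
      apply IsCoprime.pow_left
      apply IsCoprime.mul_right
      · exact (RT.coprime_X_sub_C _ _ (hun _ (hBr i))).pow_right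
      · exact RT.coprime_X_sub_C _ _ (hFr i)
    obtain ⟨u, w, huw⟩ := h1
    refine ⟨(D.Nm * w) %ₘ (X - C (r i)) ^ 4, ?_, ?_⟩
    · have h2 := natDegree_modByMonic_lt (D.Nm * w) (hmon i) (by
        intro h0
        have h3 := congrArg natDegree h0
        rw [(monic_X_sub_C (r i)).natDegree_pow, natDegree_X_sub_C, natDegree_one] at h3
        omega)
      rwa [(monic_X_sub_C (r i)).natDegree_pow, natDegree_X_sub_C, mul_one] at h2
    · have h2 := modByMonic_add_div (D.Nm * w) ((X - C (r i)) ^ 4)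
      have e1 : (D.Nm * w) %ₘ (X - C (r i)) ^ 4 =
          D.Nm * w - (X - C (r i)) ^ 4 * ((D.Nm * w) /ₘ (X - C (r i)) ^ 4) := by
        linear_combination h2
      rw [e1]
      refine ⟨-(D.Nm * u) - ((D.Nm * w) /ₘ (X - C (r i)) ^ 4) *
        ((E * ∏ j ∈ Finset.univ.erase i, (X - C (r j))) ^ 4 * D.F), ?_⟩
      linear_combination D.Nm * huw
  choose c hc1 hc2 using hex
  have hder : ∀ i, red ((derivative G).eval (r i)) ≠ 0 := by
    intro i
    rw [hB i, derivative_C_mul, derivative_mul, derivative_X_sub_C]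
    simp only [eval_mul, eval_C, eval_add, eval_sub, eval_X, sub_self, mul_zero, mul_one,
      zero_add]
    rw [map_mul]
    refine mul_ne_zero hχ ?_
    have := hBr i
    rwa [eval_mul] at this
  have hF0 : D.F = D.U ^ 2 + X * G ^ 2 + 2 * D.M := D.hF
  choose l hl1 hl2 using fun i => Alg.tloc red hun (r i) s χ D.A D.U G D.M
    (E * ∏ j ∈ Finset.univ.erase i, (X - C (r j))) (c i) D.F hF0 (hB i) hχ hs (hU i) (hder i)
    (hc1 i) (hc2 i)
  refine ⟨C ((s * χ) ^ 4) * Q * derivative D.F, c, l, ?_, ?_, hc1, hc2, hl1, ?_, ?_, hFr⟩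
  · obtain ⟨q, hq⟩ := hQ1
    refine ⟨-q * derivative D.F, ?_⟩
    have e1 : C ((s * χ) ^ 4) * (E * ∏ i, (X - C (r i))) ^ 4 = (C s * G) ^ 4 := by
      rw [hGE, C_pow, C_mul]
      ring
    unfold Nm
    linear_combination (- derivative D.F) * hq - (Q * derivative D.F) * e1
  · have h1 := Alg.sum_eval hN D.v (C ((s * χ) ^ 4) * Q)
    rw [← D.hv] at h1
    rw [h1, Finset.mul_sum]
    refine Finset.sum_congr rfl fun j _ => ?_
    rw [eval_mul, eval_C, hQ2 j]
  · intro i κ W e0 e1 h0 h1 h2 h3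
    exact hl2 i κ W e0 e1 h0 h1 h2 h3
  · rw [D.hv]
    apply IsCoprime.prod_right
    intro j _
    apply IsCoprime.symm
    apply RT.coprime_X_sub_C
    apply hun
    have h1 : ∀ x, red (G.eval x) ≠ 0 → red (E.eval x) ≠ 0 := by
      intro x hx h0
      apply hx
      rw [hGE, eval_mul, eval_mul, map_mul, map_mul, h0]
      ring
    exact h1 _ (D.hG j)

variable (D₁ D₂ : Sd red s G Cc N)

omit [CharP k 2] [IsDomain R] in
lemma twoH (D : Sd red s G Cc N) : 2 * D.H = (C s ^ 4 - 4 * Cc) * derivative D.A +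
    (2 * D.A + C s ^ 2) * derivative Cc - (C s * G) ^ 2 := by
  have h := D.bF
  have h1 := der_F' D
  have h2 : D.b = 2 * D.A + C (s ^ 2) := rfl
  rw [h1, h2] at h
  have h3 := D.hA
  rw [C_pow] at h h3
  linear_combination -h - 4 * (derivative D.A) * h3

omit [CharP k 2] in
lemma H_dif (h20 : (2 : R) ≠ 0) {w : R[X]} (hw : D₂.A = D₁.A + w ^ 2) :
    D₂.H = D₁.H + w * ((C s ^ 4 - 4 * Cc) * derivative w + w * derivative Cc) := by
  have h1 := twoH D₁
  have h2 := twoH D₂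
  have h2' : (2 : R[X]) ≠ 0 := by
    have e : (2 : R[X]) = C 2 := (map_ofNat C 2).symm
    rw [e]
    exact C_ne_zero.2 h20
  apply mul_left_cancel₀ h2'
  rw [mul_add, h1, h2, hw, derivative_add, der_w]
  ring

omit [CharP k 2] in
lemma cross (h20 : (2 : R) ≠ 0) {w : R[X]} (hw : D₂.A = D₁.A + w ^ 2) :
    D₁.Nm * D₂.F - D₂.Nm * D₁.F =
      D₁.Nm * (w * (w * (D₁.A + D₂.A + C (s ^ 2)))) -
      (w * ((C s ^ 4 - 4 * Cc) * derivative w + w * derivative Cc) *
        ((C s * G) ^ 2 - D₁.H - D₂.H) * derivative D₂.F +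
      (D₁.H * (C s * G) ^ 2 - D₁.H ^ 2) *
        (w * (2 * derivative w * (D₁.A + D₂.A + C (s ^ 2)) +
          w * (derivative D₁.A + derivative D₂.A)))) * D₁.F := by
  have h1 := H_dif D₁ D₂ h20 hw
  have h2 := F_dif D₁ D₂ hw
  have h3 := der_dif D₁ D₂ hw
  obtain ⟨y, hy⟩ : ∃ y, y = w * ((C s ^ 4 - 4 * Cc) * derivative w + w * derivative Cc) :=
    ⟨_, rfl⟩
  obtain ⟨y2, hy2⟩ : ∃ y, y = w * (2 * derivative w * (D₁.A + D₂.A + C (s ^ 2)) +
          w * (derivative D₁.A + derivative D₂.A)) := ⟨_, rfl⟩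
  rw [← hy] at h1 ⊢
  rw [← hy2] at h3 ⊢
  unfold Nm
  generalize derivative D₂.F = F2' at *
  generalize derivative D₁.F = F1' at *
  linear_combination ((D₁.H * (C s * G) ^ 2 - D₁.H ^ 2) * F1') * h2 -
    (D₁.F * F2' * ((C s * G) ^ 2 - D₁.H - D₂.H)) * h1 -
    (D₁.F * (D₁.H * (C s * G) ^ 2 - D₁.H ^ 2)) * h3

end Sd

end Pool.Agent.H140.Q
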