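import Mathlib
import Pool.Agent.H140.Q.CmpZ

/-!
# The comparison of the two sides
-/

set_option autoImplicit false

namespace Pool.Agent.H140.Q

open Polynomial
open Pool.Agent.H985.Chow
open Pool.Agent.H524 (vdm)

namespace Sd

variable {R : Type} [CommRing R] [IsDomain R] {k : Type} [Field k] [CharP k 2] {red : R →+* k}
    {s : R} {G Cc : R[X]} {N : ℕ}

omit [CharP k 2] [IsDomain R] in
lemma F_monic (D : Sd red s G Cc N) : D.F.Monic := by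
  rw [D.hv]
  exact monic_prod_of_monic _ _ fun j _ => monic_X_sub_C _

omit [CharP k 2] in
lemma F_deg (D : Sd red s G Cc N) : D.F.natDegree = N := by
  rw [D.hv, natDegree_prod_of_monic _ _ fun j _ => monic_X_sub_C _]
  simp

omit [CharP k 2] in
lemma H_deg (D : Sd red s G Cc N) (h20 : (2 : R) ≠ 0) {n c g : ℕ} (hA : D.A.natDegree ≤ n)
    (hc : Cc.natDegree ≤ c) (hG : G.natDegree ≤ g) (hg : 2 * g ≤ n + c) :
    D.H.natDegree ≤ n + c := by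
  have e : (2 : R[X]) * D.H = C 2 * D.H := by rw [map_ofNat]
  have h1 : (2 * D.H).natDegree = D.H.natDegree := by rw [e, natDegree_C_mul h20]
  rw [← h1, twoH D, ← C_pow, ← C_pow]
  refine ds (da (dm (a := c) (ds (dC _) (dm (d4 (c := 0)) hc (by omega))) (dd hA) (by omega))
    (dm (a := n) (da (dm (d2 (c := 0)) hA (by omega)) (dC _)) (dd hc) le_rfl)) ?_
  rw [pow_two]
  have h2 : (C s * G).natDegree ≤ g := dm (dC _ (c := 0)) hG (by omega)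
  exact dm h2 h2 (by omega)

variable (D₁ D₂ : Sd red s G Cc N)

omit [CharP k 2] in
lemma cross_deg (h20 : (2 : R) ≠ 0) {w : R[X]} (hw : D₂.A = D₁.A + w ^ 2) {n d c g : ℕ}
    (hN : N = 2 * n)
    (hA₁ : D₁.A.natDegree ≤ n) (hA₂ : D₂.A.natDegree ≤ n)
    (hwd : w.natDegree ≤ d) (hc : Cc.natDegree ≤ c) (hG : G.natDegree ≤ g) (hg : 2 * g ≤ n + c) :
    (D₁.Nm * D₂.F - D₂.Nm * D₁.F).natDegree ≤ 5 * n + 2 * c + 2 * d := by
  have hF₁ : D₁.F.natDegree ≤ 2 * n := by rw [D₁.F_deg, hN]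
  have hF₂ : D₂.F.natDegree ≤ 2 * n := by rw [D₂.F_deg, hN]
  have hH₁ := H_deg D₁ h20 hA₁ hc hG hg
  have hH₂ := H_deg D₂ h20 hA₂ hc hG hg
  have hG2 : ((C s * G) ^ 2).natDegree ≤ n + c := by
    rw [pow_two]
    have h2 : (C s * G).natDegree ≤ g := dm (dC _ (c := 0)) hG (by omega)
    exact dm h2 h2 (by omega)
  have hSA : (D₁.A + D₂.A + C (s ^ 2)).natDegree ≤ n := da (da hA₁ hA₂) (dC _)
  have hHG : (D₁.H * (C s * G) ^ 2 - D₁.H ^ 2).natDegree ≤ 2 * n + 2 * c := by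
    refine ds (dm hH₁ hG2 (by omega)) ?_
    rw [pow_two]
    exact dm hH₁ hH₁ (by omega)
  have hN₁ : D₁.Nm.natDegree ≤ 4 * n + 2 * c := dm hHG (dd hF₁) (by omega)
  have hw1 : (w * ((C s ^ 4 - 4 * Cc) * derivative w + w * derivative Cc)).natDegree ≤
      2 * d + c := by
    refine dm hwd (b := c + d) ?_ (by omega)
    rw [← C_pow]
    exact da (dm (a := c) (ds (dC _) (dm (d4 (c := 0)) hc (by omega))) (dd hwd) le_rfl)
      (dm hwd (dd hc) (by omega))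
  have hw2 : (w * (2 * derivative w * (D₁.A + D₂.A + C (s ^ 2)) +
          w * (derivative D₁.A + derivative D₂.A))).natDegree ≤ 2 * d + n := by
    refine dm hwd (b := d + n) ?_ (by omega)
    exact da (dm (dm d2 (dd hwd) (c := d) (a := 0) (by omega)) hSA le_rfl)
      (dm hwd (da (dd hA₁) (dd hA₂)) le_rfl)
  rw [cross D₁ D₂ h20 hw]
  refine ds (dm hN₁ (b := 2 * d + n) (dm hwd (b := d + n) (dm hwd hSA le_rfl) (by omega))
    (by omega)) ?_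
  refine dm (a := 3 * n + 2 * c + 2 * d) ?_ hF₁ (by omega)
  refine da (dm (a := 2 * d + c + (n + c)) (dm hw1 (ds (ds hG2 hH₁) hH₂) le_rfl) (dd hF₂)
    (by omega)) (dm hHG hw2 (by omega))

omit [CharP k 2] in
lemma cross_dvd (h20 : (2 : R) ≠ 0) {w : R[X]} (hw : D₂.A = D₁.A + w ^ 2) :
    w ∣ D₁.Nm * D₂.F - D₂.Nm * D₁.F := by
  rw [cross D₁ D₂ h20 hw]
  refine dvd_sub (Dvd.dvd.mul_left (Dvd.intro _ rfl) _) (Dvd.dvd.mul_right ?_ _)
  refine dvd_add (Dvd.dvd.mul_right (Dvd.dvd.mul_right (Dvd.intro _ rfl) _) _)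
    (Dvd.dvd.mul_left (Dvd.intro _ rfl) _)

/-- the local conclusion -/
def Loc (D : Sd red s G Cc N) (r l : R) : Prop := ∀ κ W e0 e1 : k,
        e0 = red (D.U.eval r) * red ((derivative D.U).eval r) +
          red ((derivative D.M).eval r) →
        e1 = red ((derivative D.U).eval r) ^ 2 +
          red r * red ((derivative G).eval r) ^ 2 →
        κ = e0 * e1 / (red ((derivative G).eval r) ^ 2 * red (D.U.eval r) ^ 2) →
        W = e1 ^ 3 / (red ((derivative G).eval r) ^ 4 * red (D.U.eval r) ^ 2) →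
        red l = κ + κ ^ 2 + W

theorem cmpZ (hun : ∀ x, red x ≠ 0 → IsUnit x) (h20 : (2 : R) ≠ 0) (hs : red s ≠ 0) {m : ℕ}
    {χ : R} (hχ : red χ ≠ 0) {E : R[X]} {r : Fin m → R} (hEm : E.Monic)
    (hGE : G = C χ * (E * ∏ i, (X - C (r i)))) (hr : ∀ i j, i ≠ j → red (r i) ≠ red (r j))
    (hE : ∀ i, red (E.eval (r i)) ≠ 0) (hU₁ : ∀ i, red (D₁.U.eval (r i)) ≠ 0)
    (hU₂ : ∀ i, red (D₂.U.eval (r i)) ≠ 0)
    {w : R[X]} (hw : D₂.A = D₁.A + w ^ 2) (hEw : E ^ 5 ∣ w) {n d c : ℕ} (hn : 1 ≤ n)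
    (hN : N = 2 * n)
    (hA₁ : D₁.A.natDegree ≤ n) (hA₂ : D₂.A.natDegree ≤ n)
    (hwd : w.natDegree ≤ d) (hc : Cc.natDegree ≤ c)
    (h1 : n + 2 * d + 2 * c + 2 ≤ 4 * (E.natDegree + m))
    (h2 : 2 * (E.natDegree + m) ≤ n + c)
    {z₁ z₂ : Fin N → R} (hz₁ : ∀ j, (s * G.eval (D₁.v j)) ^ 2 * z₁ j = D₁.H.eval (D₁.v j))
    (hz₂ : ∀ j, (s * G.eval (D₂.v j)) ^ 2 * z₂ j = D₂.H.eval (D₂.v j)) :
    ∃ l₁ l₂ : Fin m → R, (∀ i, D₁.Loc (r i) (l₁ i)) ∧ (∀ i, D₂.Loc (r i) (l₂ i)) ∧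
      ∑ j, (z₁ j - z₁ j ^ 2) + 2 * ∑ i, (l₁ i - l₂ i) = ∑ j, (z₂ j - z₂ j ^ 2) := by
  classical
  have hN1 : 1 ≤ N := by omega
  obtain ⟨P₁, c₁, l₁, a1, a2, a3, a4, a5, a6, a7, a8⟩ :=
    rtSide D₁ hN1 hun hs hχ hGE hr hE hU₁ hz₁
  obtain ⟨P₂, c₂, l₂, b1, b2, b3, b4, b5, b6, b7, b8⟩ :=
    rtSide D₂ hN1 hun hs hχ hGE hr hE hU₂ hz₂
  have hpm : (∏ i, (X - C (r i))).Monic := monic_prod_of_monic _ _ fun i _ => monic_X_sub_C _
  have hpd : (∏ i, (X - C (r i))).natDegree = m := by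
    rw [natDegree_prod_of_monic _ _ fun i _ => monic_X_sub_C _]
    simp
  have hEPd : (E * ∏ i, (X - C (r i))).natDegree = E.natDegree + m := by
    rw [hEm.natDegree_mul hpm, hpd]
  have hGd : G.natDegree ≤ E.natDegree + m := by
    rw [hGE]
    exact dm (dC _ (c := 0)) hEPd.le (by omega)
  have hcd := cross_deg D₁ D₂ h20 hw hN hA₁ hA₂ hwd hc hGd h2
  have hdeg : ((E * ∏ i, (X - C (r i))) ^ 4 * D₁.F * D₂.F).natDegree =
      4 * (E.natDegree + m) + N + N := by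
    have hB := hEm.mul hpm
    rw [((hB.pow 4).mul D₁.F_monic).natDegree_mul D₂.F_monic,
      (hB.pow 4).natDegree_mul D₁.F_monic, hB.natDegree_pow, hEPd, D₁.F_deg, D₂.F_deg]
  have key := rt R 4 (by norm_num) (Fin m) r E D₁.F D₂.F D₁.Nm D₂.Nm P₁ P₂ c₁ c₂ hEm
    D₁.F_monic D₂.F_monic
    (fun i j hij => hun _ (by rw [map_sub]; exact sub_ne_zero.2 (hr i j hij)))
    (fun i => hun _ (hE i)) a7 b7 a8 b8 (by rw [D₁.F_deg]; omega) (by rw [D₂.F_deg]; omega)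
    a1 b1 (((pow_dvd_pow E (by norm_num : 4 ≤ 5)).trans hEw).trans (cross_dvd D₁ D₂ h20 hw))
    (by rw [hdeg]; omega) a3 b3 a4 b4
  refine ⟨l₁, l₂, a6, b6, ?_⟩
  rw [a2, b2] at key
  have e1 : ∑ i, ((c₁ i).coeff (4 - 1) - (c₂ i).coeff (4 - 1)) =
      (s * χ) ^ 4 * (2 * ∑ i, (l₁ i - l₂ i)) := by
    rw [Finset.mul_sum, Finset.mul_sum]
    refine Finset.sum_congr rfl fun i _ => ?_
    rw [show 4 - 1 = 3 from rfl, a5 i, b5 i]
    ring
  rw [e1] at key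
  have hu : IsUnit ((s * χ) ^ 4) := by
    apply hun
    rw [map_pow, map_mul]
    exact pow_ne_zero _ (mul_ne_zero hs hχ)
  apply hu.mul_left_cancel
  linear_combination key

end Sd

end Pool.Agent.H140.Q
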