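import Mathlib
import Pool.Agent.H140.Q.CmpR

/-!
# The comparison of the two sides modulo eight
-/

set_option autoImplicit false

namespace Pool.Agent.H140.Q

open Polynomial
open Pool.Agent.H985.Chow
open Pool.Agent.H524 (vdm)

lemma eight {R : Type} [CommRing R] [IsDomain R] {k : Type} [Field k] [CharP k 2]
    (red : R →+* k) (hker : ∀ x, red x = 0 → ∃ y, x = 2 * y) (h20 : (2 : R) ≠ 0)
    {sg V₁ V₂ T₁ T₂ B₁ B₂ P₁ P₂ t Z₁ Z₂ S₁ S₂ e₁ e₂ t₁ t₂ L : R} (hsg : sg * sg = 1)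
    (hB₁u : IsUnit B₁) (hr : IsUnit (V₂ * T₁))
    (h₁ : B₁ * (sg * V₁ ^ 2) = T₁ ^ 2 * P₁) (h₂ : B₂ * (sg * V₂ ^ 2) = T₂ ^ 2 * P₂)
    (hB : B₁ = B₂ + 8 * t) (he₁ : Z₁ ^ 2 - S₁ = 2 * e₁) (he₂ : Z₂ ^ 2 - S₂ = 2 * e₂)
    (hP₁ : P₁ = 1 + 2 * Z₁ + 4 * e₁ + 8 * t₁) (hP₂ : P₂ = 1 + 2 * Z₂ + 4 * e₂ + 8 * t₂)
    (hL : (Z₁ - S₁) + 2 * L = Z₂ - S₂) :
    ∃ N₁ q, (V₁ * T₂) ^ 2 * P₂ = (V₂ * T₁) ^ 2 * N₁ ∧ N₁ - P₂ - 4 * (-L) = 8 * q := by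
  have htwo : (2 : k) = 0 := CharTwo.two_eq_zero
  obtain ⟨b, hb⟩ := hB₁u.exists_right_inv
  have hN : (V₁ * T₂) ^ 2 * P₂ = (V₂ * T₁) ^ 2 * (B₂ * b * P₁) := by
    apply hB₁u.mul_left_cancel
    linear_combination (sg * T₂ ^ 2 * P₂) * h₁ - (sg * T₁ ^ 2 * P₁) * h₂ +
      (- B₁ * V₁ ^ 2 * T₂ ^ 2 * P₂ + B₂ * V₂ ^ 2 * T₁ ^ 2 * P₁) * hsg -
      (V₂ ^ 2 * T₁ ^ 2 * B₂ * P₁) * hb
  have hN1 : B₂ * b * P₁ = P₁ - 8 * (t * b * P₁) := by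
    linear_combination P₁ * hb - (b * P₁) * hB
  obtain ⟨p, hp⟩ : ∃ p, p = V₁ * T₂ := ⟨_, rfl⟩
  obtain ⟨r, hrr⟩ : ∃ r, r = V₂ * T₁ := ⟨_, rfl⟩
  rw [← hp, ← hrr] at hN
  rw [← hrr] at hr
  -- `p ≡ r`
  have hpr : red (p - r) = 0 := by
    have e1 := congrArg red hN
    rw [hN1, hP₁, hP₂] at e1
    simp only [map_mul, map_add, map_pow, map_sub, map_one, map_ofNat] at e1
    have h4 : (4 : k) = 0 := by linear_combination 2 * htwo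
    have h8 : (8 : k) = 0 := by linear_combination 4 * htwo
    rw [htwo, h4, h8] at e1
    have e2 : (red p - red r) ^ 2 = 0 := by
      linear_combination e1 + (red r ^ 2 - red p * red r) * htwo
    rw [map_sub]
    exact pow_eq_zero_iff (two_ne_zero) |>.mp e2
  obtain ⟨y, hy⟩ := hker _ hpr
  have hp2 : p = r + 2 * y := by linear_combination hy
  obtain ⟨ri, hri⟩ := (hr.pow 2).exists_right_inv
  -- `Z₁ ≡ Z₂`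
  have hZ : ∃ m, Z₁ = Z₂ + 2 * m := by
    have e1 : 2 * (Z₁ - Z₂) = 2 * (2 * (e₂ - e₁ + 2 * (t₂ - t₁) + 2 * (t * b * P₁) +
        ri * (r * y + y ^ 2) * P₂)) := by
      rw [hp2, hN1] at hN
      have e3 : r ^ 2 * (P₁ - 8 * (t * b * P₁) - P₂) = 4 * (r * y + y ^ 2) * P₂ := by
        linear_combination -hN
      have e4 : P₁ - 8 * (t * b * P₁) - P₂ = 4 * (ri * (r * y + y ^ 2) * P₂) := by
        linear_combination ri * e3 - (P₁ - 8 * (t * b * P₁) - P₂) * hri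
      linear_combination e4 - hP₁ + hP₂
    exact ⟨e₂ - e₁ + 2 * (t₂ - t₁) + 2 * (t * b * P₁) + ri * (r * y + y ^ 2) * P₂, by
      linear_combination mul_left_cancel₀ h20 e1⟩
  obtain ⟨m, hm⟩ := hZ
  refine ⟨B₂ * b * P₁, t₁ - t₂ - t * b * P₁ + m * Z₂ + m ^ 2, ?_, ?_⟩
  · rw [← hp, ← hrr]
    exact hN
  · rw [hN1, hP₁, hP₂]
    have e1 : Z₁ ^ 2 - Z₂ ^ 2 = 4 * (m * Z₂ + m ^ 2) := by
      rw [hm]
      ring
    linear_combination 2 * hL - 2 * he₁ + 2 * he₂ + 2 * e1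

namespace Sd

variable {R : Type} [CommRing R] [IsDomain R] {k : Type} [Field k] [CharP k 2] {red : R →+* k}
    {s : R} {G Cc : R[X]} {N : ℕ}

variable (D₁ D₂ : Sd red s G Cc N)

theorem keyR (hun : ∀ x, red x ≠ 0 → IsUnit x) (hker : ∀ x, red x = 0 → ∃ y, x = 2 * y)
    (h20 : (2 : R) ≠ 0) (hs : red s ≠ 0) {m : ℕ}
    {χ : R} (hχ : red χ ≠ 0) {E : R[X]} {r : Fin m → R} (hEm : E.Monic)
    (hGE : G = C χ * (E * ∏ i, (X - C (r i)))) (hr : ∀ i j, i ≠ j → red (r i) ≠ red (r j))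
    (hE : ∀ i, red (E.eval (r i)) ≠ 0) (hU₁ : ∀ i, red (D₁.U.eval (r i)) ≠ 0)
    (hU₂ : ∀ i, red (D₂.U.eval (r i)) ≠ 0)
    {w : R[X]} (hw : D₂.A = D₁.A + w ^ 2) (hEw : E ^ 5 ∣ w) {n d c : ℕ} (hn : 1 ≤ n)
    (hN : N = 2 * n)
    (hA₁ : D₁.A.natDegree ≤ n) (hA₂ : D₂.A.natDegree ≤ n)
    (hwd : w.natDegree ≤ d) (hc : Cc.natDegree ≤ c)
    (h1 : n + 2 * d + 2 * c + 2 ≤ 4 * (E.natDegree + m))
    (h2 : 2 * (E.natDegree + m) ≤ n + c) (h3 : 2 * d + 2 * c + 4 ≤ n)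
    (hv₂ : red (vdm D₂.v) ≠ 0) :
    ∃ (l₁ l₂ : Fin m → R) (N₁ N₂ q : R), (∀ i, D₁.Loc (r i) (l₁ i)) ∧
      (∀ i, D₂.Loc (r i) (l₂ i)) ∧
      (vdm D₁.v * ∏ j, (s * G.eval (D₂.v j))) ^ 2 * N₂ =
        (vdm D₂.v * ∏ j, (s * G.eval (D₁.v j))) ^ 2 * N₁ ∧ red N₂ = 1 ∧
      N₁ - N₂ - 4 * (-(∑ i, (l₁ i - l₂ i))) = 8 * q := by
  have htwo : (2 : k) = 0 := CharTwo.two_eq_zero
  obtain ⟨z₁, hz₁⟩ := D₁.exists_z hun hs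
  obtain ⟨z₂, hz₂⟩ := D₂.exists_z hun hs
  obtain ⟨l₁, l₂, L1, L2, hL⟩ := cmpZ D₁ D₂ hun h20 hs hχ hEm hGE hr hE hU₁ hU₂ hw hEw hn hN hA₁
    hA₂ hwd hc h1 h2 hz₁ hz₂
  have hd₁ := D₁.disc hz₁
  have hd₂ := D₂.disc hz₂
  obtain ⟨t, ht⟩ := cmpb D₁ D₂ hw hN hA₁ hA₂ (by rw [D₁.F_deg, hN]) hwd hc h3 (hun s hs)
  obtain ⟨e₁, t₁, he₁, hp₁⟩ := Alg.prod12 Finset.univ z₁
  obtain ⟨e₂, t₂, he₂, hp₂⟩ := Alg.prod12 Finset.univ z₂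
  have hsg : ((-1 : R) ^ (N * (N - 1) / 2)) * (-1) ^ (N * (N - 1) / 2) = 1 := by
    rw [← mul_pow]
    norm_num
  have hT : ∀ D : Sd red s G Cc N, red (∏ j, (s * G.eval (D.v j))) ≠ 0 := by
    intro D
    rw [map_prod, Finset.prod_ne_zero_iff]
    intro j _
    rw [map_mul]
    exact mul_ne_zero hs (D.hG j)
  have hBu : IsUnit (∏ j, D₁.b.eval (D₁.v j)) := by
    apply hun
    rw [map_prod, Finset.prod_ne_zero_iff]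
    intro j _
    have e1 : D₁.b.eval (D₁.v j) = 2 * D₁.A.eval (D₁.v j) + s ^ 2 := by
      unfold b
      simp only [eval_add, eval_mul, eval_ofNat, eval_C]
    rw [e1, map_add, map_mul, map_ofNat, htwo, zero_mul, zero_add, map_pow]
    exact pow_ne_zero 2 hs
  obtain ⟨N₁, q, hq1, hq2⟩ := eight red hker h20 hsg hBu
    (hun _ (by rw [map_mul]; exact mul_ne_zero hv₂ (hT D₁))) hd₁ hd₂ ht he₁ he₂ hp₁ hp₂
    (L := ∑ i, (l₁ i - l₂ i)) (by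
      rw [← Finset.sum_sub_distrib, ← Finset.sum_sub_distrib]
      exact hL)
  refine ⟨l₁, l₂, N₁, ∏ j, (1 + 2 * z₂ j), q, L1, L2, hq1, ?_, hq2⟩
  rw [map_prod]
  apply Finset.prod_eq_one
  intro j _
  rw [map_add, map_mul, map_ofNat, htwo, zero_mul, add_zero, map_one]

end Sd

end Pool.Agent.H140.Q
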