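import Mathlib
import Pool.Agent.H140.Q.KeyR
import Pool.Agent.H140.Q.Stm
import Pool.Agent.H985.Chow.KeyM
import Pool.Agent.H985.Chow.Sgn

/-!
# One side over the Witt vectors
-/

set_option autoImplicit false

namespace Pool.Agent.H140.Q

open Polynomial
open Pool.Agent.H985.Chow
open Pool.Agent.H524 (red emb frobLift AC vdm two_dvd_iff isUnit_iff_red two_ne_zero_witt
  red_frobLift frobLift_emb red_emb)

section witt

variable {K : Type} [Field K] [Fintype K] [CharP K 2]

lemma exists_half (P : (WittVector 2 K)[X]) (h : P.map (red K) = 0) :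
    ∃ M : (WittVector 2 K)[X], P = 2 * M := by
  have e : (2 : (WittVector 2 K)[X]) = C 2 := (map_ofNat C 2).symm
  rw [e]
  have h1 : C (2 : WittVector 2 K) ∣ P := by
    rw [C_dvd_iff_dvd_coeff]
    intro i
    rw [two_dvd_iff]
    have := congrArg (fun p => p.coeff i) h
    simpa [coeff_map] using this
  exact h1

lemma emap (P : (WittVector 2 K)[X]) (x : WittVector 2 (AC K)) :
    red (AC K) ((P.map (emb K)).eval x) = aeval (red (AC K) x) (P.map (red K)) := by
  rw [red_map_eval, eval_map_algebraMap]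

/-- one side -/
lemma sideW (θt : WittVector 2 K) (A Ct Gt U F : (WittVector 2 K)[X]) {N : ℕ}
    (hF : F = A ^ 2 + C (θt ^ 2) * A + Ct) (hFm : F.Monic) (hFd : F.natDegree = N)
    (hr : F.map (red K) = (U.map (red K)) ^ 2 + X * (Gt.map (red K)) ^ 2)
    (hco : IsCoprime (U.map (red K)) (Gt.map (red K))) (hθ : red K θt ≠ 0) :
    ∃ (M : (WittVector 2 K)[X])
      (D : Sd (red (AC K)) (emb K θt) (Gt.map (emb K)) (Ct.map (emb K)) N),
      D.A = A.map (emb K) ∧ D.U = U.map (emb K) ∧ D.M = M.map (emb K) ∧ D.F = F.map (emb K) ∧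
      frobLift K (vdm D.v) = (((-1) ^ N * mob (F.map (red K)) : ℤ) : WittVector 2 (AC K)) *
        vdm D.v ∧
      red (AC K) (vdm D.v) ≠ 0 ∧
      frobLift K (∏ j, (emb K θt * (Gt.map (emb K)).eval (D.v j))) =
        ∏ j, (emb K θt * (Gt.map (emb K)).eval (D.v j)) ∧
      red (AC K) (∏ j, (emb K θt * (Gt.map (emb K)).eval (D.v j))) ≠ 0 := by
  classical
  have hsq : Squarefree (F.map (red K)) := by
    rw [hr]
    exact squarefree_f _ _ hco
  obtain ⟨v, hv, hvinj, hvperm, hvσ⟩ := sgn K N F hFm hFd hsq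
  obtain ⟨M, hM⟩ := exists_half (F - U ^ 2 - X * Gt ^ 2) (by
    rw [Polynomial.map_sub, Polynomial.map_sub, hr, Polynomial.map_pow, Polynomial.map_mul,
      Polynomial.map_pow, map_X]
    ring)
  have hroot : ∀ j, (F.map (emb K)).eval (v j) = 0 := by
    intro j
    rw [hv, eval_prod]
    exact Finset.prod_eq_zero (Finset.mem_univ j) (by simp)
  have hcop' : IsCoprime (F.map (red K)) (Gt.map (red K)) := by
    rw [hr]; exact isCoprime_f _ _ hco
  have hG : ∀ j, red (AC K) ((Gt.map (emb K)).eval (v j)) ≠ 0 := by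
    intro j h0
    have h1 : ((F.map (red K)).map (algebraMap K (AC K))).eval (red (AC K) (v j)) = 0 := by
      rw [← red_map_eval, hroot, map_zero]
    rw [red_map_eval] at h0
    exact coprime_eval hcop' _ h0 h1
  have hFe : F = U ^ 2 + X * Gt ^ 2 + 2 * M := by linear_combination hM
  let D : Sd (red (AC K)) (emb K θt) (Gt.map (emb K)) (Ct.map (emb K)) N :=
    { A := A.map (emb K)
      U := U.map (emb K)
      M := M.map (emb K)
      F := F.map (emb K)
      v := v
      hF := by
        rw [hFe]
        simp only [Polynomial.map_add, Polynomial.map_mul, Polynomial.map_pow, map_X,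
          Polynomial.map_ofNat]
      hA := by
        rw [hF]
        simp only [Polynomial.map_add, Polynomial.map_mul, Polynomial.map_pow, map_C, map_pow]
      hv := hv
      hG := hG }
  have hT : red (AC K) (∏ j, (emb K θt * (Gt.map (emb K)).eval (v j))) ≠ 0 := by
    rw [map_prod, Finset.prod_ne_zero_iff]
    intro j _
    rw [map_mul, red_emb]
    exact mul_ne_zero ((_root_.map_ne_zero _).mpr hθ) (hG j)
  choose π hπ using hvperm
  have hπinj : Function.Injective π := by
    intro i j hij
    apply hvinj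
    apply frobLift_injective_red (K := K)
    rw [hπ, hπ, hij]
  have hπbij : Function.Bijective π := Finite.injective_iff_bijective.mp hπinj
  refine ⟨M, D, rfl, rfl, rfl, rfl, ?_, ?_, ?_, hT⟩
  · show frobLift K (vdm v) = _
    rw [hvσ]
    push_cast
    rfl
  · show red (AC K) (vdm v) ≠ 0
    intro h0
    have h1 := Pool.Agent.H524.map_vdm (red (AC K)) v
    rw [h0] at h1
    rw [Pool.Agent.H524.vdm_eq] at h1
    have h2 := h1.symm
    rw [Finset.prod_eq_zero_iff] at h2
    obtain ⟨i, _, hi⟩ := h2
    rw [Finset.prod_eq_zero_iff] at hi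
    obtain ⟨j, hj, hij⟩ := hi
    rw [sub_eq_zero] at hij
    have := hvinj hij
    rw [Finset.mem_Ioi, this] at hj
    exact lt_irrefl _ hj
  · show frobLift K (∏ j, (emb K θt * (Gt.map (emb K)).eval (v j))) = _
    rw [map_prod]
    simp_rw [map_mul, frobLift_emb, frob_map_eval, hπ]
    exact Function.Bijective.prod_comp hπbij
      (fun j => emb K θt * (Gt.map (emb K)).eval (v j))

/-- the term that disappears -/
noncomputable def kq (u g m : K[X]) (ρ : AC K) : AC K :=
  (aeval ρ u * aeval ρ (derivative u) + aeval ρ (derivative m)) *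
    ((aeval ρ (derivative u)) ^ 2 + ρ * (aeval ρ (derivative g)) ^ 2) /
    ((aeval ρ (derivative g)) ^ 2 * (aeval ρ u) ^ 2)

lemma frob_kq (u g m : K[X]) (ρ : AC K) :
    (kq u g m ρ) ^ Fintype.card K = kq u g m (ρ ^ Fintype.card K) := by
  rw [← frob_apply, ← frob_apply, kq, kq]
  simp only [map_div₀, map_mul, map_add, map_pow, Polynomial.aeval_algHom_apply]

lemma loc_eval {θt : WittVector 2 K} {Gt Ct U M : (WittVector 2 K)[X]} {N : ℕ}
    (D : Sd (red (AC K)) (emb K θt) (Gt.map (emb K)) (Ct.map (emb K)) N)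
    (hU : D.U = U.map (emb K)) (hM : D.M = M.map (emb K)) {r l : WittVector 2 (AC K)}
    (h : D.Loc r l) :
    red (AC K) l = kq (U.map (red K)) (Gt.map (red K)) (M.map (red K)) (red (AC K) r) +
      (kq (U.map (red K)) (Gt.map (red K)) (M.map (red K)) (red (AC K) r)) ^ 2 +
      Wr (U.map (red K)) (Gt.map (red K)) (red (AC K) r) := by
  refine h _ _ _ _ rfl rfl ?_ ?_
  · rw [hU, hM, derivative_map, derivative_map, derivative_map, emap, emap, emap, emap,
      ← derivative_map, ← derivative_map, ← derivative_map]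
    rfl
  · rw [hU, derivative_map, derivative_map, emap, emap, emap,
      ← derivative_map, ← derivative_map]
    rfl

end witt

end Pool.Agent.H140.Q
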