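import Mathlib
import Pool.Agent.H140.Q.KeyW

/-!
# The key formula for quadratic polynomials
-/

set_option autoImplicit false

namespace Pool.Agent.H140.Q

open Polynomial
open Pool.Agent.H985.Chow
open Pool.Agent.H524 (red emb frobLift AC vdm two_dvd_iff isUnit_iff_red two_ne_zero_witt
  red_frobLift frobLift_emb red_emb)

section
variable {K : Type} [Field K] [Fintype K] [CharP K 2]

omit [Fintype K] in
lemma two0' : (2 : K[X]) = 0 := by
  have h : (2 : K) = 0 := CharTwo.two_eq_zero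
  have h2 : (C (2 : K) : K[X]) = 2 := map_ofNat C 2
  rw [← h2, h, C_0]

omit [Fintype K] in
/-- `f = U² + X G²` -/
lemma f_eq (θ : K) (ε δ x y : K[X]) :
    (x ^ 2 + X * y ^ 2) ^ 2 + C (θ ^ 2) * (x ^ 2 + X * y ^ 2) + (ε ^ 2 + X * δ ^ 2) =
      (UQ θ ε x y) ^ 2 + X * (C θ * y + δ) ^ 2 := by
  unfold UQ
  rw [C_pow]
  linear_combination (-(x ^ 2 + X * y ^ 2) * C θ * x - (x ^ 2 + X * y ^ 2) * ε - C θ * x * ε -
    X * C θ * y * δ) * two0' (K := K)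

lemma F_lift {R : Type} [CommRing R] [Nontrivial R] {A Ct : R[X]} (t : R) {n : ℕ} (hn : 1 ≤ n)
    (hA : A.Monic) (hd : A.natDegree = n) (hc : Ct.natDegree < 2 * n) :
    (A ^ 2 + C t * A + Ct).Monic ∧ (A ^ 2 + C t * A + Ct).natDegree = 2 * n := by
  have h1 : (A ^ 2).Monic := hA.pow 2
  have h2 : (A ^ 2).natDegree = 2 * n := by rw [hA.natDegree_pow, hd]
  have h3 : (C t * A + Ct).natDegree < 2 * n := by
    refine lt_of_le_of_lt (natDegree_add_le _ _) (max_lt ?_ hc)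
    exact lt_of_le_of_lt (natDegree_C_mul_le _ _) (by omega)
  rw [add_assoc]
  refine ⟨h1.add_of_left (degree_lt_degree (by omega)), ?_⟩
  rw [natDegree_add_eq_left_of_natDegree_lt (by omega), h2]

omit [Fintype K] [CharP K 2] in
lemma deg_facts {n : ℕ} {c θ : K} {x y ε δ p : K[X]} (hc : c ≠ 0)
    (hG : C θ * y + δ = C c * p)
    (hd : (x ^ 2 + X * y ^ 2).natDegree = n) {d : ℕ}
    (hdeg : n + 2 * d + 2 * (ε ^ 2 + X * δ ^ 2).natDegree + 2 ≤ 4 * p.natDegree) :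
    2 * p.natDegree + 1 ≤ n := by
  have h1 : p.natDegree = (C θ * y + δ).natDegree := by
    rw [hG, natDegree_C_mul hc]
  have h2 : (C θ * y + δ).natDegree ≤ max y.natDegree δ.natDegree :=
    (natDegree_add_le _ _).trans (max_le_max (natDegree_C_mul_le _ _) le_rfl)
  have h3 : y.natDegree = 0 ∨ 2 * y.natDegree + 1 ≤ n := by
    by_cases hy : y = 0
    · left
      rw [hy, natDegree_zero]
    · right
      have := natDegree_f x y hy
      omega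
  have h4 : δ.natDegree = 0 ∨ 2 * δ.natDegree + 1 ≤ (ε ^ 2 + X * δ ^ 2).natDegree := by
    by_cases hy : δ = 0
    · left
      rw [hy, natDegree_zero]
    · right
      have := natDegree_f ε δ hy
      omega
  omega

end

open Classical in
/-- **The key formula.** -/
theorem keyQ : S_keyQ := by
  intro K _ _ _ n c θ x₁ x₂ y ε δ e h hc hθ he hh hcop hsq hG hm₁ hd₁ hm₂ hd₂ hc₁ hc₂ hdvd hdeg
  have h2AC : (2 : AC K) = 0 := two_AC
  obtain ⟨u, hu⟩ := hdvd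
  have hehm : (e * h).Monic := he.mul hh
  have hehd : (e * h).natDegree = e.natDegree + h.natDegree := he.natDegree_mul hh
  have hf1 := deg_facts hc hG hd₁ hdeg
  have hn1 : 1 ≤ n := by omega
  -- lifts
  obtain ⟨θt, hθt⟩ : ∃ t, t = WittVector.teichmuller 2 θ := ⟨_, rfl⟩
  obtain ⟨ct, hct⟩ : ∃ t, t = WittVector.teichmuller 2 c := ⟨_, rfl⟩
  obtain ⟨E, hE⟩ : ∃ E, E = tl e := ⟨_, rfl⟩
  obtain ⟨H, hH⟩ : ∃ H, H = tl h := ⟨_, rfl⟩
  obtain ⟨V, hV⟩ : ∃ U, U = tl u := ⟨_, rfl⟩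
  obtain ⟨Ct, hCt⟩ : ∃ U, U = tl (ε ^ 2 + X * δ ^ 2) := ⟨_, rfl⟩
  obtain ⟨U₁, hU₁⟩ : ∃ U, U = tl (UQ θ ε x₁ y) := ⟨_, rfl⟩
  obtain ⟨U₂, hU₂⟩ : ∃ U, U = tl (UQ θ ε x₂ y) := ⟨_, rfl⟩
  obtain ⟨A₁, hA₁⟩ : ∃ A, A = tl (x₁ ^ 2 + X * y ^ 2) := ⟨_, rfl⟩
  obtain ⟨w, hw⟩ : ∃ A, A = E ^ 5 * V := ⟨_, rfl⟩
  obtain ⟨A₂, hA₂⟩ : ∃ A, A = A₁ + w ^ 2 := ⟨_, rfl⟩
  obtain ⟨Gt, hGt⟩ : ∃ B, B = C ct * (E * H) := ⟨_, rfl⟩
  have hθr : red K θt = θ := hθt ▸ WittVector.teichmuller_coeff_zero 2 _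
  have hcr : red K ct = c := hct ▸ WittVector.teichmuller_coeff_zero 2 _
  have hEm : E.Monic := hE ▸ tl_monic he
  have hHm : H.Monic := hH ▸ tl_monic hh
  have hEd : E.natDegree = e.natDegree := hE ▸ natDegree_tl he
  have hHd : H.natDegree = h.natDegree := hH ▸ natDegree_tl hh
  have hEr : E.map (red K) = e := hE ▸ map_tl e
  have hHr : H.map (red K) = h := hH ▸ map_tl h
  have hVr : V.map (red K) = u := hV ▸ map_tl u
  have hCr : Ct.map (red K) = ε ^ 2 + X * δ ^ 2 := hCt ▸ map_tl _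
  have hU₁r : U₁.map (red K) = UQ θ ε x₁ y := hU₁ ▸ map_tl _
  have hU₂r : U₂.map (red K) = UQ θ ε x₂ y := hU₂ ▸ map_tl _
  have hA₁r : A₁.map (red K) = x₁ ^ 2 + X * y ^ 2 := hA₁ ▸ map_tl _
  have hwr : w.map (red K) = x₂ - x₁ := by
    rw [hw, Polynomial.map_mul, Polynomial.map_pow, hEr, hVr, hu]
  have hA₂r : A₂.map (red K) = x₂ ^ 2 + X * y ^ 2 := by
    rw [hA₂, Polynomial.map_add, Polynomial.map_pow, hA₁r, hwr]
    linear_combination (x₁ ^ 2 - x₁ * x₂) * two0' (K := K)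
  have hGr : Gt.map (red K) = C c * (e * h) := by
    rw [hGt, Polynomial.map_mul, Polynomial.map_mul, map_C, hEr, hHr, hcr]
  have hEHr : (E * H).map (red K) = e * h := by rw [Polynomial.map_mul, hEr, hHr]
  -- degrees
  have hCn : Ct.natDegree ≤ (ε ^ 2 + X * δ ^ 2).natDegree := hCt ▸ natDegree_tl_le _
  have hwn : w.natDegree ≤ (x₂ - x₁).natDegree := by
    rw [hw]
    by_cases hu0 : u = 0
    · rw [hV, hu0, tl_zero, mul_zero, natDegree_zero]; omega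
    · have e1 : (E ^ 5 * V).natDegree ≤ 5 * E.natDegree + V.natDegree := by
        refine natDegree_mul_le.trans ?_
        have := natDegree_pow_le (p := E) (n := 5)
        omega
      have e2 : (x₂ - x₁).natDegree = 5 * e.natDegree + u.natDegree := by
        rw [hu, natDegree_mul (pow_ne_zero 5 he.ne_zero) hu0, natDegree_pow]
      have e3 : V.natDegree ≤ u.natDegree := hV ▸ natDegree_tl_le u
      omega
  have hA₁m : A₁.Monic := hA₁ ▸ tl_monic hm₁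
  have hA₁d : A₁.natDegree = n := by rw [hA₁, natDegree_tl hm₁, hd₁]
  have hw2 : (w ^ 2).natDegree < n := by
    have := natDegree_pow_le (p := w) (n := 2)
    omega
  have hA₂m : A₂.Monic := by
    rw [hA₂]
    exact hA₁m.add_of_left (degree_lt_degree (by omega))
  have hA₂d : A₂.natDegree = n := by
    rw [hA₂, natDegree_add_eq_left_of_natDegree_lt (by omega), hA₁d]
  obtain ⟨F₁, hF₁⟩ : ∃ F, F = A₁ ^ 2 + C (θt ^ 2) * A₁ + Ct := ⟨_, rfl⟩
  obtain ⟨F₂, hF₂⟩ : ∃ F, F = A₂ ^ 2 + C (θt ^ 2) * A₂ + Ct := ⟨_, rfl⟩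
  obtain ⟨hF₁m, hF₁d⟩ := F_lift (θt ^ 2) hn1 hA₁m hA₁d (show Ct.natDegree < 2 * n by omega)
  obtain ⟨hF₂m, hF₂d⟩ := F_lift (θt ^ 2) hn1 hA₂m hA₂d (show Ct.natDegree < 2 * n by omega)
  rw [← hF₁] at hF₁m hF₁d
  rw [← hF₂] at hF₂m hF₂d
  have hF₁r' : F₁.map (red K) = (UQ θ ε x₁ y) ^ 2 + X * (C c * (e * h)) ^ 2 := by
    rw [← hG, ← f_eq, hF₁]
    simp only [Polynomial.map_add, Polynomial.map_mul, Polynomial.map_pow, map_C, map_pow, hA₁r,
      hθr, hCr]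
  have hF₂r' : F₂.map (red K) = (UQ θ ε x₂ y) ^ 2 + X * (C c * (e * h)) ^ 2 := by
    rw [← hG, ← f_eq, hF₂]
    simp only [Polynomial.map_add, Polynomial.map_mul, Polynomial.map_pow, map_C, map_pow, hA₂r,
      hθr, hCr]
  have hF₁r : F₁.map (red K) = (U₁.map (red K)) ^ 2 + X * (Gt.map (red K)) ^ 2 := by
    rw [hU₁r, hGr, hF₁r']
  have hF₂r : F₂.map (red K) = (U₂.map (red K)) ^ 2 + X * (Gt.map (red K)) ^ 2 := by
    rw [hU₂r, hGr, hF₂r']
  -- coprimality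
  have hcu : ∀ p : K[X], IsCoprime p (C c) := fun p =>
      ⟨0, C c⁻¹, by rw [zero_mul, zero_add, ← C_mul, inv_mul_cancel₀ hc, C_1]⟩
  have hco₁ : IsCoprime (U₁.map (red K)) (Gt.map (red K)) := by
    rw [hU₁r, hGr]; exact (hcu _).mul_right hc₁
  have hco₂ : IsCoprime (U₂.map (red K)) (Gt.map (red K)) := by
    rw [hU₂r, hGr]; exact (hcu _).mul_right hc₂
  have hθ0 : red K θt ≠ 0 := by rw [hθr]; exact hθ
  obtain ⟨M₁, D₁, dA₁, dU₁, dM₁, dF₁, dv₁, dv₁0, dT₁, dT₁0⟩ :=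
    sideW θt A₁ Ct Gt U₁ F₁ hF₁ hF₁m hF₁d hF₁r hco₁ hθ0
  obtain ⟨M₂, D₂, dA₂, dU₂, dM₂, dF₂, dv₂, dv₂0, dT₂, dT₂0⟩ :=
    sideW θt A₂ Ct Gt U₂ F₂ hF₂ hF₂m hF₂d hF₂r hco₂ hθ0
  -- the nodes
  obtain ⟨r, hr, hrinj, hrperm, -⟩ := sgn K H.natDegree H hHm rfl (by rw [hHr]; exact hsq)
  have hHred : h.map (algebraMap K (AC K)) = ∏ i, (X - C (red (AC K) (r i))) := by
    rw [← hHr, ← red_map_map, hr, Polynomial.map_prod]
    simp only [Polynomial.map_sub, map_X, map_C]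
  have hhρ : ∀ i, (h.map (algebraMap K (AC K))).eval (red (AC K) (r i)) = 0 := by
    intro i
    rw [hHred, eval_prod]
    exact Finset.prod_eq_zero (Finset.mem_univ i) (by simp)
  have hehρ : ∀ i, ((e * h).map (algebraMap K (AC K))).eval (red (AC K) (r i)) = 0 := by
    intro i
    rw [Polynomial.map_mul, eval_mul, hhρ, mul_zero]
  have heρ : ∀ i, red (AC K) ((E.map (emb K)).eval (r i)) ≠ 0 := by
    intro i
    rw [red_map_eval, hEr]
    exact coprime_eval hcop _ (hhρ i)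
  have hUρ₁ : ∀ i, red (AC K) (D₁.U.eval (r i)) ≠ 0 := by
    intro i
    rw [dU₁, red_map_eval, hU₁r]
    exact coprime_eval hc₁ _ (hehρ i)
  have hUρ₂ : ∀ i, red (AC K) (D₂.U.eval (r i)) ≠ 0 := by
    intro i
    rw [dU₂, red_map_eval, hU₂r]
    exact coprime_eval hc₂ _ (hehρ i)
  obtain ⟨l₁, l₂, N₁, N₂, q, L1, L2, hN, hN₂, hq⟩ := Sd.keyR D₁ D₂
    (fun x hx => isUnit_iff_red x hx)
    (fun x hx => by
      obtain ⟨t, ht⟩ := (two_dvd_iff x).2 hx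
      exact ⟨t, ht⟩)
    (two_ne_zero_witt (E := AC K))
    (by rw [red_emb]; exact (_root_.map_ne_zero _).mpr hθ0)
    (χ := emb K ct) (by rw [red_emb, hcr]; exact (_root_.map_ne_zero _).mpr hc)
    (E := E.map (emb K)) (r := r) (hEm.map _)
    (by rw [hGt, Polynomial.map_mul, map_C, Polynomial.map_mul, hr])
    (fun i j hij h0 => hij (hrinj h0)) heρ hUρ₁ hUρ₂
    (w := w.map (emb K)) (by rw [dA₁, dA₂, hA₂, Polynomial.map_add, Polynomial.map_pow])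
    (by
      rw [hw, Polynomial.map_mul, Polynomial.map_pow]
      exact Dvd.intro _ rfl)
    (n := n) (d := (x₂ - x₁).natDegree) (c := (ε ^ 2 + X * δ ^ 2).natDegree) hn1 rfl
    (by rw [dA₁]; exact natDegree_map_le.trans hA₁d.le)
    (by rw [dA₂]; exact natDegree_map_le.trans hA₂d.le)
    (natDegree_map_le.trans hwn) (natDegree_map_le.trans hCn)
    (by rw [hEm.natDegree_map, hEd, hHd]; omega)
    (by rw [hEm.natDegree_map, hEd, hHd]; omega)
    (by omega) dv₂0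
  -- the sign step
  have hpm : ∀ F : K[X], Squarefree F → ((-1) ^ (2 * n) * mob F : ℤ) = 1 ∨
      ((-1) ^ (2 * n) * mob F : ℤ) = -1 := by
    intro F hF
    rcases mob_pm hF with h | h <;> rcases neg_one_pow_eq_or ℤ (2 * n) with h' | h' <;>
      rw [h, h'] <;> norm_num
  obtain ⟨x, hx, hxc⟩ := sign_step (K := K)
    (vdm D₁.v * ∏ j, (emb K θt * (Gt.map (emb K)).eval (D₂.v j)))
    (vdm D₂.v * ∏ j, (emb K θt * (Gt.map (emb K)).eval (D₁.v j))) N₁ N₂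
    (-(∑ i, (l₁ i - l₂ i))) _ _
    (hpm (F₁.map (red K)) (by rw [hF₁r]; exact squarefree_f _ _ hco₁))
    (hpm (F₂.map (red K)) (by rw [hF₂r]; exact squarefree_f _ _ hco₂))
    (by rw [map_mul, dv₁, dT₂]; ring) (by rw [map_mul, dv₂, dT₁]; ring)
    (by rw [map_mul]; exact mul_ne_zero dv₂0 dT₁0) hN hN₂ ⟨q, hq⟩
  have hsgn : ((-1) ^ (2 * n) * mob (F₁.map (red K)) : ℤ) *
      ((-1) ^ (2 * n) * mob (F₂.map (red K)) : ℤ) =
      mob (F₁.map (red K)) * mob (F₂.map (red K)) := by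
    have : ((-1 : ℤ) ^ (2 * n)) * (-1) ^ (2 * n) = 1 := by
      rw [← mul_pow]; norm_num
    linear_combination (mob (F₁.map (red K)) * mob (F₂.map (red K))) * this
  rw [hsgn, hF₁r', hF₂r'] at hxc
  -- the sums
  obtain ⟨f, hf⟩ : ∃ f : AC K → AC K, f = fun t =>
    kq (U₁.map (red K)) (Gt.map (red K)) (M₁.map (red K)) t +
    kq (U₂.map (red K)) (Gt.map (red K)) (M₂.map (red K)) t := ⟨_, rfl⟩
  obtain ⟨g, hg⟩ : ∃ g : AC K → AC K, g = fun t =>
    Wr (U₁.map (red K)) (Gt.map (red K)) t + Wr (U₂.map (red K)) (Gt.map (red K)) t := ⟨_, rfl⟩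
  have hperm : ∀ i, ∃ j, (red (AC K) (r i)) ^ Fintype.card K = red (AC K) (r j) := by
    intro i
    obtain ⟨j, hj⟩ := hrperm i
    exact ⟨j, by rw [← red_frobLift, hj]⟩
  have hy := frob_sum (fun i => red (AC K) (r i)) hrinj hperm f
    (fun t => by
      rw [hf]
      show (_ + _) ^ _ = _ + _
      rw [← frob_apply, map_add, frob_apply, frob_apply, frob_kq, frob_kq])
  have hwq := frob_sum (fun i => red (AC K) (r i)) hrinj hperm g
    (fun t => by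
      rw [hg]
      show (_ + _) ^ _ = _ + _
      rw [← frob_apply, map_add, frob_apply, frob_apply, frob_Wr, frob_Wr])
  have hz : red (AC K) (-(∑ i, (l₁ i - l₂ i))) = ∑ i, f (red (AC K) (r i)) +
      (∑ i, f (red (AC K) (r i))) ^ 2 + ∑ i, g (red (AC K) (r i)) := by
    have e3 : ∀ f : Fin H.natDegree → AC K, (∑ i, f i) ^ 2 = ∑ i, (f i) ^ 2 := fun f =>
      sum_pow_char 2 Finset.univ f
    rw [e3, ← Finset.sum_add_distrib, ← Finset.sum_add_distrib, map_neg, map_sum,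
      ← Finset.sum_neg_distrib]
    refine Finset.sum_congr rfl fun i _ => ?_
    rw [map_sub, loc_eval D₁ dU₁ dM₁ (L1 i), loc_eval D₂ dU₂ dM₂ (L2 i), hf, hg]
    beta_reduce
    generalize kq (U₁.map (red K)) (Gt.map (red K)) (M₁.map (red K)) (red (AC K) (r i)) = k₁
    generalize kq (U₂.map (red K)) (Gt.map (red K)) (M₂.map (red K)) (red (AC K) (r i)) = k₂
    generalize Wr (U₁.map (red K)) (Gt.map (red K)) (red (AC K) (r i)) = w₁
    generalize Wr (U₂.map (red K)) (Gt.map (red K)) (red (AC K) (r i)) = w₂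
    linear_combination (-k₁ - k₁ ^ 2 - w₁ - k₁ * k₂) * h2AC
  obtain ⟨w0, hw1, hw2⟩ := last_step x _ _ _ _ hx hz hy hwq hxc
  refine ⟨w0, ?_, ?_⟩
  · rw [hw1, sum_roots h hh (fun i => red (AC K) (r i)) hrinj hHred, hg, hU₁r, hU₂r, hGr]
  · rcases hw2 with ⟨h1, h2⟩ | ⟨h1, h2⟩
    · rw [h1, if_pos h2]
    · rw [h1, if_neg h2]

end Pool.Agent.H140.Q
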