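import Pool.Agent.H140.Q.StmM
import Pool.Agent.H524.Cw.Lio

/-!
# From `mobM` to the Liouville function (task LAMM, helper337)
-/

set_option autoImplicit false

namespace Pool.Agent.H140.Q

open Polynomial
open Pool.Agent.H985.Chow (mob MD)
open Pool.Agent.H694.Typ (Mn mem_Mn card_Mn)
open Pool.Agent.H524.Ext (mob_eq mob_of_not finsum_MD)
open Pool.Agent.H524.Cw (lio lio_mul lio_mob abs_lio ML mem_ML)

namespace LMM

variable {K : Type} [Field K]

lemma liou_eq (F : K[X]) : liou F = lio F := rfl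

lemma cop_aux {θ m m' F : K[X]} (h : GM θ m F) (h' : GM θ m' F) : m ∣ m' := by
  obtain ⟨hm, hmF, hc, hs, hP⟩ := h
  obtain ⟨hm', hmF', hc', hs', hP'⟩ := h'
  have e' : m' * (F / m') = F := EuclideanDomain.mul_div_cancel' hm'.ne_zero hmF'
  have hcop : IsCoprime m (F / m') := by
    refine isCoprime_of_prime_dvd (fun h0 => hm.ne_zero h0.1) fun P hPp hPm hPG => ?_
    have hPi : Irreducible P := hPp.irreducible
    have hnotm' : ¬ P ∣ m' := by
      intro h1
      exact hPi.not_isUnit (hc'.isUnit_of_dvd' hPG (h1.mul_right θ))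
    rcases hP P hPi hPm with h1 | h1
    · exact hPi.not_isUnit (hc'.isUnit_of_dvd' hPG (h1.mul_left m'))
    · have h2 : P ^ 2 ∣ m' * (F / m') := by
        rw [e']
        exact h1.trans hmF
      have h3 : IsCoprime (P ^ 2) m' := (((hPi.coprime_iff_not_dvd).2 hnotm')).pow_left
      have h4 : P ^ 2 ∣ F / m' := h3.dvd_of_dvd_mul_left h2
      exact hPi.not_isUnit (hs' P (by rwa [← sq]))
  refine hcop.dvd_of_dvd_mul_right ?_
  rw [e']
  exact hmF

lemma uniq {θ m m' F : K[X]} (h : GM θ m F) (h' : GM θ m' F) : m = m' :=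
  eq_of_monic_of_associated h.1 h'.1
    (associated_of_dvd_dvd (cop_aux h h') (cop_aux h' h))

lemma ne_of_GM {θ m F : K[X]} (h : GM θ m F) : F ≠ 0 := by
  rintro rfl
  have h1 := h.2.2.2.1
  rw [EuclideanDomain.zero_div] at h1
  exact not_squarefree_zero h1

lemma liou_GM {θ m F : K[X]} (h : GM θ m F) : liou m * mobM m θ F = liou F := by
  obtain ⟨hm, hmF, hc, hs, hP⟩ := h
  have e : m * (F / m) = F := EuclideanDomain.mul_div_cancel' hm.ne_zero hmF
  unfold mobM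
  rw [if_pos ⟨hmF, hc⟩, liou_eq, liou_eq, ← lio_mob hs, ← lio_mul, e]

lemma term_zero {θ m F : K[X]} (hm : m.Monic)
    (hP : ∀ P, Irreducible P → P ∣ m → P ∣ θ ∨ P ^ 2 ∣ m) (h : ¬ GM θ m F) :
    liou m * mobM m θ F = 0 := by
  unfold mobM
  split_ifs with h1
  · by_cases h2 : Squarefree (F / m)
    · exact absurd ⟨hm, h1.1, h1.2, h2, hP⟩ h
    · rw [mob_of_not h2, mul_zero]
  · rw [mul_zero]

variable [Fintype K]

open Classical in
/-- the possible `m` -/
noncomputable def MM (θ : K[X]) (D₀ : ℕ) : Finset K[X] :=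
  (ML K D₀).filter (fun m => ∀ P, Irreducible P → P ∣ m → P ∣ θ ∨ P ^ 2 ∣ m)

open Classical in
/-- the approximation -/
noncomputable def SS (θ : K[X]) (D₀ : ℕ) (F : K[X]) : ℤ :=
  ∑ m ∈ MM θ D₀, liou m * mobM m θ F

lemma SS_pos {θ : K[X]} {D₀ : ℕ} {F m : K[X]} (hm : m.natDegree ≤ D₀) (h : GM θ m F) :
    SS θ D₀ F = liou F := by
  classical
  have hmem : m ∈ MM θ D₀ := by
    unfold MM
    rw [Finset.mem_filter, mem_ML]
    exact ⟨⟨h.1, hm⟩, h.2.2.2.2⟩
  unfold SS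
  rw [Finset.sum_eq_single m]
  · exact liou_GM h
  · intro m' hm' hne
    unfold MM at hm'
    rw [Finset.mem_filter, mem_ML] at hm'
    refine term_zero hm'.1.1 hm'.2 fun h' => hne ?_
    exact uniq h' h
  · intro h1
    exact absurd hmem h1

lemma abs_SS (θ : K[X]) (D₀ : ℕ) (F : K[X]) : |(SS θ D₀ F : ℝ)| ≤ 1 := by
  classical
  by_cases h : ∃ m : K[X], m.natDegree ≤ D₀ ∧ GM θ m F
  · obtain ⟨m, h1, h2⟩ := h
    rw [SS_pos h1 h2, liou_eq]
    exact abs_lio F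
  · have h1 : SS θ D₀ F = 0 := by
      unfold SS
      refine Finset.sum_eq_zero fun m hm => ?_
      unfold MM at hm
      rw [Finset.mem_filter, mem_ML] at hm
      exact term_zero hm.1.1 hm.2 fun h' => h ⟨m, hm.1.2, h'⟩
    rw [h1]
    simp

lemma abs_liou (F : K[X]) : |(liou F : ℝ)| ≤ 1 := abs_lio F

end LMM

open LMM in
/-- **Task LAMM** -/
theorem lamM (hap : S_apM) (ht : S_tailM) : S_lioM := by
  classical
  intro K _ _ _ θ ε δ Q hθ hQ η hη
  obtain ⟨D₀, n₁, hn₁⟩ := ht K θ ε δ hθ (η / 4) (by positivity)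
  set 𝓜 := MM θ D₀ with h𝓜
  set η' : ℝ := η / (2 * (𝓜.card + 1)) with hη'
  have hη0 : 0 < η' := by positivity
  have h1 : ∀ m : K[X], ∃ n₀ : ℕ, m ∈ 𝓜 → ∀ n : ℕ, n₀ ≤ n → ∀ w : K[X] → ℝ, (∀ g, |w g| ≤ 1) →
      (∀ g u, w (g + (Q * u) ^ 2) = w g) →
      |∑ᶠ g ∈ MD K n, w g * (mobM m θ (fM θ ε δ g) : ℝ)| ≤ η' * (Fintype.card K : ℝ) ^ n := by
    intro m
    by_cases hm : m.Monic
    · obtain ⟨n₀, hn₀⟩ := hap K θ ε δ m Q hθ hm hQ η' hη0
      exact ⟨n₀, fun _ => hn₀⟩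
    · refine ⟨0, fun hmem => absurd ?_ hm⟩
      rw [h𝓜, MM, Finset.mem_filter, mem_ML] at hmem
      exact hmem.1.1
  choose N hN using h1
  refine ⟨max n₁ (𝓜.sup N), fun n hn w hw hwu => ?_⟩
  have hn1 : n₁ ≤ n := (le_max_left _ _).trans hn
  have hn2 : ∀ m ∈ 𝓜, N m ≤ n := fun m hm =>
    ((Finset.le_sup hm).trans (le_max_right _ _)).trans hn
  have hqn : (0 : ℝ) ≤ (Fintype.card K : ℝ) ^ n := by positivity
  set f : K[X] → K[X] := fun g => fM θ ε δ g with hf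
  rw [finsum_MD]
  -- the main term
  have hmain : |∑ g ∈ Mn K n, w g * (SS θ D₀ (f g) : ℝ)| ≤ η / 2 * (Fintype.card K : ℝ) ^ n := by
    have e1 : ∑ g ∈ Mn K n, w g * (SS θ D₀ (f g) : ℝ) =
        ∑ m ∈ 𝓜, (liou m : ℝ) * ∑ g ∈ Mn K n, w g * (mobM m θ (f g) : ℝ) := by
      have e2 : ∀ g ∈ Mn K n, w g * (SS θ D₀ (f g) : ℝ) =
          ∑ m ∈ 𝓜, (liou m : ℝ) * (w g * (mobM m θ (f g) : ℝ)) := by
        intro g _
        unfold SS
        push_cast
        rw [Finset.mul_sum]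
        refine Finset.sum_congr rfl fun m _ => ?_
        ring
      rw [Finset.sum_congr rfl e2, Finset.sum_comm]
      refine Finset.sum_congr rfl fun m _ => ?_
      rw [Finset.mul_sum]
    rw [e1]
    calc |∑ m ∈ 𝓜, (liou m : ℝ) * ∑ g ∈ Mn K n, w g * (mobM m θ (f g) : ℝ)|
        ≤ ∑ m ∈ 𝓜, |(liou m : ℝ) * ∑ g ∈ Mn K n, w g * (mobM m θ (f g) : ℝ)| :=
          Finset.abs_sum_le_sum_abs _ _
      _ ≤ ∑ m ∈ 𝓜, η' * (Fintype.card K : ℝ) ^ n := by
          refine Finset.sum_le_sum fun m hm => ?_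
          have h2 := hN m hm n (hn2 m hm) w hw hwu
          rw [finsum_MD] at h2
          rw [abs_mul]
          calc |(liou m : ℝ)| * |∑ g ∈ Mn K n, w g * (mobM m θ (f g) : ℝ)|
              ≤ 1 * |∑ g ∈ Mn K n, w g * (mobM m θ (f g) : ℝ)| :=
                mul_le_mul_of_nonneg_right (abs_liou m) (abs_nonneg _)
            _ ≤ _ := by rw [one_mul]; exact h2
      _ = 𝓜.card * η' * (Fintype.card K : ℝ) ^ n := by
          rw [Finset.sum_const, nsmul_eq_mul]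
          ring
      _ ≤ _ := by
          apply mul_le_mul_of_nonneg_right _ hqn
          rw [hη', ← mul_div_assoc, div_le_iff₀ (by positivity)]
          nlinarith
  -- the error
  set Bd : Finset K[X] := (Mn K n).filter
    (fun g => ¬ ∃ m : K[X], m.natDegree ≤ D₀ ∧ GM θ m (f g)) with hBd
  have hbad : (Bd.card : ℝ) ≤ η / 4 * (Fintype.card K : ℝ) ^ n := by
    have h2 := hn₁ n hn1
    have h3 : MD K n ∩ {g | ¬ ∃ m : K[X], m.natDegree ≤ D₀ ∧ GM θ m (fM θ ε δ g)} =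
        (Bd : Set K[X]) := by
      ext g
      rw [Finset.mem_coe, hBd, Finset.mem_filter, mem_Mn]
      rfl
    rw [h3, Set.ncard_coe_finset] at h2
    exact h2
  have herr : |∑ g ∈ Mn K n, w g * ((liou (f g) : ℝ) - (SS θ D₀ (f g) : ℝ))| ≤
      η / 2 * (Fintype.card K : ℝ) ^ n := by
    calc |∑ g ∈ Mn K n, w g * ((liou (f g) : ℝ) - (SS θ D₀ (f g) : ℝ))|
        ≤ ∑ g ∈ Mn K n, |w g * ((liou (f g) : ℝ) - (SS θ D₀ (f g) : ℝ))| :=
          Finset.abs_sum_le_sum_abs _ _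
      _ ≤ ∑ g ∈ Mn K n, (if ¬ ∃ m : K[X], m.natDegree ≤ D₀ ∧ GM θ m (f g) then (2 : ℝ) else 0) := by
          refine Finset.sum_le_sum fun g _ => ?_
          split_ifs with h2
          · obtain ⟨m, h3, h4⟩ := h2
            rw [SS_pos h3 h4, sub_self, mul_zero, abs_zero]
          · rw [abs_mul]
            have h3 : |(liou (f g) : ℝ) - (SS θ D₀ (f g) : ℝ)| ≤ 2 := by
              have h4 := abs_le.1 (abs_liou (f g))
              have h5 := abs_le.1 (abs_SS θ D₀ (f g))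
              rw [abs_le]
              constructor <;> linarith [h4.1, h4.2, h5.1, h5.2]
            calc |w g| * |(liou (f g) : ℝ) - (SS θ D₀ (f g) : ℝ)| ≤ 1 * 2 :=
                  mul_le_mul (hw g) h3 (abs_nonneg _) zero_le_one
              _ = 2 := by norm_num
      _ = 2 * (Bd.card : ℝ) := by
          rw [← Finset.sum_filter, Finset.sum_const, nsmul_eq_mul, mul_comm]
      _ ≤ _ := by linarith
  have hsplit : ∑ g ∈ Mn K n, w g * (liou (f g) : ℝ) =
      ∑ g ∈ Mn K n, w g * (SS θ D₀ (f g) : ℝ) +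
        ∑ g ∈ Mn K n, w g * ((liou (f g) : ℝ) - (SS θ D₀ (f g) : ℝ)) := by
    rw [← Finset.sum_add_distrib]
    refine Finset.sum_congr rfl fun g _ => ?_
    ring
  have hgoal : ∑ g ∈ Mn K n, w g * (liou (fM θ ε δ g) : ℝ) =
      ∑ g ∈ Mn K n, w g * (liou (f g) : ℝ) := rfl
  rw [hgoal, hsplit]
  refine (abs_add_le _ _).trans ?_
  linarith

end Pool.Agent.H140.Q
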