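import Mathlib
import Pool.Agent.H140.Q.StmM

/-!
# Task TAILM (helper650): for almost all `g` the part `m` of `f(g)` has bounded degree
-/

set_option autoImplicit false

namespace Pool.Agent.H140.Q

open Polynomial
open Pool.Agent.H985.Chow (mob MD)

namespace TailMAux

section MDs

variable {K : Type} [Field K]

lemma finite_degreeLT [Finite K] (d : ℕ) : Finite (degreeLT K d) :=
  Finite.of_equiv (Fin d → K) (degreeLTEquiv K d).toEquiv.symm

lemma MD_finite [Finite K] (d : ℕ) : (MD K d).Finite := by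
  have := finite_degreeLT (K := K) (d + 1)
  have h : MD K d ⊆ Set.range (fun u : degreeLT K (d + 1) => (u : K[X])) := by
    intro b hb
    refine ⟨⟨b, mem_degreeLT.2 ?_⟩, rfl⟩
    rw [degree_eq_natDegree hb.1.ne_zero, hb.2]
    exact_mod_cast Nat.lt_succ_self d
  exact (Set.finite_range _).subset h

lemma MD_ncard [Fintype K] (d : ℕ) : (MD K d).ncard ≤ Fintype.card K ^ d := by
  have := finite_degreeLT (K := K) d
  have h : MD K d ⊆ (fun u : degreeLT K d => X ^ d + (u : K[X])) '' Set.univ := by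
    intro b hb
    have hdeg : (b - X ^ d).degree < (d : WithBot ℕ) := by
      have hb0 : b ≠ 0 := hb.1.ne_zero
      have h1 : b.degree = (X ^ d : K[X]).degree := by
        rw [degree_X_pow, degree_eq_natDegree hb0, hb.2]
      have h2 := degree_sub_lt_left h1 hb0 (by rw [hb.1.leadingCoeff, leadingCoeff_X_pow])
      rwa [degree_eq_natDegree hb0, hb.2] at h2
    exact ⟨⟨b - X ^ d, mem_degreeLT.2 hdeg⟩, Set.mem_univ _, by simp⟩
  have hc : Nat.card (degreeLT K d) = Fintype.card K ^ d := by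
    rw [Nat.card_congr (degreeLTEquiv K d).toEquiv]
    simp
  calc (MD K d).ncard ≤ ((fun u : degreeLT K d => X ^ d + (u : K[X])) '' Set.univ).ncard :=
        Set.ncard_le_ncard h (Set.toFinite _)
    _ ≤ (Set.univ : Set (degreeLT K d)).ncard := Set.ncard_image_le (Set.toFinite _)
    _ = Fintype.card K ^ d := by rw [Set.ncard_univ, hc]

end MDs

section Mpart

variable {K : Type} [Field K]

open UniqueFactorizationMonoid

lemma coprime_multiset_prod (s : Multiset K[X]) (x : K[X]) (h : ∀ P ∈ s, IsCoprime P x) :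
    IsCoprime s.prod x := by
  induction s using Multiset.induction with
  | empty => simpa using isCoprime_one_left
  | cons a s ih =>
    rw [Multiset.prod_cons]
    exact (h a (Multiset.mem_cons_self a s)).mul_left
      (ih fun P hP => h P (Multiset.mem_cons_of_mem hP))

open Classical in
lemma monic_of_mem {F P : K[X]} (hP : P ∈ normalizedFactors F) : P.Monic := by
  classical
  have h1 : Irreducible P := irreducible_of_normalized_factor P hP
  have h2 : normalize P = P := normalize_normalized_factor P hP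
  rw [← h2]
  exact monic_normalize h1.ne_zero

/-- a prime dividing a product of monic primes is associated to one of them -/
lemma exists_assoc {s : Multiset K[X]} {P : K[X]} (hs : ∀ Q ∈ s, Irreducible Q)
    (hP : Irreducible P) (hd : P ∣ s.prod) : ∃ Q ∈ s, Associated P Q := by
  obtain ⟨Q, hQ, hPQ⟩ := hP.prime.exists_mem_multiset_dvd hd
  exact ⟨Q, hQ, hP.associated_of_dvd (hs Q hQ) hPQ⟩

open Classical in
/-- the part `m` of `F` -/
noncomputable def mp (θ F : K[X]) : K[X] :=
  ((normalizedFactors F).filter fun P => P ∣ θ ∨ P ^ 2 ∣ F).prod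

open Classical in
lemma GM_mp (θ F : K[X]) (hF : F ≠ 0) : GM θ (mp θ F) F := by
  classical
  set N := normalizedFactors F with hN
  set A := N.filter (fun P => P ∣ θ ∨ P ^ 2 ∣ F) with hA
  set R := N.filter (fun P => ¬ (P ∣ θ ∨ P ^ 2 ∣ F)) with hR
  have hm : mp θ F = A.prod := rfl
  have hirr : ∀ P ∈ N, Irreducible P := fun P hP => irreducible_of_normalized_factor P hP
  have hmon : ∀ P ∈ N, P.Monic := fun P hP => monic_of_mem hP
  have hAm : A.prod.Monic := by
    have := monic_multiset_prod_of_monic A id (fun P hP => hmon P (Multiset.mem_filter.1 hP).1)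
    simpa using this
  have hprod : A.prod * R.prod = N.prod := by
    rw [← Multiset.prod_add, hA, hR, Multiset.filter_add_not]
  obtain ⟨v, hv⟩ := prod_normalizedFactors hF
  have hFm : F = A.prod * (R.prod * (v : K[X])) := by
    rw [← mul_assoc, hprod]
    exact hv.symm
  have hdiv : F / A.prod = R.prod * (v : K[X]) := by
    conv_lhs => rw [hFm]
    exact mul_div_cancel_left₀ _ hAm.ne_zero
  have hcop : IsCoprime (R.prod * (v : K[X])) (A.prod * θ) := by
    refine (isCoprime_mul_unit_right_left v.isUnit _ _).2 ?_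
    refine coprime_multiset_prod _ _ fun P hP => ?_
    obtain ⟨hPN, hPb⟩ := Multiset.mem_filter.1 hP
    push Not at hPb
    refine ((hirr P hPN).coprime_iff_not_dvd).2 ?_
    intro hd
    rcases (hirr P hPN).prime.dvd_or_dvd hd with h1 | h1
    · obtain ⟨Q, hQ, hPQ⟩ := exists_assoc
        (fun Q hQ => hirr Q (Multiset.mem_filter.1 hQ).1) (hirr P hPN) h1
      obtain ⟨-, hQb⟩ := Multiset.mem_filter.1 hQ
      rcases hQb with h2 | h2
      · exact hPb.1 (hPQ.dvd.trans h2)
      · exact hPb.2 ((pow_dvd_pow_of_dvd hPQ.dvd 2).trans h2)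
    · exact hPb.1 h1
  refine ⟨hAm, ⟨_, hFm⟩, ?_, ?_, ?_⟩
  · rw [hm, hdiv]
    exact hcop
  · rw [hm, hdiv]
    rw [squarefree_iff_irreducible_sq_not_dvd_of_ne_zero]
    · intro P hP hd
      have h1 : P ∣ R.prod := by
        have h2 : P ∣ R.prod * (v : K[X]) := (dvd_mul_right P P).trans hd
        exact (Units.dvd_mul_right).1 h2
      obtain ⟨Q, hQ, hPQ⟩ := exists_assoc
        (fun Q hQ => hirr Q (Multiset.mem_filter.1 hQ).1) hP h1
      obtain ⟨-, hQb⟩ := Multiset.mem_filter.1 hQ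
      push Not at hQb
      apply hQb.2
      have h3 : Q ^ 2 ∣ P * P := by
        rw [pow_two]
        exact mul_dvd_mul hPQ.symm.dvd hPQ.symm.dvd
      refine h3.trans (hd.trans ?_)
      exact ⟨A.prod, by rw [mul_comm]; exact hFm⟩
    · intro h0
      rw [h0, mul_zero] at hFm
      exact hF hFm
  · intro P hP hPm
    rw [hm] at hPm ⊢
    obtain ⟨Q, hQ, hPQ⟩ := exists_assoc
      (fun Q hQ => hirr Q (Multiset.mem_filter.1 hQ).1) hP hPm
    obtain ⟨-, hQb⟩ := Multiset.mem_filter.1 hQ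
    rcases hQb with h2 | h2
    · exact Or.inl (hPQ.dvd.trans h2)
    · right
      have h3 : P ^ 2 ∣ A.prod * (R.prod * (v : K[X])) := by
        rw [← hFm]
        exact (pow_dvd_pow_of_dvd hPQ.dvd 2).trans h2
      have h4 : IsCoprime (P ^ 2) (R.prod * (v : K[X])) := by
        apply IsCoprime.pow_left
        have h5 : IsCoprime (R.prod * (v : K[X])) A.prod := hcop.of_mul_right_left
        exact (h5.symm).of_isCoprime_of_dvd_left hPm
      exact h4.dvd_of_dvd_mul_right h3

open Classical in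
/-- the degree of `m` is bounded, if `F` has no large square divisors and no high powers of small
primes -/
lemma natDegree_mp (θ F : K[X]) (hF : F ≠ 0) (hθ : θ ≠ 0) (M₁ K₁ : ℕ) (hM : θ.natDegree ≤ M₁)
    (S : Finset K[X]) (hS : ∀ P : K[X], P.Monic → Irreducible P → P.natDegree ≤ M₁ → P ∈ S)
    (h1 : ∀ P : K[X], P.Monic → Irreducible P → P ^ 2 ∣ F → P.natDegree ≤ M₁)
    (h2 : ∀ P : K[X], P.Monic → Irreducible P → P.natDegree ≤ M₁ → ¬ P ^ K₁ ∣ F) :
    (mp θ F).natDegree ≤ K₁ * ∑ P ∈ S, P.natDegree := by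
  set N := normalizedFactors F with hN
  set A := N.filter (fun P => P ∣ θ ∨ P ^ 2 ∣ F) with hA
  have hm : mp θ F = A.prod := by
    unfold mp
    rw [hA, hN]
  have hirr : ∀ P ∈ N, Irreducible P := fun P hP => irreducible_of_normalized_factor P hP
  have hmon : ∀ P ∈ N, P.Monic := fun P hP => monic_of_mem hP
  have hAN : ∀ P ∈ A, P ∈ N := fun P hP => (Multiset.mem_filter.1 hP).1
  have hdeg : ∀ P ∈ A, P.natDegree ≤ M₁ := by
    intro P hP
    obtain ⟨hPN, hPb⟩ := Multiset.mem_filter.1 hP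
    rcases hPb with h3 | h3
    · exact (natDegree_le_of_dvd h3 hθ).trans hM
    · exact h1 P (hmon P hPN) (hirr P hPN) h3
  have hcount : ∀ P ∈ A, A.count P ≤ K₁ := by
    intro P hP
    by_contra hlt
    push Not at hlt
    apply h2 P (hmon P (hAN P hP)) (hirr P (hAN P hP)) (hdeg P hP)
    have h3 : Multiset.replicate K₁ P ≤ N :=
      (Multiset.le_count_iff_replicate_le.1 hlt.le).trans (Multiset.filter_le _ _)
    have h4 := Multiset.prod_dvd_prod_of_le h3
    rw [Multiset.prod_replicate] at h4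
    exact h4.trans (prod_normalizedFactors hF).dvd
  rw [hm, natDegree_multiset_prod_of_monic _ (fun P hP => hmon P (hAN P hP)),
    Finset.sum_multiset_map_count]
  calc ∑ P ∈ A.toFinset, A.count P • P.natDegree
      ≤ ∑ P ∈ A.toFinset, K₁ * P.natDegree := by
        refine Finset.sum_le_sum fun P hP => ?_
        rw [smul_eq_mul]
        exact Nat.mul_le_mul_right _ (hcount P (Multiset.mem_toFinset.1 hP))
    _ ≤ ∑ P ∈ S, K₁ * P.natDegree := by
        refine Finset.sum_le_sum_of_subset fun P hP => ?_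
        have hPA := Multiset.mem_toFinset.1 hP
        exact hS P (hmon P (hAN P hPA)) (hirr P (hAN P hPA)) (hdeg P hPA)
    _ = _ := by rw [Finset.mul_sum]

end Mpart

section numbers

lemma pow_le_half {q : ℝ} (hq : 2 ≤ q) {n a t : ℕ} (ha : a ≤ n) (ht : t ≤ a) :
    q ^ (n - a) ≤ q ^ n * (1 / 2) ^ t := by
  have h1 : q ^ n = q ^ (n - a) * q ^ a := by
    rw [← pow_add, Nat.sub_add_cancel ha]
  have h2 : (1 : ℝ) ≤ q ^ a * (1 / 2) ^ t := by
    have h3 : (2 : ℝ) ^ t ≤ q ^ a :=
      (pow_le_pow_left₀ (by norm_num) hq t).trans (pow_le_pow_right₀ (by linarith) ht)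
    calc (1 : ℝ) = 2 ^ t * (1 / 2) ^ t := by
          rw [← mul_pow]
          norm_num
      _ ≤ q ^ a * (1 / 2) ^ t := mul_le_mul_of_nonneg_right h3 (by positivity)
  rw [h1, mul_assoc]
  exact le_mul_of_one_le_right (by positivity) h2

lemma sum_half (M₁ : ℕ) : ∀ m, ∑ d ∈ Finset.Ioc M₁ m, (1 / 2 : ℝ) ^ d ≤ (1 / 2) ^ M₁ := by
  have key : ∀ k, ∑ d ∈ Finset.Ioc M₁ (M₁ + k), (1 / 2 : ℝ) ^ d = (1 / 2) ^ M₁ - (1 / 2) ^ (M₁ + k) := by
    intro k
    induction k with
    | zero => simp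
    | succ k ih =>
      rw [← add_assoc, Finset.sum_Ioc_succ_top (by omega), ih, pow_succ (1 / 2 : ℝ) (M₁ + k)]
      ring
  intro m
  rcases le_total M₁ m with h | h
  · obtain ⟨k, rfl⟩ := Nat.exists_eq_add_of_le h
    rw [key]
    have : (0 : ℝ) ≤ (1 / 2) ^ (M₁ + k) := by positivity
    linarith
  · rw [Finset.Ioc_eq_empty (by omega), Finset.sum_empty]
    positivity

lemma exists_half (B c : ℝ) (hB : 0 ≤ B) (hc : 0 < c) :
    ∃ t : ℕ, ∀ s, t ≤ s → B * (1 / 2 : ℝ) ^ s ≤ c := by
  obtain ⟨t, ht⟩ := exists_pow_lt_of_lt_one (show 0 < c / (B + 1) by positivity)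
    (show (1 / 2 : ℝ) < 1 by norm_num)
  refine ⟨t, fun s hs => ?_⟩
  have h1 : (1 / 2 : ℝ) ^ s ≤ (1 / 2) ^ t :=
    pow_le_pow_of_le_one (by norm_num) (by norm_num) hs
  rw [lt_div_iff₀ (by positivity)] at ht
  have h2 : (0 : ℝ) ≤ (1 / 2) ^ t := by positivity
  calc B * (1 / 2 : ℝ) ^ s ≤ B * (1 / 2) ^ t := mul_le_mul_of_nonneg_left h1 hB
    _ ≤ (1 / 2 : ℝ) ^ t * (B + 1) := by nlinarith
    _ ≤ c := ht.le

end numbers

end TailMAux

open TailMAux

open Classical in
theorem tailM (hc : S_cntM) (hb : S_bigM) : S_tailM := by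
  intro K _ _ _ θ ε δ hθ η hη
  have hq2 : (2 : ℝ) ≤ (Fintype.card K : ℝ) := by
    have : 2 ≤ Fintype.card K := Fintype.one_lt_card
    exact_mod_cast this
  set q : ℝ := (Fintype.card K : ℝ) with hq
  obtain ⟨B, nb, hbig⟩ := hb K θ ε δ hθ
  obtain ⟨tB, htB⟩ := exists_half B (η / 3) (by positivity) (by positivity)
  obtain ⟨tM, htM⟩ := exists_half 2 (η / 3) (by norm_num) (by positivity)
  set M₁ : ℕ := max tM (max θ.natDegree 1) with hM₁
  -- the small primes
  have hSfin : {P : K[X] | P.Monic ∧ Irreducible P ∧ P.natDegree ≤ M₁}.Finite := by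
    refine Set.Finite.subset
      (Set.Finite.biUnion (Finset.range (M₁ + 1)).finite_toSet fun d _ => MD_finite (K := K) d) ?_
    intro P hP
    refine Set.mem_biUnion (x := P.natDegree) ?_ ⟨hP.1, rfl⟩
    simp only [Finset.coe_range, Set.mem_Iio]
    have := hP.2.2
    omega
  set S : Finset K[X] := hSfin.toFinset with hS
  have hSmem : ∀ P : K[X], P ∈ S ↔ P.Monic ∧ Irreducible P ∧ P.natDegree ≤ M₁ := by
    intro P
    rw [hS, Set.Finite.mem_toFinset]
    rfl
  set τ : ℕ := (θ ^ 2).natDegree with hτ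
  obtain ⟨tS, htS⟩ := exists_half (2 * (S.card : ℝ)) (η / 3) (by positivity) (by positivity)
  set K₁ : ℕ := τ + (tS + 1) with hK₁
  refine ⟨K₁ * ∑ P ∈ S, P.natDegree, max (max nb (2 * tB)) ((tS + 1) * M₁), fun n hn => ?_⟩
  have hn1 : nb ≤ n := by omega
  have hn2 : tB ≤ n / 2 := by omega
  have hn3 : (tS + 1) * M₁ ≤ n := by omega
  -- everything as finsets
  set G : Finset K[X] := (MD_finite (K := K) n).toFinset with hG
  have hcard : ∀ (p : K[X] → Prop) [DecidablePred p],
      (MD K n ∩ {g | p g}).ncard = (G.filter p).card := by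
    intro p _
    rw [← Set.ncard_coe_finset]
    congr 1
    ext g
    simp [hG]
  rw [hcard]
  set A : Finset K[X] := S.biUnion fun P => G.filter fun g => P ^ K₁ ∣ fM θ ε δ g with hA
  set Bs : Finset K[X] := (Finset.Ioc M₁ (n / 2)).biUnion fun d =>
    ((MD_finite (K := K) d).toFinset.filter Irreducible).biUnion fun P =>
      G.filter fun g => P ^ 2 ∣ fM θ ε δ g with hBs
  set Cs : Finset K[X] := G.filter fun g => ∃ P : K[X], Irreducible P ∧ n < 2 * P.natDegree ∧
    P ^ 2 ∣ fM θ ε δ g with hCs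
  have hsub : (G.filter fun g => ¬ ∃ m : K[X], m.natDegree ≤ K₁ * ∑ P ∈ S, P.natDegree ∧
      GM θ m (fM θ ε δ g)) ⊆ A ∪ (Bs ∪ Cs) := by
    intro g hg
    obtain ⟨hgG, hgm⟩ := Finset.mem_filter.1 hg
    by_contra hno
    rw [Finset.mem_union, Finset.mem_union] at hno
    push Not at hno
    obtain ⟨hnA, hnB, hnC⟩ := hno
    apply hgm
    have hA' : ∀ P : K[X], P.Monic → Irreducible P → P.natDegree ≤ M₁ →
        ¬ P ^ K₁ ∣ fM θ ε δ g := by
      intro P h1 h2 h3 h4
      exact hnA (Finset.mem_biUnion.2 ⟨P, (hSmem P).2 ⟨h1, h2, h3⟩,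
        Finset.mem_filter.2 ⟨hgG, h4⟩⟩)
    have hF : fM θ ε δ g ≠ 0 := by
      intro h0
      apply hA' X monic_X irreducible_X (by rw [natDegree_X]; omega)
      rw [h0]
      exact dvd_zero _
    refine ⟨mp θ (fM θ ε δ g), ?_, GM_mp θ _ hF⟩
    refine natDegree_mp θ _ hF hθ M₁ K₁ (by omega) S
      (fun P h1 h2 h3 => (hSmem P).2 ⟨h1, h2, h3⟩) ?_ hA'
    intro P h1 h2 h3
    by_contra hlt
    push Not at hlt
    by_cases h4 : n < 2 * P.natDegree
    · exact hnC (Finset.mem_filter.2 ⟨hgG, P, h2, h4, h3⟩)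
    · apply hnB
      rw [hBs, Finset.mem_biUnion]
      refine ⟨P.natDegree, Finset.mem_Ioc.2 ⟨hlt, by omega⟩, ?_⟩
      rw [Finset.mem_biUnion]
      refine ⟨P, Finset.mem_filter.2 ⟨?_, h2⟩, Finset.mem_filter.2 ⟨hgG, h3⟩⟩
      rw [Set.Finite.mem_toFinset]
      exact ⟨h1, rfl⟩
  -- the three bounds
  have hAb : (A.card : ℝ) ≤ η / 3 * q ^ n := by
    have h1 : ∀ P ∈ S, ((G.filter fun g => P ^ K₁ ∣ fM θ ε δ g).card : ℝ) ≤
        2 * (q ^ n * (1 / 2) ^ (tS + 1)) := by
      intro P hP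
      obtain ⟨hPm, hPi, hPd⟩ := (hSmem P).1 hP
      have hPd1 : 1 ≤ P.natDegree := hPi.natDegree_pos
      have hle : (K₁ - τ) * P.natDegree ≤ n := by
        have h2 : K₁ - τ = tS + 1 := by omega
        rw [h2]
        exact (Nat.mul_le_mul_left _ hPd).trans hn3
      have h3 := hc K θ ε δ P τ K₁ n hθ hPi (by
        intro hd
        have h4 := natDegree_le_of_dvd hd (pow_ne_zero 2 hθ)
        rw [natDegree_pow] at h4
        have h5 : τ + 1 ≤ (τ + 1) * P.natDegree := Nat.le_mul_of_pos_right _ hPd1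
        omega) (by omega) hle
      rw [hcard] at h3
      have h4 : ((G.filter fun g => P ^ K₁ ∣ fM θ ε δ g).card : ℝ) ≤
          2 * q ^ (n - (K₁ - τ) * P.natDegree) := by
        rw [hq]
        exact_mod_cast h3
      refine h4.trans (mul_le_mul_of_nonneg_left ?_ (by norm_num))
      refine pow_le_half hq2 hle ?_
      have h2 : K₁ - τ = tS + 1 := by omega
      rw [h2]
      exact Nat.le_mul_of_pos_right _ hPd1
    calc (A.card : ℝ) ≤ ∑ P ∈ S, ((G.filter fun g => P ^ K₁ ∣ fM θ ε δ g).card : ℝ) := by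
          exact_mod_cast Finset.card_biUnion_le
      _ ≤ ∑ P ∈ S, 2 * (q ^ n * (1 / 2) ^ (tS + 1)) := Finset.sum_le_sum h1
      _ = (2 * (S.card : ℝ) * (1 / 2) ^ (tS + 1)) * q ^ n := by
          rw [Finset.sum_const, nsmul_eq_mul]
          ring
      _ ≤ η / 3 * q ^ n :=
          mul_le_mul_of_nonneg_right (htS (tS + 1) (by omega)) (by positivity)
  have hBb : (Bs.card : ℝ) ≤ η / 3 * q ^ n := by
    have h1 : ∀ d ∈ Finset.Ioc M₁ (n / 2),
        ((((MD_finite (K := K) d).toFinset.filter Irreducible).biUnion fun P =>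
          G.filter fun g => P ^ 2 ∣ fM θ ε δ g).card : ℝ) ≤ 2 * q ^ n * (1 / 2) ^ d := by
      intro d hd
      obtain ⟨hd1, hd2⟩ := Finset.mem_Ioc.1 hd
      have h2 : ∀ P ∈ (MD_finite (K := K) d).toFinset.filter Irreducible,
          ((G.filter fun g => P ^ 2 ∣ fM θ ε δ g).card : ℝ) ≤ 2 * q ^ (n - 2 * d) := by
        intro P hP
        obtain ⟨hPm, hPi⟩ := Finset.mem_filter.1 hP
        rw [Set.Finite.mem_toFinset] at hPm
        have h3 := hc K θ ε δ P 0 2 n hθ hPi (by
          intro hdv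
          rw [zero_add, pow_one] at hdv
          have h4 := natDegree_le_of_dvd (hPi.prime.dvd_of_dvd_pow hdv) hθ
          rw [hPm.2] at h4
          omega) (by omega) (by rw [hPm.2]; omega)
        rw [hcard, hPm.2, Nat.sub_zero] at h3
        rw [hq]
        exact_mod_cast h3
      have h5 : (((MD_finite (K := K) d).toFinset.filter Irreducible).card : ℝ) ≤ q ^ d := by
        have h6 : ((MD_finite (K := K) d).toFinset.filter Irreducible).card ≤
            Fintype.card K ^ d :=
          (Finset.card_filter_le _ _).trans (by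
            rw [← Set.ncard_eq_toFinset_card _ (MD_finite (K := K) d)]
            exact MD_ncard d)
        rw [hq]
        exact_mod_cast h6
      calc ((((MD_finite (K := K) d).toFinset.filter Irreducible).biUnion fun P =>
          G.filter fun g => P ^ 2 ∣ fM θ ε δ g).card : ℝ)
          ≤ ∑ P ∈ (MD_finite (K := K) d).toFinset.filter Irreducible,
            ((G.filter fun g => P ^ 2 ∣ fM θ ε δ g).card : ℝ) := by
            exact_mod_cast Finset.card_biUnion_le
        _ ≤ ∑ P ∈ (MD_finite (K := K) d).toFinset.filter Irreducible, 2 * q ^ (n - 2 * d) :=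
            Finset.sum_le_sum h2
        _ = (((MD_finite (K := K) d).toFinset.filter Irreducible).card : ℝ) *
            (2 * q ^ (n - 2 * d)) := by rw [Finset.sum_const, nsmul_eq_mul]
        _ ≤ q ^ d * (2 * q ^ (n - 2 * d)) := mul_le_mul_of_nonneg_right h5 (by positivity)
        _ = 2 * q ^ (n - d) := by
            have h7 : n - d = d + (n - 2 * d) := by omega
            rw [h7, pow_add]
            ring
        _ ≤ 2 * (q ^ n * (1 / 2) ^ d) :=
            mul_le_mul_of_nonneg_left (pow_le_half hq2 (by omega) le_rfl) (by norm_num)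
        _ = 2 * q ^ n * (1 / 2) ^ d := by ring
    calc (Bs.card : ℝ) ≤ ∑ d ∈ Finset.Ioc M₁ (n / 2),
          ((((MD_finite (K := K) d).toFinset.filter Irreducible).biUnion fun P =>
          G.filter fun g => P ^ 2 ∣ fM θ ε δ g).card : ℝ) := by
          exact_mod_cast Finset.card_biUnion_le
      _ ≤ ∑ d ∈ Finset.Ioc M₁ (n / 2), 2 * q ^ n * (1 / 2) ^ d := Finset.sum_le_sum h1
      _ = 2 * q ^ n * ∑ d ∈ Finset.Ioc M₁ (n / 2), (1 / 2 : ℝ) ^ d := by rw [Finset.mul_sum]
      _ ≤ 2 * q ^ n * (1 / 2) ^ M₁ :=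
          mul_le_mul_of_nonneg_left (sum_half _ _) (by positivity)
      _ = (2 * (1 / 2) ^ M₁) * q ^ n := by ring
      _ ≤ η / 3 * q ^ n :=
          mul_le_mul_of_nonneg_right (htM M₁ (le_max_left _ _)) (by positivity)
  have hCb : (Cs.card : ℝ) ≤ η / 3 * q ^ n := by
    have h1 := hbig n hn1
    rw [hcard] at h1
    have h2 : (Cs.card : ℝ) ≤ B * q ^ (n / 2) := by
      rw [hq]
      exact_mod_cast h1
    have h3 : n / 2 = n - (n - n / 2) := by omega
    have h4 : q ^ (n / 2) ≤ q ^ n * (1 / 2) ^ (n / 2) := by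
      conv_lhs => rw [h3]
      exact pow_le_half hq2 (by omega) (by omega)
    calc (Cs.card : ℝ) ≤ B * q ^ (n / 2) := h2
      _ ≤ B * (q ^ n * (1 / 2) ^ (n / 2)) := mul_le_mul_of_nonneg_left h4 (by positivity)
      _ = (B * (1 / 2) ^ (n / 2)) * q ^ n := by ring
      _ ≤ η / 3 * q ^ n := mul_le_mul_of_nonneg_right (htB _ hn2) (by positivity)
  have htot : ((G.filter fun g => ¬ ∃ m : K[X], m.natDegree ≤ K₁ * ∑ P ∈ S, P.natDegree ∧
      GM θ m (fM θ ε δ g)).card : ℝ) ≤ (A.card : ℝ) + ((Bs.card : ℝ) + (Cs.card : ℝ)) := by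
    have h1 := (Finset.card_le_card hsub).trans ((Finset.card_union_le _ _).trans
      (Nat.add_le_add_left (Finset.card_union_le _ _) _))
    exact_mod_cast h1
  calc _ ≤ (A.card : ℝ) + ((Bs.card : ℝ) + (Cs.card : ℝ)) := htot
    _ ≤ η / 3 * q ^ n + (η / 3 * q ^ n + η / 3 * q ^ n) := add_le_add hAb (add_le_add hBb hCb)
    _ = η * q ^ n := by ring

end Pool.Agent.H140.Q
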