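import Pool.Agent.H140.Q.Win
import Pool.Agent.H140.Q.StmM

/-!
# The window bound for quadratic polynomials in characteristic two (task WINM, helper297)
-/

set_option autoImplicit false
set_option linter.unusedSectionVars false

namespace Pool.Agent.H140.Q

open Polynomial
open Pool.Agent.H524 (AC)
open Pool.Agent.H985.Chow (mob MD PD PDc Good Wr Wl)
open Pool.Agent.H985.Chow.Win

namespace WinM

section key

variable {K : Type} [Field K] [Fintype K] [CharP K 2]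

lemma key_psi (hkey : S_keyM) {n c₀ : ℕ} {c : K} {θ x₁ x₂ y ε δ e h m g₁ g₂ : K[X]} (hc : c ≠ 0)
    (hθ : θ ≠ 0) (he : e.Monic) (hh : h.Monic) (hm : m.Monic) (heh : IsCoprime e h)
    (hs : Squarefree h) (hth : IsCoprime θ h) (hmh : IsCoprime m h)
    (hb : θ * y + δ = C c * (e * h))
    (m1 : (x₁ ^ 2 + X * y ^ 2).Monic)
    (d1 : (x₁ ^ 2 + X * y ^ 2).natDegree = n)
    (m2 : (x₂ ^ 2 + X * y ^ 2).Monic)
    (d2 : (x₂ ^ 2 + X * y ^ 2).natDegree = n)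
    (f1 : (UM θ ε x₁ y) ^ 2 + X * (C c * (e * h)) ^ 2 = m * g₁)
    (f2 : (UM θ ε x₂ y) ^ 2 + X * (C c * (e * h)) ^ 2 = m * g₂)
    (c1 : IsCoprime g₁ (θ * m * (e * h))) (c2 : IsCoprime g₂ (θ * m * (e * h)))
    (h5 : (e * θ * m) ^ 5 ∣ x₂ - x₁)
    (k1 : (ε ^ 2 + X * δ ^ 2).natDegree ≤ c₀) (k2 : 4 * θ.natDegree ≤ c₀) (k3 : m.natDegree ≤ c₀)
    (k4 : n + 2 * (x₂ - x₁).natDegree + 2 * c₀ + 2 ≤ 4 * (e * h).natDegree)
    (k5 : 2 * (e * h).natDegree + 2 * θ.natDegree ≤ n + c₀)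
    (k6 : 2 * (x₂ - x₁).natDegree + 2 * c₀ + 4 ≤ n)
    {I : Finset K[X]} (hI : ∀ P ∈ I, P.Monic ∧ Irreducible P) (hp : ∏ P ∈ I, P = h)
    [inst : ∀ i : {P // P ∈ I}, Fact (Irreducible i.1)] :
    ((mob g₁ : ℤ) : ℂ) * ((mob g₂ : ℤ) : ℂ) =
      (∏ i : {P // P ∈ I}, psiP i.1 (Tl i.1 (UM θ ε x₁ y) (C c * (e * h)))) *
        ∏ i : {P // P ∈ I}, psiP i.1 (Tl i.1 (UM θ ε x₂ y) (C c * (e * h))) := by
  classical
  obtain ⟨w, hw, hm⟩ := hkey K n c₀ c θ x₁ x₂ y ε δ e h m g₁ g₂ hc hθ he hh hm heh hs hth hmh hb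
    m1 d1 m2 d2 f1 f2 c1 c2 h5 k1 k2 k3 k4 k5 k6
  have hsum : ∀ A : K[X], ∑ ρ ∈ (h.aroots (AC K)).toFinset, Wr A (C c * (e * h)) ρ =
      algebraMap K (AC K) (∑ i : {P // P ∈ I}, Algebra.trace K (AdjoinRoot i.1)
        (Tl i.1 A (C c * (e * h)))) := by
    intro A
    rw [roots_union hh.ne_zero hI hp, map_sum, ← Finset.sum_coe_sort I]
    exact Finset.sum_congr rfl fun i _ => (sum_Wr i.1 A _).symm
  have hw' : w = (∑ i : {P // P ∈ I}, Algebra.trace K (AdjoinRoot i.1)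
        (Tl i.1 (UM θ ε x₁ y) (C c * (e * h)))) +
        ∑ i : {P // P ∈ I}, Algebra.trace K (AdjoinRoot i.1)
        (Tl i.1 (UM θ ε x₂ y) (C c * (e * h))) := by
    apply (algebraMap K (AC K)).injective
    rw [hw, Finset.sum_add_distrib, hsum, hsum, map_add]
  have hps : ((if ∃ x : K, x ^ 2 + x = w then (1 : ℤ) else -1 : ℤ) : ℂ) = psiK K w := by
    rw [psiK_apply]
    split_ifs <;> simp
  rw [← Int.cast_mul, hm, hps, hw', AddChar.map_add_eq_mul, char_sum, char_sum]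
  rfl

end key

section main

variable {K : Type} [Field K] [Fintype K] [CharP K 2]

section loc

variable (P : K[X]) [hP : Fact (Irreducible P)]

/-- the local function at `P` -/
noncomputable def GPm (b θ ε y : K[X]) (v : AdjoinRoot P × AdjoinRoot P) : ℂ :=
  Glm (psiP P) (AdjoinRoot.mk P (derivative b)) (AdjoinRoot.root P) (AdjoinRoot.mk P θ)
    (AdjoinRoot.mk P (derivative θ))
    (AdjoinRoot.mk P (X * y ^ 2 + ε)) (AdjoinRoot.mk P (y ^ 2 + derivative ε)) v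

lemma mk_U (θ ε x y : K[X]) : AdjoinRoot.mk P x ^ 2 + AdjoinRoot.mk P θ *
    AdjoinRoot.mk P x + AdjoinRoot.mk P (X * y ^ 2 + ε) = AdjoinRoot.mk P (UM θ ε x y) := by
  rw [← map_pow, ← map_mul, ← map_add, ← map_add]
  unfold UM
  congr 1
  ring

lemma der_U (θ ε x y : K[X]) : derivative (UM θ ε x y) =
    θ * derivative x + derivative θ * x + (y ^ 2 + derivative ε) := by
  unfold UM
  rw [derivative_add, derivative_add, derivative_add, derivative_mul, derivative_mul,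
    derivative_X, derivative_pow, derivative_pow]
  have h2 : (C ((2 : ℕ) : K) : K[X]) = 0 := by
    have h : ((2 : ℕ) : K) = 0 := CharP.cast_eq_zero K 2
    rw [h, C_0]
  rw [h2]
  ring

lemma mk_dU (θ ε x y : K[X]) : AdjoinRoot.mk P θ * AdjoinRoot.mk P (derivative x) +
    AdjoinRoot.mk P (derivative θ) * AdjoinRoot.mk P x +
    AdjoinRoot.mk P (y ^ 2 + derivative ε) = AdjoinRoot.mk P (derivative (UM θ ε x y)) := by
  rw [der_U, map_add (AdjoinRoot.mk P) (θ * derivative x + derivative θ * x),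
    map_add (AdjoinRoot.mk P) (θ * derivative x), map_mul, map_mul]

lemma GPm_zero {b θ ε x y : K[X]} (h : P ∣ UM θ ε x y) :
    GPm P b θ ε y (rr P x) = 0 := by
  unfold GPm Glm
  rw [if_pos]
  show AdjoinRoot.mk P x ^ 2 + AdjoinRoot.mk P θ * AdjoinRoot.mk P x +
    AdjoinRoot.mk P (X * y ^ 2 + ε) = 0
  rw [mk_U]
  exact AdjoinRoot.mk_eq_zero.2 h

lemma GPm_ne {b θ ε x y : K[X]} (h : ¬ P ∣ UM θ ε x y) :
    GPm P b θ ε y (rr P x) = psiP P (Tl P (UM θ ε x y) b) := by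
  unfold GPm Glm
  have e1 : (rr P x).1 ^ 2 + AdjoinRoot.mk P θ * (rr P x).1 +
      AdjoinRoot.mk P (X * y ^ 2 + ε) = AdjoinRoot.mk P (UM θ ε x y) := mk_U P θ ε x y
  have e2 : AdjoinRoot.mk P θ * (rr P x).2 + AdjoinRoot.mk P (derivative θ) * (rr P x).1 +
      AdjoinRoot.mk P (y ^ 2 + derivative ε) = AdjoinRoot.mk P (derivative (UM θ ε x y)) :=
    mk_dU P θ ε x y
  rw [e1, e2, if_neg]
  · rfl
  · exact fun h1 => h (AdjoinRoot.mk_eq_zero.1 h1)

lemma th_ne {θ h : K[X]} (hth : IsCoprime θ h) (hd : P ∣ h) : AdjoinRoot.mk P θ ≠ 0 := by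
  intro h1
  exact hP.out.not_isUnit (hth.isUnit_of_dvd' (AdjoinRoot.mk_eq_zero.1 h1) hd)

end loc

open Classical in
lemma cmp_gen (hloc : S_locM) (hcmp : Pool.Agent.H985.Chow.S_cmp) (ι : Type) [Fintype ι]
    (F : ι → Type)
    [∀ i, Field (F i)] [∀ i, Fintype (F i)] [∀ i, CharP (F i) 2] (U : Type) [AddCommGroup U]
    [Fintype U] (φ : ∀ i, U →+ F i × F i) (ψ : ∀ i, AddChar (F i) ℂ) (h1 : ∀ i, ψ i ≠ 1)
    (h2 : ∀ i x, ψ i (x ^ 2) = ψ i x) (β x κ τ c σ : ∀ i, F i) (h3 : ∀ i, β i ≠ 0)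
    (h4 : ∀ i, κ i ≠ 0) (p : ι → Prop) (hinj : ∀ u, (∀ i, ¬ p i → φ i u = 0) → u = 0)
    (v : ∀ i, F i × F i) :
    ‖∑ u : U, ∏ i, Glm (ψ i) (β i) (x i) (κ i) (τ i) (c i) (σ i) (v i + φ i u)‖ ≤
      ∏ i, ((Fintype.card (F i) : ℝ) * (if p i then 1 / Real.sqrt 2 else 8)) := by
  refine hcmp ι (fun i => F i × F i) U φ
    (fun i => Glm (ψ i) (β i) (x i) (κ i) (τ i) (c i) (σ i))
    (Finset.univ.filter p) ?_ _ ?_ ?_ ?_ v
  · intro u hu
    refine hinj u fun i hi => hu i ?_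
    rw [Finset.mem_filter]
    exact fun h => hi h.2
  · intro i
    split_ifs <;> positivity
  · intro i hi χ
    rw [Finset.mem_filter] at hi
    rw [if_neg fun h => hi ⟨Finset.mem_univ _, h⟩, mul_comm]
    exact (hloc (F i) (ψ i) (h1 i) (h2 i) (β i) (x i) (κ i) (τ i) (c i) (σ i) (h3 i) (h4 i)).1 χ
  · intro i hi
    rw [Finset.mem_filter] at hi
    rw [if_pos hi.2]
    refine (hloc (F i) (ψ i) (h1 i) (h2 i) (β i) (x i) (κ i) (τ i) (c i) (σ i) (h3 i)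
      (h4 i)).2.trans (le_of_eq ?_)
    rw [Fintype.card_prod]
    push_cast
    ring

open Classical in
lemma cmp_bd (hloc : S_locM) (hcmp : Pool.Agent.H985.Chow.S_cmp) {c : K} {θ x y ε e h E : K[X]}
    {L : ℕ} {z : ℝ}
    (hc : c ≠ 0) (hth : IsCoprime θ h) (heh : IsCoprime e h) (hs : Squarefree h)
    (hEh : IsCoprime E h) (hL : 1 ≤ L) [Fintype (degreeLT K L)]
    {I : Finset K[X]} (hI : ∀ P ∈ I, P.Monic ∧ Irreducible P) (hp : ∏ P ∈ I, P = h)
    [inst : ∀ i : {P // P ∈ I}, Fact (Irreducible i.1)]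
    (hwin : L + 2 * (∑ P ∈ I with (P.natDegree : ℝ) ≤ z, P.natDegree) ≤ 2 * h.natDegree) :
    ‖∑ u : degreeLT K L, ∏ i : {P // P ∈ I},
        GPm i.1 (C c * (e * h)) θ ε y (rr i.1 (x + E * u.1))‖ ≤
      ∏ i : {P // P ∈ I}, ((Fintype.card (AdjoinRoot i.1) : ℝ) *
        (if (i.1.natDegree : ℝ) ≤ z then 1 / Real.sqrt 2 else 8)) := by
  have hd : ∀ i : {P // P ∈ I}, i.1 ∣ h := fun i => by
    rw [← hp]
    exact Finset.dvd_prod_of_mem _ i.2
  have key := cmp_gen hloc hcmp {P // P ∈ I} (fun i => AdjoinRoot i.1) (degreeLT K L)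
    (fun i => phi E L i.1) (fun i => psiP i.1) (fun i => psiP_ne i.1) (fun i => psiP_sq i.1)
    (fun i => AdjoinRoot.mk i.1 (derivative (C c * (e * h)))) (fun i => AdjoinRoot.root i.1)
    (fun i => AdjoinRoot.mk i.1 θ) (fun i => AdjoinRoot.mk i.1 (derivative θ))
    (fun i => AdjoinRoot.mk i.1 (X * y ^ 2 + ε))
    (fun i => AdjoinRoot.mk i.1 (y ^ 2 + derivative ε))
    (fun i => be_ne i.1 hc heh hs (hd i)) (fun i => th_ne i.1 hth (hd i))
    (fun i => (i.1.natDegree : ℝ) ≤ z)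
    (fun u hu => inj_aux hL hI hp hEh (fun P => (P.natDegree : ℝ) ≤ z) hwin u hu)
    (fun i => rr i.1 x)
  have e1 : ∀ (u : degreeLT K L) (i : {P // P ∈ I}),
      rr i.1 x + phi E L i.1 u = rr i.1 (x + E * u.1) := fun u i => (rr_add i.1 _ _).symm
  simp only [e1] at key
  exact key

end main

section fin

variable {K : Type} [Field K] [Fintype K] [CharP K 2]

/-- the value of `f` -/
noncomputable def fu (b θ ε x y : K[X]) : K[X] := (UM θ ε x y) ^ 2 + X * b ^ 2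

lemma fu_shift {b θ ε x y e m E : K[X]} (h : (e * θ * m) ^ 5 ∣ E) (u : K[X]) :
    ∃ s : K[X], fu b θ ε (x + E * u) y = fu b θ ε x y + m * ((e * (m * θ)) * s) := by
  obtain ⟨t, rfl⟩ := h
  refine ⟨e * θ * (e * θ * m) ^ 8 * (t * u * ((e * θ * m) ^ 5 * t * u + θ)) ^ 2, ?_⟩
  have h2 : (2 : K[X]) = 0 := two0
  unfold fu UM
  generalize hw : (e * θ * m) ^ 5 * t * u = w
  have e1 : m * (e * (m * θ) * (e * θ * (e * θ * m) ^ 8 * (t * u * (w + θ)) ^ 2)) =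
      (w ^ 2 + θ * w) ^ 2 := by
    rw [← hw]
    ring
  rw [e1]
  linear_combination ((x ^ 2 + X * y ^ 2 + θ * x + ε) * (w ^ 2 + θ * w) +
    2 * x * w * (x ^ 2 + X * y ^ 2 + θ * x + ε + w ^ 2 + θ * w) + 2 * x ^ 2 * w ^ 2) * h2

lemma mobM_mul {m θ g : K[X]} (hm : m ≠ 0) (h : IsCoprime g (m * θ)) :
    mobM m θ (m * g) = mob g := by
  unfold mobM
  rw [mul_div_cancel_left₀ g hm, if_pos ⟨Dvd.intro _ rfl, h⟩]

lemma mobM_mul0 {m θ g : K[X]} (hm : m ≠ 0) (h : ¬ IsCoprime g (m * θ)) :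
    mobM m θ (m * g) = 0 := by
  unfold mobM
  rw [mul_div_cancel_left₀ g hm, if_neg fun h1 => h h1.2]

lemma mob0 {m g U b P : K[X]} (hf : U ^ 2 + X * b ^ 2 = m * g) (hP : Irreducible P) (h1 : P ∣ U)
    (h2 : P ∣ b) (h3 : IsCoprime P m) : mob g = 0 := by
  unfold mob
  rw [if_neg]
  intro hs
  have h4 : P ^ 2 ∣ m * g := by
    rw [← hf]
    exact dvd_add (pow_dvd_pow_of_dvd h1 2) ((pow_dvd_pow_of_dvd h2 2).mul_left X)
  have h5 : P ^ 2 ∣ g := (h3.pow_left (m := 2)).dvd_of_dvd_mul_left h4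
  rw [sq] at h5
  exact hP.not_isUnit (hs P h5)

lemma cop_g1 {g e p s : K[X]} : IsCoprime (g + (e * p) * s) p ↔ IsCoprime g p := by
  have e1 : g + (e * p) * s = g + p * (e * s) := by ring
  rw [e1]
  exact IsCoprime.add_mul_left_left_iff

lemma cop_g2 {g e p s : K[X]} : IsCoprime (g + (e * p) * s) e ↔ IsCoprime g e := by
  have e1 : g + (e * p) * s = g + e * (p * s) := by ring
  rw [e1]
  exact IsCoprime.add_mul_left_left_iff

/-- the case when `g` is not prime to `e` -/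
lemma mob_e {m θ g U b e : K[X]} (he : e ≠ 0) (hf : U ^ 2 + X * b ^ 2 = m * g) (hb : e ∣ b)
    (hg : IsCoprime g (m * θ)) (hge : ¬ IsCoprime g e) : mob g = 0 := by
  have h1 : ∃ P, Irreducible P ∧ P ∣ g ∧ P ∣ e := by
    by_contra hcon
    apply hge
    apply isCoprime_of_irreducible_dvd
    · exact fun h => he h.2
    · exact fun z hz h2 h3 => hcon ⟨z, hz, h2, h3⟩
  obtain ⟨P, hP, hPg, hPe⟩ := h1
  have hPb : P ∣ b := hPe.trans hb
  have hPU : P ∣ U ^ 2 := by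
    have h2 : P ∣ U ^ 2 + X * b ^ 2 := by
      rw [hf]
      exact hPg.mul_left m
    exact (dvd_add_left ((dvd_pow hPb two_ne_zero).mul_left X)).1 h2
  refine mob0 hf hP (hP.prime.dvd_of_dvd_pow hPU) hPb ?_
  rw [hP.coprime_iff_not_dvd]
  intro h3
  exact hP.not_isUnit (hg.isUnit_of_dvd' hPg (h3.mul_right θ))

lemma cop_all {m θ g U e h : K[X]} {c : K} (hf : U ^ 2 + X * (C c * (e * h)) ^ 2 = m * g)
    (hg : IsCoprime g (m * θ)) (hge : IsCoprime g e) (hU : IsCoprime U h) :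
    IsCoprime g (θ * m * (e * h)) := by
  have h1 : IsCoprime (m * g) h := by
    have e1 : m * g = U ^ 2 + h * (X * C c ^ 2 * e ^ 2 * h) := by
      rw [← hf]
      ring
    rw [e1]
    exact IsCoprime.add_mul_left_left_iff.2 hU.pow_left
  have h2 : IsCoprime g h := h1.of_mul_left_right
  have h3 : IsCoprime g (θ * m) := by
    rw [mul_comm]
    exact hg
  exact h3.mul_right (hge.mul_right h2)

lemma eps (hkey : S_keyM) {n L c₀ : ℕ} {c : K} {θ x y ε δ e h m E : K[X]} (hc : c ≠ 0)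
    (hθ : θ ≠ 0)
    (he : e.Monic) (hh : h.Monic) (hm : m.Monic) (heh : IsCoprime e h) (hs : Squarefree h)
    (hth : IsCoprime θ h) (hmh : IsCoprime m h)
    (h5 : (e * θ * m) ^ 5 ∣ E) (hL : 1 ≤ L) (hb : θ * y + δ = C c * (e * h))
    (m1 : (x ^ 2 + X * y ^ 2).Monic)
    (d1 : (x ^ 2 + X * y ^ 2).natDegree = n)
    (k1 : (ε ^ 2 + X * δ ^ 2).natDegree ≤ c₀) (k2 : 4 * θ.natDegree ≤ c₀) (k3 : m.natDegree ≤ c₀)
    (k4 : n + 2 * (E.natDegree + (L - 1)) + 2 * c₀ + 2 ≤ 4 * (e * h).natDegree)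
    (k5 : 2 * (e * h).natDegree + 2 * θ.natDegree ≤ n + c₀)
    (k6 : 2 * (E.natDegree + (L - 1)) + 2 * c₀ + 4 ≤ n)
    {I : Finset K[X]} (hI : ∀ P ∈ I, P.Monic ∧ Irreducible P) (hp : ∏ P ∈ I, P = h)
    [inst : ∀ i : {P // P ∈ I}, Fact (Irreducible i.1)] :
    ∃ w : ℂ, ‖w‖ ≤ 1 ∧ ∀ u : K[X], u.degree < (L : WithBot ℕ) →
      ((mobM m θ (fu (C c * (e * h)) θ ε (x + E * u) y) : ℤ) : ℂ) =
      w * ∏ i : {P // P ∈ I}, GPm i.1 (C c * (e * h)) θ ε y (rr i.1 (x + E * u)) := by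
  classical
  have hm0 : m ≠ 0 := hm.ne_zero
  choose s hs' using fun u => fu_shift (b := C c * (e * h)) (ε := ε) (x := x) (y := y) h5 u
  by_cases hdm : m ∣ fu (C c * (e * h)) θ ε x y
  swap
  · refine ⟨0, by norm_num, fun u hu => ?_⟩
    have h0 : mobM m θ (fu (C c * (e * h)) θ ε (x + E * u) y) = 0 := by
      unfold mobM
      rw [if_neg]
      rintro ⟨h1, -⟩
      apply hdm
      rw [hs' u] at h1
      exact (dvd_add_left (Dvd.intro _ rfl)).1 h1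
    rw [h0, zero_mul, Int.cast_zero]
  obtain ⟨g₀, hg₀⟩ := hdm
  obtain ⟨g, hgdef⟩ : ∃ g : K[X] → K[X], ∀ u, g u = g₀ + (e * (m * θ)) * s u :=
    ⟨fun u => g₀ + (e * (m * θ)) * s u, fun _ => rfl⟩
  have hgu : ∀ u, fu (C c * (e * h)) θ ε (x + E * u) y = m * g u := by
    intro u
    rw [hs' u, hg₀, hgdef]
    ring
  by_cases hc0 : IsCoprime g₀ (m * θ)
  swap
  · refine ⟨0, by norm_num, fun u hu => ?_⟩
    have h1 : ¬ IsCoprime (g u) (m * θ) := by
      rw [hgdef, cop_g1]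
      exact hc0
    rw [hgu, mobM_mul0 hm0 h1, zero_mul, Int.cast_zero]
  have hcu : ∀ u, IsCoprime (g u) (m * θ) := by
    intro u
    rw [hgdef, cop_g1]
    exact hc0
  have hmu : ∀ u, mobM m θ (fu (C c * (e * h)) θ ε (x + E * u) y) = mob (g u) := by
    intro u
    rw [hgu, mobM_mul hm0 (hcu u)]
  simp only [hmu]
  have hfu : ∀ u, (UM θ ε (x + E * u) y) ^ 2 + X * (C c * (e * h)) ^ 2 = m * g u := hgu
  by_cases hA : IsCoprime g₀ e
  swap
  · refine ⟨0, by norm_num, fun u hu => ?_⟩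
    have h1 : ¬ IsCoprime (g u) e := by
      rw [hgdef, cop_g2]
      exact hA
    have h2 : e ∣ C c * (e * h) := (Dvd.intro _ rfl : e ∣ e * h).mul_left _
    rw [mob_e he.ne_zero (hfu u) h2 (hcu u) h1, zero_mul, Int.cast_zero]
  have hAu : ∀ u, IsCoprime (g u) e := by
    intro u
    rw [hgdef, cop_g2]
    exact hA
  have bad : ∀ u : K[X], ¬ IsCoprime (UM θ ε (x + E * u) y) h →
      ((mob (g u) : ℤ) : ℂ) = 0 := by
    intro u hu
    obtain ⟨i, hi⟩ := not_cop hI hp hu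
    have hdi : i.1 ∣ h := by
      rw [← hp]
      exact Finset.dvd_prod_of_mem _ i.2
    have hdb : i.1 ∣ C c * (e * h) := (hdi.mul_left e).mul_left _
    have hpm : IsCoprime i.1 m := (hmh.of_isCoprime_of_dvd_right hdi).symm
    rw [mob0 (hfu u) (hI i.1 i.2).2 hi hdb hpm, Int.cast_zero]
  by_cases hg : ∃ u₀ : K[X], u₀.degree < (L : WithBot ℕ) ∧ IsCoprime (UM θ ε (x + E * u₀) y) h
  swap
  · refine ⟨0, by norm_num, fun u hu => ?_⟩
    rw [zero_mul]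
    exact bad u fun h1 => hg ⟨u, hu, h1⟩
  obtain ⟨u₀, hu₀, g1⟩ := hg
  -- degrees
  have hEu : ∀ u : K[X], u.degree < (L : WithBot ℕ) →
      (E * u).natDegree ≤ E.natDegree + (L - 1) := fun u hu =>
    natDegree_mul_le.trans (Nat.add_le_add_left (nd_lt hL hu) _)
  have hdeg : ∀ u : K[X], u.degree < (L : WithBot ℕ) → ((E * u) ^ 2).natDegree < n := by
    intro u hu
    rw [natDegree_pow]
    have := hEu u hu
    omega
  have md1 : ∀ u : K[X], u.degree < (L : WithBot ℕ) →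
      ((x + E * u) ^ 2 + X * y ^ 2).Monic ∧
      ((x + E * u) ^ 2 + X * y ^ 2).natDegree = n := by
    intro u hu
    have e1 : (x + E * u) ^ 2 + X * y ^ 2 =
        (x ^ 2 + X * y ^ 2) + (E * u) ^ 2 := by
      rw [sq_add]
      ring
    rw [e1]
    exact win_mon m1 d1 (hdeg u hu)
  have K1 : ∀ u : K[X], u.degree < (L : WithBot ℕ) → IsCoprime (UM θ ε (x + E * u) y) h →
      ((mob (g u₀) : ℤ) : ℂ) * ((mob (g u) : ℤ) : ℂ) =
      XX (I := I) (C c * (e * h)) (UM θ ε (x + E * u₀) y) *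
        XX (I := I) (C c * (e * h)) (UM θ ε (x + E * u) y) := by
    intro u hu hcu'
    have e1 : (x + E * u) - (x + E * u₀) = E * (u - u₀) := by ring
    have hE2 := hEu (u - u₀) ((degree_sub_le u u₀).trans_lt (max_lt hu hu₀))
    refine key_psi hkey (δ := δ) hc hθ he hh hm heh hs hth hmh hb (md1 u₀ hu₀).1 (md1 u₀ hu₀).2
      (md1 u hu).1 (md1 u hu).2 (hfu u₀) (hfu u)
      (cop_all (hfu u₀) (hcu u₀) (hAu u₀) g1) (cop_all (hfu u) (hcu u) (hAu u) hcu')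
      ?_ k1 k2 k3 ?_ k5 ?_ hI hp
    · rw [e1]
      exact h5.mul_right _
    · rw [e1]
      omega
    · rw [e1]
      omega
  have P1 := K1 u₀ hu₀ g1
  rw [XX_pm] at P1
  generalize hM1 : ((mob (g u₀) : ℤ) : ℂ) = M1 at *
  have Q1 := XX_pm (I := I) (C c * (e * h)) (UM θ ε (x + E * u₀) y)
  refine ⟨M1 * XX (I := I) (C c * (e * h)) (UM θ ε (x + E * u₀) y), ?_, ?_⟩
  · rw [norm_mul, nrm1 P1, nrm1 Q1]
    norm_num
  intro u hu
  by_cases hgu' : IsCoprime (UM θ ε (x + E * u) y) h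
  · have R1 := K1 u hu hgu'
    have hprod : ∏ i : {P // P ∈ I}, GPm i.1 (C c * (e * h)) θ ε y (rr i.1 (x + E * u)) =
        XX (I := I) (C c * (e * h)) (UM θ ε (x + E * u) y) := by
      unfold XX
      apply Finset.prod_congr rfl
      intro i _
      have hdi : i.1 ∣ h := by
        rw [← hp]
        exact Finset.dvd_prod_of_mem _ i.2
      apply GPm_ne
      intro h1
      exact (inst i).out.not_isUnit (hgu'.isUnit_of_dvd' h1 hdi)
    rw [hprod]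
    linear_combination M1 * R1 - ((mob (g u) : ℤ) : ℂ) * P1
  · rw [bad u hgu']
    have hz : ∏ i : {P // P ∈ I}, GPm i.1 (C c * (e * h)) θ ε y (rr i.1 (x + E * u)) = 0 := by
      obtain ⟨i, hi⟩ := not_cop hI hp hgu'
      exact Finset.prod_eq_zero (Finset.mem_univ i) (GPm_zero i.1 hi)
    rw [hz, mul_zero]

end fin

end WinM

open WinM

/-- **Task WINM.** -/
theorem winM (hkey : S_keyM) (hloc : S_locM) (hcmp : Pool.Agent.H985.Chow.S_cmp) : S_winM := by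
  intro K _ _ _ n L c₀ c θ x y ε δ e h m E z hc hθ he hh hm heh hs hEh hth hmh hE0 h5 hL hb
    m1 d1 k1 k2 k3 k4 k5 k6 hw
  classical
  obtain ⟨I, hI, hp⟩ := facs hh hs
  have hI' : ∀ P ∈ I, P.Monic ∧ Irreducible P := fun P hP =>
    ⟨((hI P).1 hP).1, ((hI P).1 hP).2.1⟩
  have inst : ∀ i : {P // P ∈ I}, Fact (Irreducible i.1) := fun i => ⟨(hI' i.1 i.2).2⟩
  let _ : Fintype (degreeLT K L) := Fintype.ofFinite _
  have hPD : PD h z = ↑(I.filter fun P => (P.natDegree : ℝ) ≤ z) := by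
    ext P
    rw [Finset.coe_filter]
    show (P.Monic ∧ Irreducible P ∧ P ∣ h ∧ (P.natDegree : ℝ) ≤ z) ↔
      (P ∈ I ∧ (P.natDegree : ℝ) ≤ z)
    rw [hI]
    tauto
  have hwin : L + 2 * (∑ P ∈ I with (P.natDegree : ℝ) ≤ z, P.natDegree) ≤ 2 * h.natDegree := by
    have e1 : ∑ᶠ P ∈ PD h z, P.natDegree = ∑ P ∈ I with (P.natDegree : ℝ) ≤ z, P.natDegree := by
      rw [hPD]
      exact finsum_mem_coe_finset _ _
    rw [← e1]
    exact hw
  obtain ⟨w, hw1, hu⟩ := eps hkey hc hθ he hh hm heh hs hth hmh h5 hL hb m1 d1 k1 k2 k3 k4 k5 k6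
    hI' hp
  have hbd := WinM.cmp_bd hloc hcmp (x := x) (y := y) (ε := ε) hc hth heh hs hEh hL hI' hp hwin
  rw [WinQ.prod_C hI hp] at hbd
  refine le_trans ?_ hbd
  have e2 : (∑ᶠ u ∈ {u : K[X] | u.degree < (L : WithBot ℕ)},
        (mobM m θ ((UM θ ε (x + E * u) y) ^ 2 + X * (C c * (e * h)) ^ 2) : ℝ)) =
      ∑ u : degreeLT K L, (mobM m θ (fu (C c * (e * h)) θ ε (x + E * u.1) y) : ℝ) := by
    have e3 : {u : K[X] | u.degree < (L : WithBot ℕ)} = (degreeLT K L : Set K[X]) := by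
      ext u
      exact mem_degreeLT.symm
    rw [e3, ← finsum_set_coe_eq_finsum_mem, finsum_eq_sum_of_fintype]
    rfl
  rw [e2]
  have e4 : ((∑ u : degreeLT K L,
        (mobM m θ (fu (C c * (e * h)) θ ε (x + E * u.1) y) : ℝ) : ℝ) : ℂ) =
      w * ∑ u : degreeLT K L, ∏ i : {P // P ∈ I}, GPm i.1 (C c * (e * h)) θ ε y
        (rr i.1 (x + E * u.1)) := by
    rw [Finset.mul_sum]
    push_cast
    exact Finset.sum_congr rfl fun u _ => hu u.1 (mem_degreeLT.1 u.2)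
  have e5 := congrArg norm e4
  rw [Complex.norm_real, norm_mul, Real.norm_eq_abs] at e5
  rw [e5]
  exact mul_le_of_le_one_left (norm_nonneg _) hw1

end Pool.Agent.H140.Q
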