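import Pool.Agent.H140.Q.StmM
import Pool.Agent.H985.Chow.Asm

/-!
# Chowla's conjecture for all separable quadratic polynomials, `q` even: assembly
(task ASMM, helper170; after `Pool.Agent.H140.Q.Asm` and `Pool.Agent.H985.Chow.Asm`)
-/

set_option autoImplicit false

namespace Pool.Agent.H140.Q

open Polynomial
open Pool.Agent.H985.Chow (mob MD PD PDc Good Wr Wl)
open Pool.Agent.H985.Chow.Asm

namespace AsmMN

section

variable {K : Type} [Field K]

/-- the value of the quadratic polynomial -/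
lemma val_eq [CharP K 2] (θ ε δ x y : K[X]) :
    fM θ ε δ (G x y) = (UM θ ε x y) ^ 2 + X * (θ * y + δ) ^ 2 := by
  rw [fM, UM, CharTwo.add_sq, CharTwo.add_sq (x ^ 2 + X * y ^ 2), CharTwo.add_sq (θ * y), G]
  ring

lemma abs_mobM (m θ f : K[X]) : |(mobM m θ f : ℝ)| ≤ 1 := by
  unfold mobM
  split_ifs
  · exact abs_mob _
  · simp

/-- the degree of `θ y + δ` -/
lemma deg_lt {n : ℕ} {θ del v' : K[X]} (hv' : v' ∈ degreeLT K (n / 2))
    (hdel : del.natDegree < (n + 1) / 2) :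
    (θ * (tb K n + v') + del).degree < ((θ.natDegree + (n + 1) / 2 : ℕ) : WithBot ℕ) := by
  have h1 : (tb K n + v').degree < (((n + 1) / 2 : ℕ) : WithBot ℕ) := by
    rw [degree_lt_iff_coeff_zero]
    intro i hi
    exact tb_coeff n v' hv' i (by omega)
  have h2 : (θ * (tb K n + v')).degree < ((θ.natDegree + (n + 1) / 2 : ℕ) : WithBot ℕ) := by
    rw [degree_lt_iff_coeff_zero]
    intro i hi
    by_cases h0 : θ * (tb K n + v') = 0
    · rw [h0, coeff_zero]
    · apply coeff_eq_zero_of_natDegree_lt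
      have hy0 : tb K n + v' ≠ 0 := right_ne_zero_of_mul h0
      rw [natDegree_mul (left_ne_zero_of_mul h0) hy0]
      have h3 := (natDegree_lt_iff_degree_lt hy0).2 h1
      omega
  have h4 : del.degree < ((θ.natDegree + (n + 1) / 2 : ℕ) : WithBot ℕ) := by
    rw [degree_lt_iff_coeff_zero]
    intro i hi
    apply coeff_eq_zero_of_natDegree_lt
    omega
  exact lt_of_le_of_lt (degree_add_le _ _) (max_lt h2 h4)

end

section

variable {K : Type} [Field K] [Fintype K] [CharP K 2]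

lemma good_boundM (hwin : S_winM) (θ : K[X]) (hθ : θ ≠ 0) (ε del m Q : K[X]) (hm : m.Monic)
    (hQ : Q ≠ 0)
    (w : K[X] → ℝ) (hw : ∀ g, |w g| ≤ 1) (hwi : ∀ g u, w (g + (Q * u) ^ 2) = w g)
    (δ : ℝ) (hδ : 0 < δ) (E₀ k₀ j n D c₀ : ℕ)
    (hD : D = 5 * (E₀ + θ.natDegree + m.natDegree) + Q.natDegree)
    (hc₀ : c₀ = (ε ^ 2 + X * del ^ 2).natDegree + 4 * θ.natDegree + m.natDegree)
    (hn : 2 * (5 * j + D + 3 * E₀ + c₀ + del.natDegree + 5) ≤ n)
    (v' : K[X]) (hv' : v' ∈ degreeLT K (n / 2)) (c : K) (b₁ : K[X]) (hc : c ≠ 0)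
    (hb : θ * (tb K n + v') + del = C c * b₁) (hb1 : b₁.Monic)
    (hnb : n / 2 + θ.natDegree ≤ b₁.natDegree + j)
    (hgood : Good (θ * m * Q) δ E₀ k₀ b₁.natDegree b₁) :
    |∑ v : degreeLT K ((n + 1) / 2), w (G (ta K n + (v : K[X])) (tb K n + v')) *
        (mobM m θ (fM θ ε del (G (ta K n + (v : K[X])) (tb K n + v'))) : ℝ)| ≤
      (Fintype.card K : ℝ) ^ ((n + 1) / 2) *
        ((Fintype.card K : ℝ) ^ (2 * j + D + c₀ + 3 + θ.natDegree) * 8 ^ ⌊1 / δ⌋₊ *
          (1 / √2) ^ k₀) := by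
  obtain ⟨e, h, hbe, he, hh, heh, hsq, hsh, hdeg, hk, h8⟩ := hgood
  obtain ⟨d, hd⟩ : ∃ d, d = b₁.natDegree := ⟨_, rfl⟩
  rw [← hd] at hk h8 hnb
  obtain ⟨σ, hσ⟩ : ∃ σ, σ = θ.natDegree := ⟨_, rfl⟩
  obtain ⟨mm, hmm⟩ : ∃ mm, mm = m.natDegree := ⟨_, rfl⟩
  obtain ⟨Qd, hQd⟩ : ∃ Qd, Qd = Q.natDegree := ⟨_, rfl⟩
  obtain ⟨L, hL⟩ : ∃ L, L = n / 2 - (2 * j + D + c₀ + 3) := ⟨_, rfl⟩
  have hL1 : L + (2 * j + D + c₀ + 3) = n / 2 := by omega
  have hb0 : C c * b₁ ≠ 0 := mul_ne_zero (C_ne_zero.2 hc) hb1.ne_zero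
  have hdn : d < θ.natDegree + (n + 1) / 2 := by
    have h1 := deg_lt (θ := θ) (del := del) hv' (by omega : del.natDegree < (n + 1) / 2)
    rw [hb, ← natDegree_lt_iff_degree_lt hb0, natDegree_C_mul hc, ← hd] at h1
    exact h1
  have hdeh : (e * h).natDegree = d := by rw [← hbe, hd]
  have hdd : e.natDegree + h.natDegree = d := by rw [← hdeh, he.natDegree_mul hh]
  have heθ : e * θ * m ≠ 0 := mul_ne_zero (mul_ne_zero he.ne_zero hθ) hm.ne_zero
  have hE0 : (e * θ * m) ^ 5 * Q ≠ 0 := mul_ne_zero (pow_ne_zero 5 heθ) hQ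
  have hEd : ((e * θ * m) ^ 5 * Q).natDegree =
      5 * (e.natDegree + θ.natDegree + m.natDegree) + Q.natDegree := by
    rw [natDegree_mul (pow_ne_zero 5 heθ) hQ, natDegree_pow,
      natDegree_mul (mul_ne_zero he.ne_zero hθ) hm.ne_zero, natDegree_mul he.ne_zero hθ]
  have hEm : ∀ u ∈ degreeLT K L, ((e * θ * m) ^ 5 * Q) * u ∈ degreeLT K ((n + 1) / 2) := by
    intro u hu
    apply mem_of_natDegree_lt
    by_cases hu0 : u = 0
    · left
      rw [hu0, mul_zero]
    · right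
      have h1 := natDegree_lt_of_mem hu hu0
      rw [natDegree_mul hE0 hu0, hEd]
      omega
  obtain ⟨y, hy⟩ : ∃ y, y = tb K n + v' := ⟨_, rfl⟩
  rw [← hy] at hb ⊢
  have hyc : θ * y + del = C c * (e * h) := by rw [hb, hbe]
  have hq1 : (1 : ℝ) ≤ Fintype.card K := by exact_mod_cast Fintype.card_pos
  apply avg ((n + 1) / 2) L ((e * θ * m) ^ 5 * Q) hEm
    (fun x => w (G (ta K n + x) y) * (mobM m θ (fM θ ε del (G (ta K n + x) y)) : ℝ))
  intro v hv
  have hmem := G_mem n v v' hv hv'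
  obtain ⟨a, ha⟩ : ∃ a, a = ta K n + v := ⟨_, rfl⟩
  rw [← ha, ← hy] at hmem
  have hterm : ∀ u : degreeLT K L,
      w (G (ta K n + (v + ((e * θ * m) ^ 5 * Q) * (u : K[X]))) y) *
        (mobM m θ (fM θ ε del (G (ta K n + (v + ((e * θ * m) ^ 5 * Q) * (u : K[X]))) y)) : ℝ) =
      w (G a y) *
        (mobM m θ ((UM θ ε (a + ((e * θ * m) ^ 5 * Q) * (u : K[X])) y) ^ 2 +
          X * (C c * (e * h)) ^ 2) : ℝ) := by
    intro u
    rw [← add_assoc, ← ha, val_eq, hyc]
    have h1 : G (a + (e * θ * m) ^ 5 * Q * (u : K[X])) y =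
        G a y + (Q * ((e * θ * m) ^ 5 * (u : K[X]))) ^ 2 := by
      rw [G, G, CharTwo.add_sq]
      ring
    rw [h1, hwi]
  rw [Finset.sum_congr rfl (fun u _ => hterm u), ← Finset.mul_sum, abs_mul]
  have hθh : IsCoprime θ h := hsh.of_mul_left_left.of_mul_left_left
  have hmh : IsCoprime m h := hsh.of_mul_left_left.of_mul_left_right
  have hQh : IsCoprime Q h := hsh.of_mul_left_right
  have hmain := hwin K n L c₀ c θ a y ε del e h m ((e * θ * m) ^ 5 * Q) (δ * d) hc hθ he hh hm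
    heh hsq ((((heh.mul_left hθh).mul_left hmh).pow_left).mul_left hQh) hθh hmh hE0
    (dvd_mul_right _ _) (by omega) hyc hmem.1 hmem.2 (by omega) (by omega) (by omega)
    (by rw [hEd, hdeh]; omega) (by rw [hdeh]; omega) (by rw [hEd]; omega) (by omega)
  rw [window_finsum] at hmain
  refine (mul_le_mul (hw _) hmain (abs_nonneg _) zero_le_one).trans ?_
  rw [one_mul]
  have hs2 : (1 : ℝ) / √2 ≤ 1 := by
    rw [div_le_one (by positivity)]
    exact Real.one_le_sqrt.mpr (by norm_num)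
  have b1 : (Fintype.card K : ℝ) ^ h.natDegree ≤
      (Fintype.card K : ℝ) ^ L * (Fintype.card K : ℝ) ^ (2 * j + D + c₀ + 3 + θ.natDegree) := by
    rw [← pow_add]
    exact pow_le_pow_right₀ hq1 (by omega)
  have b2 : (8 : ℝ) ^ (PDc h (δ * d)).ncard ≤ 8 ^ ⌊1 / δ⌋₊ :=
    pow_le_pow_right₀ (by norm_num) (PDc_ncard h hh.ne_zero δ hδ d (by omega) (by omega))
  have b3 : ((1 : ℝ) / √2) ^ (PD h (δ * d)).ncard ≤ (1 / √2) ^ k₀ :=
    pow_le_pow_of_le_one (by positivity) hs2 hk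
  calc (Fintype.card K : ℝ) ^ h.natDegree * 8 ^ (PDc h (δ * d)).ncard *
        (1 / √2) ^ (PD h (δ * d)).ncard
      ≤ ((Fintype.card K : ℝ) ^ L * (Fintype.card K : ℝ) ^ (2 * j + D + c₀ + 3 + θ.natDegree)) *
        8 ^ ⌊1 / δ⌋₊ * (1 / √2) ^ k₀ := by gcongr
    _ = _ := by ring

end

section count

variable {K : Type} [Field K] [Fintype K]

/-- the polynomials `b` to which the window bound applies -/
def gdM (s : K[X]) (δ : ℝ) (E₀ k₀ j N : ℕ) (b : K[X]) : Prop :=
  ∃ (c : K) (b₁ : K[X]), c ≠ 0 ∧ b = C c * b₁ ∧ b₁.Monic ∧ N ≤ b₁.natDegree + j ∧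
    Good s δ E₀ k₀ b₁.natDegree b₁

open Classical in
/-- the bad `v'` -/
noncomputable def badM (θ del s : K[X]) (δ : ℝ) (E₀ k₀ j n : ℕ) : Finset (degreeLT K (n / 2)) :=
  (Finset.univ : Finset (degreeLT K (n / 2))).filter
    (fun v : degreeLT K (n / 2) =>
      ¬ gdM s δ E₀ k₀ j (n / 2 + θ.natDegree) (θ * (tb K n + (v : K[X])) + del))

lemma mem_badM (θ del s : K[X]) (δ : ℝ) (E₀ k₀ j n : ℕ) (v : degreeLT K (n / 2)) :
    v ∈ badM θ del s δ E₀ k₀ j n ↔
      ¬ gdM s δ E₀ k₀ j (n / 2 + θ.natDegree) (θ * (tb K n + (v : K[X])) + del) := by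
  classical
  rw [badM, Finset.mem_filter]
  simp

open Classical in
/-- the `v'` for which `θ y + δ` has small degree -/
lemma small_card (θ del : K[X]) (hθ : θ ≠ 0) (j n : ℕ) :
    ((Finset.univ : Finset (degreeLT K (n / 2))).filter (fun v : degreeLT K (n / 2) =>
      (θ * (tb K n + (v : K[X])) + del).degree <
        ((n / 2 - j + θ.natDegree : ℕ) : WithBot ℕ))).card ≤ Fintype.card K ^ (n / 2 - j) := by
  set A := (Finset.univ : Finset (degreeLT K (n / 2))).filter (fun v : degreeLT K (n / 2) =>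
      (θ * (tb K n + (v : K[X])) + del).degree <
        ((n / 2 - j + θ.natDegree : ℕ) : WithBot ℕ)) with hA
  rcases A.eq_empty_or_nonempty with h0 | ⟨v₀, hv₀⟩
  · rw [h0, Finset.card_empty]
    exact Nat.zero_le _
  · have key : ∀ v ∈ A, (v : K[X]) - (v₀ : K[X]) ∈ degreeLT K (n / 2 - j) := by
      intro v hv
      rw [hA, Finset.mem_filter] at hv hv₀
      have h1 : θ * ((v : K[X]) - (v₀ : K[X])) = (θ * (tb K n + (v : K[X])) + del) -
        (θ * (tb K n + (v₀ : K[X])) + del) := by ring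
      have h2 : (θ * ((v : K[X]) - (v₀ : K[X]))).degree <
          ((n / 2 - j + θ.natDegree : ℕ) : WithBot ℕ) := by
        rw [h1]
        exact lt_of_le_of_lt (degree_sub_le _ _) (max_lt hv.2 hv₀.2)
      apply mem_of_natDegree_lt
      by_cases h3 : (v : K[X]) - (v₀ : K[X]) = 0
      · exact Or.inl h3
      · right
        rw [← natDegree_lt_iff_degree_lt (mul_ne_zero hθ h3), natDegree_mul hθ h3] at h2
        omega
    have h4 : A.card ≤ (Finset.univ : Finset (degreeLT K (n / 2 - j))).card := by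
      refine Finset.card_le_card_of_injOn (fun v => if hv : v ∈ A then
        (⟨(v : K[X]) - (v₀ : K[X]), key v hv⟩ : degreeLT K (n / 2 - j)) else 0)
        (fun v _ => Finset.mem_coe.2 (Finset.mem_univ _)) ?_
      intro v hv v' hv' he
      rw [Finset.mem_coe] at hv hv'
      simp only [dif_pos hv, dif_pos hv'] at he
      have h5 := congrArg Subtype.val he
      exact Subtype.ext (sub_left_injective h5)
    rwa [Finset.card_univ, card_deg] at h4

open Classical in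
lemma bad_all (θ del s : K[X]) (hθ : θ ≠ 0) (δ : ℝ) (E₀ k₀ j n : ℕ) (hj : j ≤ n / 2)
    (hdel : del.natDegree < (n + 1) / 2) :
    (badM θ del s δ E₀ k₀ j n).card ≤
      Fintype.card K ^ (n / 2 - j) +
        ∑ d ∈ Finset.Ico (n / 2 - j + θ.natDegree) (n / 2 + θ.natDegree + 1),
          (Fintype.card K - 1) * (MD K d ∩ {b | ¬ Good s δ E₀ k₀ d b}).ncard := by
  have hf : ∀ d, (MD K d ∩ {b | ¬ Good s δ E₀ k₀ d b}).Finite := fun d =>
    (MD_finite d).inter_of_left _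
  set A := (Finset.univ : Finset (degreeLT K (n / 2))).filter (fun v : degreeLT K (n / 2) =>
      (θ * (tb K n + (v : K[X])) + del).degree <
        ((n / 2 - j + θ.natDegree : ℕ) : WithBot ℕ)) with hA
  set B := (badM θ del s δ E₀ k₀ j n).filter (fun v => v ∉ A) with hB
  have hsub : badM θ del s δ E₀ k₀ j n ⊆ A ∪ B := by
    intro v hv
    by_cases hvA : v ∈ A
    · exact Finset.mem_union_left _ hvA
    · exact Finset.mem_union_right _ (Finset.mem_filter.2 ⟨hv, hvA⟩)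
  refine (Finset.card_le_card hsub).trans ((Finset.card_union_le _ _).trans ?_)
  refine add_le_add (small_card θ del hθ j n) ?_
  set T : Finset K[X] := (Finset.Ico (n / 2 - j + θ.natDegree) (n / 2 + θ.natDegree + 1)).biUnion
    (fun d => ((Finset.univ : Finset K).erase 0).biUnion (fun c =>
        (hf d).toFinset.image (fun b₁ => C c * b₁))) with hT
  have hinj : Function.Injective (fun v : degreeLT K (n / 2) => θ * (tb K n + (v : K[X])) + del) := by
    intro v v' he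
    have h1 : θ * (tb K n + (v : K[X])) = θ * (tb K n + (v' : K[X])) := add_right_cancel he
    exact Subtype.ext (add_left_cancel (mul_left_cancel₀ hθ h1))
  have h2 : B.image (fun v : degreeLT K (n / 2) => θ * (tb K n + (v : K[X])) + del) ⊆ T := by
    intro b hb
    rw [Finset.mem_image] at hb
    obtain ⟨v, hv, rfl⟩ := hb
    rw [hB, Finset.mem_filter, mem_badM] at hv
    obtain ⟨hv1, hv2⟩ := hv
    obtain ⟨b, hbdef⟩ : ∃ b, b = θ * (tb K n + (v : K[X])) + del := ⟨_, rfl⟩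
    have hvd := deg_lt (θ := θ) (del := del) v.2 hdel
    have hv3 : ¬ (b.degree < ((n / 2 - j + θ.natDegree : ℕ) : WithBot ℕ)) := by
      intro h
      apply hv2
      rw [hA, Finset.mem_filter, ← hbdef]
      exact ⟨Finset.mem_univ _, h⟩
    rw [← hbdef] at hv1 hvd ⊢
    have h0 : b ≠ 0 := by
      intro h
      apply hv3
      rw [h, degree_zero]
      exact WithBot.bot_lt_coe _
    rw [← natDegree_lt_iff_degree_lt h0] at hv3 hvd
    set c := b.leadingCoeff with hc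
    have hc0 : c ≠ 0 := leadingCoeff_ne_zero.mpr h0
    have hm : (C c⁻¹ * b).Monic := monic_C_mul_of_mul_leadingCoeff_eq_one
      (by rw [← hc]; exact inv_mul_cancel₀ hc0)
    have hd : (C c⁻¹ * b).natDegree = b.natDegree := natDegree_C_mul (inv_ne_zero hc0)
    have he : b = C c * (C c⁻¹ * b) := by
      rw [← mul_assoc, ← C_mul, mul_inv_cancel₀ hc0, C_1, one_mul]
    rw [hT, Finset.mem_biUnion]
    refine ⟨b.natDegree, Finset.mem_Ico.mpr ⟨not_lt.mp hv3, by omega⟩, ?_⟩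
    rw [Finset.mem_biUnion]
    refine ⟨c, Finset.mem_erase.mpr ⟨hc0, Finset.mem_univ _⟩, ?_⟩
    rw [Finset.mem_image]
    refine ⟨C c⁻¹ * b, ?_, he.symm⟩
    rw [Set.Finite.mem_toFinset]
    refine ⟨⟨hm, hd⟩, fun hg => hv1 ?_⟩
    refine ⟨c, C c⁻¹ * b, hc0, he, hm, by rw [hd]; omega, ?_⟩
    rw [hd]
    exact hg
  rw [← Finset.card_image_of_injective _ hinj]
  refine (Finset.card_le_card h2).trans ?_
  refine Finset.card_biUnion_le.trans ?_
  apply Finset.sum_le_sum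
  intro d _
  refine Finset.card_biUnion_le.trans ?_
  have h3 : ∀ c ∈ (Finset.univ : Finset K).erase 0,
      ((hf d).toFinset.image (fun b₁ => C c * b₁)).card ≤
        (MD K d ∩ {b | ¬ Good s δ E₀ k₀ d b}).ncard := by
    intro c _
    refine Finset.card_image_le.trans ?_
    rw [Set.ncard_eq_toFinset_card _ (hf d)]
  refine (Finset.sum_le_sum h3).trans ?_
  rw [Finset.sum_const, Finset.card_erase_of_mem (Finset.mem_univ _), Finset.card_univ,
    smul_eq_mul]

lemma bad_cardM (θ del s : K[X]) (hθ : θ ≠ 0) (δ : ℝ) (E₀ k₀ j n d₀ : ℕ) (η : ℝ) (hη : 0 < η)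
    (hj : (1 / (Fintype.card K : ℝ)) ^ j ≤ η / 4)
    (hd : ∀ d : ℕ, d₀ ≤ d → ((MD K d ∩ {b | ¬ Good s δ E₀ k₀ d b}).ncard : ℝ) ≤
      η / 4 / (Fintype.card K : ℝ) ^ (θ.natDegree + 1) * (Fintype.card K : ℝ) ^ d)
    (hn : d₀ + j ≤ n / 2) (hdel : del.natDegree < (n + 1) / 2) :
    ((badM θ del s δ E₀ k₀ j n).card : ℝ) ≤ η / 2 * (Fintype.card K : ℝ) ^ (n / 2) := by
  have hq1 : (1 : ℝ) < Fintype.card K := by exact_mod_cast Fintype.one_lt_card
  have hq0 : (0 : ℝ) < Fintype.card K := by linarith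
  have hqm : (0 : ℝ) < (Fintype.card K : ℝ) ^ (n / 2) := pow_pos hq0 _
  have hqs : (0 : ℝ) < (Fintype.card K : ℝ) ^ (θ.natDegree + 1) := pow_pos hq0 _
  set η' : ℝ := η / 4 / (Fintype.card K : ℝ) ^ (θ.natDegree + 1) with hη'
  have hη'0 : 0 < η' := by positivity
  have h2 : ((badM θ del s δ E₀ k₀ j n).card : ℝ) ≤
      (Fintype.card K : ℝ) ^ (n / 2 - j) +
        ∑ d ∈ Finset.Ico (n / 2 - j + θ.natDegree) (n / 2 + θ.natDegree + 1),
          ((Fintype.card K : ℝ) - 1) * (MD K d ∩ {b | ¬ Good s δ E₀ k₀ d b}).ncard := by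
    have h3 := bad_all θ del s hθ δ E₀ k₀ j n (by omega) hdel
    have h4 : ((badM θ del s δ E₀ k₀ j n).card : ℝ) ≤ ((Fintype.card K ^ (n / 2 - j) +
        ∑ d ∈ Finset.Ico (n / 2 - j + θ.natDegree) (n / 2 + θ.natDegree + 1),
        (Fintype.card K - 1) * (MD K d ∩ {b | ¬ Good s δ E₀ k₀ d b}).ncard : ℕ) : ℝ) := by
      exact_mod_cast h3
    refine h4.trans (le_of_eq ?_)
    push_cast [Nat.cast_sub (Fintype.card_pos (α := K))]
    rfl
  have h5 : (Fintype.card K : ℝ) ^ (n / 2 - j) ≤ η / 4 * (Fintype.card K : ℝ) ^ (n / 2) := by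
    have h6 : (Fintype.card K : ℝ) ^ (n / 2) =
        (Fintype.card K : ℝ) ^ (n / 2 - j) * (Fintype.card K : ℝ) ^ j := by
      rw [← pow_add]
      congr 1
      omega
    have h7 : (Fintype.card K : ℝ) ^ (n / 2 - j) =
        (1 / (Fintype.card K : ℝ)) ^ j * (Fintype.card K : ℝ) ^ (n / 2) := by
      rw [h6, one_div, inv_pow]
      field_simp
    rw [h7]
    exact mul_le_mul_of_nonneg_right hj hqm.le
  have h8 : ∑ d ∈ Finset.Ico (n / 2 - j + θ.natDegree) (n / 2 + θ.natDegree + 1),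
      ((Fintype.card K : ℝ) - 1) * (MD K d ∩ {b | ¬ Good s δ E₀ k₀ d b}).ncard ≤
      η / 4 * (Fintype.card K : ℝ) ^ (n / 2) := by
    calc ∑ d ∈ Finset.Ico (n / 2 - j + θ.natDegree) (n / 2 + θ.natDegree + 1),
        ((Fintype.card K : ℝ) - 1) * (MD K d ∩ {b | ¬ Good s δ E₀ k₀ d b}).ncard
        ≤ ∑ d ∈ Finset.Ico (n / 2 - j + θ.natDegree) (n / 2 + θ.natDegree + 1),
          ((Fintype.card K : ℝ) - 1) * (η' * (Fintype.card K : ℝ) ^ d) := by
          apply Finset.sum_le_sum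
          intro d hdm
          rw [Finset.mem_Ico] at hdm
          apply mul_le_mul_of_nonneg_left (hd d (by omega)) (by linarith)
      _ ≤ ∑ d ∈ Finset.range (n / 2 + θ.natDegree + 1),
          ((Fintype.card K : ℝ) - 1) * (η' * (Fintype.card K : ℝ) ^ d) := by
          apply Finset.sum_le_sum_of_subset_of_nonneg
          · intro d hdm
            rw [Finset.mem_Ico] at hdm
            exact Finset.mem_range.mpr hdm.2
          · intro d _ _
            have : (0 : ℝ) < (Fintype.card K : ℝ) ^ d := pow_pos hq0 _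
            apply mul_nonneg (by linarith)
            positivity
      _ = η' * ((∑ d ∈ Finset.range (n / 2 + θ.natDegree + 1), (Fintype.card K : ℝ) ^ d) *
            ((Fintype.card K : ℝ) - 1)) := by
          rw [Finset.sum_mul, Finset.mul_sum]
          apply Finset.sum_congr rfl
          intro d _
          ring
      _ = η' * ((Fintype.card K : ℝ) ^ (n / 2 + θ.natDegree + 1) - 1) := by rw [geom_sum_mul]
      _ ≤ η' * (Fintype.card K : ℝ) ^ (n / 2 + θ.natDegree + 1) := by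
          apply mul_le_mul_of_nonneg_left _ hη'0.le
          linarith
      _ = η / 4 * (Fintype.card K : ℝ) ^ (n / 2) := by
          rw [add_assoc, pow_add, hη']
          field_simp
  linarith

end count

end AsmMN

open AsmMN in
/-- Task ASMM. -/
theorem asmM (hwin : S_winM) (htyp : Pool.Agent.H985.Chow.S_typ) : S_apM := by
  intro K _ _ _ θ ε del m Q hθ hm hQ η hη
  classical
  have hq1 : (1 : ℝ) < Fintype.card K := by exact_mod_cast Fintype.one_lt_card
  have hq0 : (0 : ℝ) < Fintype.card K := by linarith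
  obtain ⟨δ, E₀, hδ, ht⟩ := htyp K (θ * m * Q) (mul_ne_zero (mul_ne_zero hθ hm.ne_zero) hQ)
    (η / 4 / (Fintype.card K : ℝ) ^ (θ.natDegree + 1)) (by positivity)
  obtain ⟨j, hj⟩ := exists_pow_lt_of_lt_one (show (0 : ℝ) < η / 4 by linarith)
    (show 1 / (Fintype.card K : ℝ) < 1 by rw [div_lt_one hq0]; exact hq1)
  obtain ⟨D, hD⟩ : ∃ D, D = 5 * (E₀ + θ.natDegree + m.natDegree) + Q.natDegree := ⟨_, rfl⟩
  obtain ⟨c₀, hc₀⟩ : ∃ c₀, c₀ = (ε ^ 2 + X * del ^ 2).natDegree + 4 * θ.natDegree +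
    m.natDegree := ⟨_, rfl⟩
  set M : ℝ := (Fintype.card K : ℝ) ^ (2 * j + D + c₀ + 3 + θ.natDegree) * 8 ^ ⌊1 / δ⌋₊ with hM
  have hM0 : 0 < M := by positivity
  have hs2 : (1 : ℝ) / √2 < 1 := by
    rw [div_lt_one (by positivity)]
    exact Real.lt_sqrt_of_sq_lt (by norm_num)
  obtain ⟨k₀, hk⟩ := exists_pow_lt_of_lt_one (show (0 : ℝ) < η / 4 / M by positivity) hs2
  obtain ⟨d₀, hd₀⟩ := ht k₀
  refine ⟨2 * (d₀ + 5 * j + D + 3 * E₀ + c₀ + del.natDegree + 5), ?_⟩
  intro n hn w hw hwi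
  have hMk : M * (1 / √2) ^ k₀ ≤ η / 4 := by
    rw [lt_div_iff₀ hM0] at hk
    linarith
  rw [sum_MD]
  set N := (n + 1) / 2 with hN
  have hqN : (0 : ℝ) < (Fintype.card K : ℝ) ^ N := pow_pos hq0 _
  have hqm : (0 : ℝ) < (Fintype.card K : ℝ) ^ (n / 2) := pow_pos hq0 _
  set T : degreeLT K (n / 2) → ℝ := fun v' => ∑ v : degreeLT K N,
    w (G (ta K n + (v : K[X])) (tb K n + (v' : K[X]))) *
        (mobM m θ (fM θ ε del (G (ta K n + (v : K[X])) (tb K n + (v' : K[X])))) : ℝ) with hT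
  have htriv : ∀ v', |T v'| ≤ (Fintype.card K : ℝ) ^ N := by
    intro v'
    refine (Finset.abs_sum_le_sum_abs _ _).trans ?_
    have h1 : ∀ v ∈ (Finset.univ : Finset (degreeLT K N)),
        |w (G (ta K n + (v : K[X])) (tb K n + (v' : K[X]))) *
        (mobM m θ (fM θ ε del (G (ta K n + (v : K[X])) (tb K n + (v' : K[X])))) : ℝ)| ≤ 1 := by
      intro v _
      rw [abs_mul]
      exact mul_le_one₀ (hw _) (abs_nonneg _) (abs_mobM _ _ _)
    refine (Finset.sum_le_sum h1).trans ?_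
    rw [Finset.sum_const, Finset.card_univ, card_deg, nsmul_eq_mul, mul_one]
    push_cast
    exact le_rfl
  have hgood : ∀ v', v' ∉ badM θ del (θ * m * Q) δ E₀ k₀ j n →
      |T v'| ≤ (Fintype.card K : ℝ) ^ N * (η / 4) := by
    intro v' hv'
    rw [mem_badM, not_not] at hv'
    obtain ⟨c, b₁, hc, hb, hb1, hnb, hg⟩ := hv'
    refine (good_boundM hwin θ hθ ε del m Q hm hQ w hw hwi δ hδ E₀ k₀ j n D c₀ hD hc₀ (by omega)
      (v' : K[X]) v'.2 c b₁ hc hb hb1 hnb hg).trans ?_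
    exact mul_le_mul_of_nonneg_left hMk hqN.le
  have hbad := bad_cardM θ del (θ * m * Q) hθ δ E₀ k₀ j n d₀ η hη hj.le hd₀ (by omega) (by omega)
  have hall : ∀ v', |T v'| ≤ (Fintype.card K : ℝ) ^ N *
      ((if v' ∈ badM θ del (θ * m * Q) δ E₀ k₀ j n then 1 else 0) + η / 4) := by
    intro v'
    split_ifs with h
    · refine (htriv v').trans ?_
      have : (Fintype.card K : ℝ) ^ N * 1 ≤ (Fintype.card K : ℝ) ^ N * (1 + η / 4) :=
        mul_le_mul_of_nonneg_left (by linarith) hqN.le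
      linarith
    · rw [zero_add]
      exact hgood v' h
  refine (Finset.abs_sum_le_sum_abs _ _).trans ?_
  refine (Finset.sum_le_sum (fun v' _ => hall v')).trans ?_
  rw [← Finset.mul_sum, Finset.sum_add_distrib, Finset.sum_boole, Finset.sum_const,
    Finset.card_univ, card_deg, nsmul_eq_mul, Finset.filter_mem_eq_inter, Finset.univ_inter]
  push_cast
  have hnn : (Fintype.card K : ℝ) ^ n = (Fintype.card K : ℝ) ^ N * (Fintype.card K : ℝ) ^ (n / 2) := by
    rw [← pow_add]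
    congr 1
    omega
  rw [hnn]
  have h9 : ((badM θ del (θ * m * Q) δ E₀ k₀ j n).card : ℝ) +
      (Fintype.card K : ℝ) ^ (n / 2) * (η / 4) ≤
      η * (Fintype.card K : ℝ) ^ (n / 2) := by nlinarith
  calc (Fintype.card K : ℝ) ^ N * (((badM θ del (θ * m * Q) δ E₀ k₀ j n).card : ℝ) +
        (Fintype.card K : ℝ) ^ (n / 2) * (η / 4))
      ≤ (Fintype.card K : ℝ) ^ N * (η * (Fintype.card K : ℝ) ^ (n / 2)) :=
        mul_le_mul_of_nonneg_left h9 hqN.le
    _ = _ := by ring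

end Pool.Agent.H140.Q
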