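import Pool.Agent.H140.Q.Stm
import Pool.Agent.H985.Chow.Loc

/-!
# Task LOCQ: local Fourier bounds for quadratic polynomials in characteristic two (helper297)
-/

set_option autoImplicit false

namespace Pool.Agent.H140.Q

open Finset
open Pool.Agent.H985.Chow (Wl)
open Pool.Agent.H985.Chow.Loc (psi_mul_self psi_pm psi_norm sq_inj exists_sq sum_lin Ph Ph_apply
  Ph_bij parseval)

namespace LocQ

section

variable {F : Type} [Field F] [CharP F 2] {ψ : AddChar F ℂ}

/-- the quadratic polynomial -/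
def Aq (κ c a : F) : F := a ^ 2 + κ * a + c

/-- the polynomial `X(w)` -/
def Xq (β κ v w : F) : F := w ^ 3 / β + v / κ * w ^ 2

theorem expoQ (hψ : ∀ x, ψ (x ^ 2) = ψ x) {β x κ c σ r u v a w : F} (hβ : β ≠ 0) (hκ : κ ≠ 0)
    (hr : r ^ 2 = x) (hA : Aq κ c a ≠ 0) :
    ψ (Wl β x (Aq κ c a) (κ * ((r * β + σ + Aq κ c a * w ^ 2) / κ) + σ)) *
      ψ (u * a + v * ((r * β + σ + Aq κ c a * w ^ 2) / κ)) =
    ψ (v / κ * (r * β + σ)) * ψ (Xq β κ v w * Aq κ c a + u * a) := by
  have h2 : (2 : F) = 0 := CharTwo.two_eq_zero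
  have e0 : κ * ((r * β + σ + Aq κ c a * w ^ 2) / κ) + σ = r * β + Aq κ c a * w ^ 2 := by
    rw [mul_div_cancel₀ _ hκ]
    linear_combination σ * h2
  have e1 : Wl β x (Aq κ c a) (r * β + Aq κ c a * w ^ 2) =
      ((Aq κ c a * w ^ 3 / β) ^ 2) ^ 2 := by
    unfold Wl
    have h3 : (r * β + Aq κ c a * w ^ 2) ^ 2 + x * β ^ 2 = (Aq κ c a * w ^ 2) ^ 2 := by
      rw [← hr]
      linear_combination (r * β * (Aq κ c a * w ^ 2) + r ^ 2 * β ^ 2) * h2
    rw [h3]
    field_simp
  rw [e0, e1, hψ, hψ, ← AddChar.map_add_eq_mul, ← AddChar.map_add_eq_mul]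
  congr 1
  unfold Xq
  field_simp
  ring

end

section fin

variable {F : Type} [Field F] [Fintype F] [CharP F 2] {ψ : AddChar F ℂ}

open Classical in
/-- the exceptional `w` -/
noncomputable def NsetQ (s : F → F) (β κ u v : F) : Finset F :=
  univ.filter fun w => s (Xq β κ v w) + κ * Xq β κ v w + u = 0

theorem NsetQ_card {s : F → F} (hs : ∀ y, s y ^ 2 = y) {β κ u v : F} (hβ : β ≠ 0)
    (hκ : κ ≠ 0) : (NsetQ s β κ u v).card ≤ 6 := by
  classical
  have h2 : (2 : F) = 0 := CharTwo.two_eq_zero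
  let X : Polynomial F := Polynomial.C (β⁻¹) * Polynomial.X ^ 3 +
    Polynomial.C (v / κ) * Polynomial.X ^ 2
  let P : Polynomial F := Polynomial.C (κ ^ 2) * X ^ 2 + X + Polynomial.C (u ^ 2)
  have hX : ∀ w, X.eval w = Xq β κ v w := by
    intro w
    simp only [X, Polynomial.eval_add, Polynomial.eval_mul, Polynomial.eval_C,
      Polynomial.eval_pow, Polynomial.eval_X, Xq]
    ring
  have hXd : X.natDegree ≤ 3 := by
    simp only [X]
    compute_degree
  have hXc : X.coeff 3 = β⁻¹ := by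
    simp only [X, Polynomial.coeff_add, Polynomial.coeff_C_mul, Polynomial.coeff_X_pow]
    norm_num
  have hPd : P.natDegree ≤ 6 := by
    have h3 : (X ^ 2).natDegree ≤ 6 := by
      refine (Polynomial.natDegree_pow_le).trans ?_
      omega
    have h4 : (Polynomial.C (κ ^ 2) * X ^ 2).natDegree ≤ 6 :=
      (Polynomial.natDegree_C_mul_le _ _).trans h3
    refine (Polynomial.natDegree_add_le _ _).trans (max_le ?_ ?_)
    · refine (Polynomial.natDegree_add_le _ _).trans (max_le h4 (hXd.trans (by norm_num)))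
    · rw [Polynomial.natDegree_C]
      norm_num
  have hPc : P.coeff 6 = κ ^ 2 * (β⁻¹) ^ 2 := by
    have h3 : (X ^ 2).coeff 6 = (β⁻¹) ^ 2 := by
      rw [← hXc, show (6 : ℕ) = 2 * 3 by norm_num]
      exact Polynomial.coeff_pow_of_natDegree_le hXd
    have h4 : X.coeff 6 = 0 := Polynomial.coeff_eq_zero_of_natDegree_lt (by omega)
    simp only [P, Polynomial.coeff_add, Polynomial.coeff_C_mul, h3, h4, Polynomial.coeff_C]
    norm_num
  have hP0 : P ≠ 0 := by
    intro h0
    rw [h0, Polynomial.coeff_zero] at hPc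
    have : κ ^ 2 * (β⁻¹) ^ 2 ≠ 0 :=
      mul_ne_zero (pow_ne_zero _ hκ) (pow_ne_zero _ (inv_ne_zero hβ))
    exact this hPc.symm
  have hsub : NsetQ s β κ u v ⊆ P.roots.toFinset := by
    intro w hw
    simp only [NsetQ, Finset.mem_filter, Finset.mem_univ, true_and] at hw
    rw [Multiset.mem_toFinset, Polynomial.mem_roots hP0, Polynomial.IsRoot.def]
    simp only [P, Polynomial.eval_add, Polynomial.eval_mul, Polynomial.eval_C,
      Polynomial.eval_pow, hX]
    have h3 := hs (Xq β κ v w)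
    have h4 : s (Xq β κ v w) = κ * Xq β κ v w + u := by
      linear_combination hw - (κ * Xq β κ v w + u) * h2
    rw [h4] at h3
    linear_combination h3 - (κ * Xq β κ v w * u - Xq β κ v w) * h2
  calc (NsetQ s β κ u v).card ≤ P.roots.toFinset.card := Finset.card_le_card hsub
    _ ≤ Multiset.card P.roots := Multiset.toFinset_card_le _
    _ ≤ P.natDegree := Polynomial.card_roots' _
    _ ≤ 6 := hPd

open Classical in
/-- the zeros of the quadratic polynomial -/
noncomputable def Zq (κ c : F) : Finset F := univ.filter fun a => Aq κ c a = 0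

omit [CharP F 2] in
theorem Zq_card (κ c : F) : (Zq κ c).card ≤ 2 := by
  classical
  let P : Polynomial F := Polynomial.X ^ 2 + Polynomial.C κ * Polynomial.X + Polynomial.C c
  have hPd : P.natDegree ≤ 2 := by
    simp only [P]
    compute_degree
  have hPc : P.coeff 2 = 1 := by
    simp only [P, Polynomial.coeff_add, Polynomial.coeff_C_mul, Polynomial.coeff_X_pow,
      Polynomial.coeff_X, Polynomial.coeff_C]
    norm_num
  have hP0 : P ≠ 0 := by
    intro h0
    rw [h0, Polynomial.coeff_zero] at hPc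
    exact zero_ne_one hPc
  have hsub : Zq κ c ⊆ P.roots.toFinset := by
    intro a ha
    have ha' : Aq κ c a = 0 := (Finset.mem_filter.1 ha).2
    rw [Multiset.mem_toFinset, Polynomial.mem_roots hP0, Polynomial.IsRoot.def]
    simp only [P, Polynomial.eval_add, Polynomial.eval_mul, Polynomial.eval_C,
      Polynomial.eval_pow, Polynomial.eval_X]
    exact ha'
  calc (Zq κ c).card ≤ P.roots.toFinset.card := Finset.card_le_card hsub
    _ ≤ Multiset.card P.roots := Multiset.toFinset_card_le _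
    _ ≤ P.natDegree := Polynomial.card_roots' _
    _ ≤ 2 := hPd

/-- the Fourier transform -/
theorem glqhat_eq (hψ1 : ψ ≠ 1) (hψ : ∀ x, ψ (x ^ 2) = ψ x) {s : F → F} (hs : ∀ y, s y ^ 2 = y)
    {β x κ c σ r : F} (hβ : β ≠ 0) (hκ : κ ≠ 0) (hr : r ^ 2 = x) (u v : F) :
    ∑ p : F × F, Glq ψ β x κ c σ p * ψ (u * p.1 + v * p.2) =
      ψ (v / κ * (r * β + σ)) * (Fintype.card F * (∑ w ∈ NsetQ s β κ u v, ψ (Xq β κ v w * c)) -
        Fintype.card F * ∑ a ∈ Zq κ c, ψ (u * a)) := by
  classical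
  have h2 : (2 : F) = 0 := CharTwo.two_eq_zero
  obtain ⟨c0, hc0⟩ : ∃ c0, c0 = ψ (v / κ * (r * β + σ)) := ⟨_, rfl⟩
  let G : F → F → ℂ := fun a w => ψ (Xq β κ v w * Aq κ c a + u * a)
  rw [Fintype.sum_prod_type]
  have e1 : ∀ a : F, ∑ α : F, Glq ψ β x κ c σ (a, α) * ψ (u * (a, α).1 + v * (a, α).2) =
      c0 * (∑ w, G a w - (if a ∈ Zq κ c then ∑ w, G a w else 0)) := by
    intro a
    by_cases ha : Aq κ c a = 0
    · have hmem : a ∈ Zq κ c := by
        simp only [Zq, Finset.mem_filter, Finset.mem_univ, true_and]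
        exact ha
      rw [if_pos hmem, sub_self, mul_zero]
      refine Finset.sum_eq_zero fun α _ => ?_
      have h3 : Glq ψ β x κ c σ (a, α) = 0 := by
        unfold Glq
        rw [if_pos]
        exact ha
      rw [h3, zero_mul]
    · have hmem : a ∉ Zq κ c := by
        simp only [Zq, Finset.mem_filter, Finset.mem_univ, true_and]
        exact ha
      rw [if_neg hmem, sub_zero, Finset.mul_sum]
      have hbij : Function.Bijective
          (fun w : F => (r * β + σ + Aq κ c a * w ^ 2) / κ) := by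
        apply Finite.injective_iff_bijective.1
        intro w w' hw
        dsimp only at hw
        have h4 : r * β + σ + Aq κ c a * w ^ 2 = r * β + σ + Aq κ c a * w' ^ 2 := by
          have h5 : (r * β + σ + Aq κ c a * w ^ 2) / κ * κ =
              (r * β + σ + Aq κ c a * w' ^ 2) / κ * κ := congrArg (fun t => t * κ) hw
          rwa [div_mul_cancel₀ _ hκ, div_mul_cancel₀ _ hκ] at h5
        have h3 : Aq κ c a * w ^ 2 = Aq κ c a * w' ^ 2 := add_left_cancel h4
        exact sq_inj (mul_left_cancel₀ ha h3)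
      rw [← hbij.sum_comp]
      refine Finset.sum_congr rfl fun w _ => ?_
      have h3 : Glq ψ β x κ c σ (a, (r * β + σ + Aq κ c a * w ^ 2) / κ) =
          ψ (Wl β x (Aq κ c a) (κ * ((r * β + σ + Aq κ c a * w ^ 2) / κ) + σ)) := by
        unfold Glq
        rw [if_neg]
        · rfl
        · exact ha
      rw [h3, hc0]
      exact expoQ hψ hβ hκ hr ha
  rw [Finset.sum_congr rfl fun a _ => e1 a, ← Finset.mul_sum, ← hc0]
  congr 1
  rw [Finset.sum_sub_distrib, Finset.sum_ite_mem, Finset.univ_inter, Finset.sum_comm]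
  have e2 : ∀ w : F, ∑ a, G a w =
      if w ∈ NsetQ s β κ u v then (Fintype.card F : ℂ) * ψ (Xq β κ v w * c) else 0 := by
    intro w
    have h3 : ∀ a, G a w = ψ (Xq β κ v w * c) *
        ψ ((s (Xq β κ v w) + κ * Xq β κ v w + u) * a) := by
      intro a
      simp only [G]
      have h4 : Xq β κ v w * Aq κ c a + u * a =
          (s (Xq β κ v w) * a) ^ 2 + (κ * Xq β κ v w + u) * a + Xq β κ v w * c := by
        rw [mul_pow, hs]
        unfold Aq
        ring
      rw [h4, AddChar.map_add_eq_mul, AddChar.map_add_eq_mul, hψ, ← AddChar.map_add_eq_mul,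
        mul_comm]
      congr 2
      ring
    rw [Finset.sum_congr rfl fun a _ => h3 a, ← Finset.mul_sum, sum_lin hψ1]
    simp only [NsetQ, Finset.mem_filter, Finset.mem_univ, true_and]
    split_ifs
    · ring
    · ring
  rw [Finset.sum_congr rfl fun w _ => e2 w, Finset.sum_ite_mem, Finset.univ_inter,
    ← Finset.mul_sum]
  congr 1
  rw [Finset.mul_sum]
  refine Finset.sum_congr rfl fun a ha => ?_
  simp only [Zq, Finset.mem_filter, Finset.mem_univ, true_and] at ha
  have h5 : ∀ w : F, G a w = ψ (u * a) := by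
    intro w
    simp only [G]
    rw [ha, mul_zero, zero_add]
  rw [Finset.sum_congr rfl fun w _ => h5 w, Finset.sum_const, Finset.card_univ, nsmul_eq_mul]

end fin

end LocQ

open LocQ in
theorem locQ : S_locQ := by
  classical
  intro F _ _ _ ψ hψ1 hψ β x κ c σ hβ hκ
  have h2 : (2 : F) = 0 := CharTwo.two_eq_zero
  obtain ⟨s, hs⟩ := exists_sq (F := F)
  obtain ⟨r, hr⟩ : ∃ r : F, r ^ 2 = x := ⟨s x, hs x⟩
  have hbij := Ph_bij (F := F) hψ1
  have hform : ∀ q : F × F, Glqhat ψ β x κ c σ (Ph ψ q) =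
      ψ (q.2 / κ * (r * β + σ)) *
        (Fintype.card F * (∑ w ∈ NsetQ s β κ q.1 q.2, ψ (Xq β κ q.2 w * c)) -
        Fintype.card F * ∑ a ∈ Zq κ c, ψ (q.1 * a)) := by
    intro q
    rw [← glqhat_eq hψ1 hψ hs hβ hκ hr q.1 q.2]
    rfl
  have hQ : (0 : ℝ) < Fintype.card F := by exact_mod_cast Fintype.card_pos
  have hzero : ∀ q : F × F, ψ (κ * (q.1 + q.2 * 0)) ≠ 1 → Glqhat ψ β x κ c σ (Ph ψ q) = 0 := by
    intro q hq
    have h3 : Glqhat ψ β x κ c σ (Ph ψ q) = Glqhat ψ β x κ c σ (Ph ψ q) * ψ (q.1 * κ) := by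
      unfold Glqhat
      rw [Finset.sum_mul]
      refine Fintype.sum_equiv (Equiv.addRight ((κ, 0) : F × F)) _ _ fun p => ?_
      have h4 : Glq ψ β x κ c σ (p + (κ, 0)) = Glq ψ β x κ c σ p := by
        unfold Glq
        have h5 : (p + ((κ, 0) : F × F)).1 ^ 2 + κ * (p + ((κ, 0) : F × F)).1 + c =
            p.1 ^ 2 + κ * p.1 + c := by
          simp only [Prod.fst_add]
          linear_combination (p.1 * κ + κ ^ 2) * h2
        have h6 : (p + ((κ, 0) : F × F)).2 = p.2 := by
          simp only [Prod.snd_add, add_zero]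
        rw [h5, h6]
      rw [Equiv.coe_addRight, h4, Ph_apply, Ph_apply, mul_assoc, ← AddChar.map_add_eq_mul]
      congr 2
      simp only [Prod.fst_add, Prod.snd_add, add_zero]
      linear_combination (-(q.1 * κ)) * h2
    have h7 : ψ (q.1 * κ) = -1 := by
      have h8 : κ * (q.1 + q.2 * 0) = q.1 * κ := by ring
      rw [h8] at hq
      exact (psi_pm _).resolve_left hq
    rw [h7] at h3
    have h9 : (2 : ℂ) * Glqhat ψ β x κ c σ (Ph ψ q) = 0 := by
      linear_combination h3
    exact (mul_eq_zero.1 h9).resolve_left two_ne_zero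
  have hsumn : ∀ (T : Finset F) (f : F → F), ‖∑ w ∈ T, ψ (f w)‖ ≤ T.card := by
    intro T f
    refine (norm_sum_le _ _).trans ?_
    rw [Finset.sum_congr rfl fun w _ => psi_norm (f w), Finset.sum_const, nsmul_eq_mul, mul_one]
  constructor
  · intro χ
    obtain ⟨q, rfl⟩ := hbij.2 χ
    rw [hform, norm_mul, psi_norm, one_mul, ← mul_sub, norm_mul, Complex.norm_natCast,
      mul_comm (8 : ℝ)]
    refine mul_le_mul_of_nonneg_left ?_ hQ.le
    refine (norm_sub_le _ _).trans ?_
    have h3 := hsumn (NsetQ s β κ q.1 q.2) fun w => Xq β κ q.2 w * c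
    have h4 := hsumn (Zq κ c) fun a => q.1 * a
    have h5 : ((NsetQ s β κ q.1 q.2).card : ℝ) ≤ 6 := by
      exact_mod_cast NsetQ_card (s := s) hs (u := q.1) (v := q.2) hβ hκ
    have h6 : ((Zq κ c).card : ℝ) ≤ 2 := by exact_mod_cast Zq_card κ c
    linarith
  · -- the sum over all characters
    have hP := parseval (fun v => Glq ψ β x κ c σ v)
    have hG1 : ∀ v, ‖Glq ψ β x κ c σ v‖ ^ 2 ≤ 1 := by
      intro v
      unfold Glq
      split_ifs
      · simp
      · rw [psi_norm]
        norm_num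
    have hP2 : ∑ χ : AddChar (F × F) ℂ, ‖Glqhat ψ β x κ c σ χ‖ ^ 2 ≤
        (Fintype.card F : ℝ) ^ 4 := by
      have h1 : ∑ χ : AddChar (F × F) ℂ, ‖Glqhat ψ β x κ c σ χ‖ ^ 2 =
          Fintype.card (F × F) * ∑ a, ‖Glq ψ β x κ c σ a‖ ^ 2 := hP
      rw [h1, Fintype.card_prod]
      push_cast
      have h2 : ∑ a : F × F, ‖Glq ψ β x κ c σ a‖ ^ 2 ≤ (Fintype.card F : ℝ) * Fintype.card F := by
        refine (Finset.sum_le_sum fun a _ => hG1 a).trans ?_
        rw [Finset.sum_const, Finset.card_univ, Fintype.card_prod, nsmul_eq_mul, mul_one]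
        push_cast
        exact le_rfl
      nlinarith [mul_pos hQ hQ]
    let S : Finset (F × F) := univ.filter fun q => ψ (κ * (q.1 + q.2 * 0)) = 1
    have hS : 2 * (S.card : ℝ) = (Fintype.card F : ℝ) ^ 2 := by
      have h1 : ∑ q : F × F, (1 + ψ (κ * (q.1 + q.2 * 0))) = 2 * (S.card : ℂ) := by
        have h2 : ∀ q : F × F, (1 + ψ (κ * (q.1 + q.2 * 0)) : ℂ) =
            if q ∈ S then 2 else 0 := by
          intro q
          simp only [S, Finset.mem_filter, Finset.mem_univ, true_and]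
          rcases psi_pm (ψ := ψ) (κ * (q.1 + q.2 * 0)) with h | h
          · rw [if_pos h, h]
            norm_num
          · rw [if_neg (by rw [h]; norm_num), h]
            norm_num
        rw [Finset.sum_congr rfl fun q _ => h2 q, Finset.sum_ite_mem, Finset.univ_inter,
          Finset.sum_const, nsmul_eq_mul]
        ring
      have h3 : ∑ q : F × F, (1 + ψ (κ * (q.1 + q.2 * 0))) = (Fintype.card F : ℂ) ^ 2 := by
        rw [Finset.sum_add_distrib, Finset.sum_const, Finset.card_univ, Fintype.card_prod,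
          Fintype.sum_prod_type_right]
        have h4 : ∀ y : F, ∑ x : F, ψ (κ * ((x, y).1 + (x, y).2 * 0)) = 0 := by
          intro y
          have h5 : ∀ x : F, ψ (κ * ((x, y).1 + (x, y).2 * 0)) = ψ (κ * x) := by
            intro x
            congr 1
            dsimp only
            ring
          rw [Finset.sum_congr rfl fun x _ => h5 x, sum_lin hψ1, if_neg hκ]
        rw [Finset.sum_eq_zero fun y _ => h4 y, add_zero, nsmul_eq_mul, mul_one]
        push_cast
        ring
      rw [h1] at h3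
      exact_mod_cast h3
    have h5 : ∑ χ : AddChar (F × F) ℂ, ‖Glqhat ψ β x κ c σ χ‖ =
        ∑ q ∈ S, ‖Glqhat ψ β x κ c σ (Ph ψ q)‖ := by
      rw [← hbij.sum_comp (fun χ => ‖Glqhat ψ β x κ c σ χ‖)]
      symm
      refine Finset.sum_subset (Finset.subset_univ _) fun q _ hq => ?_
      simp only [S, Finset.mem_filter, Finset.mem_univ, true_and] at hq
      rw [hzero q hq, norm_zero]
    have h6 : ∑ q ∈ S, ‖Glqhat ψ β x κ c σ (Ph ψ q)‖ ^ 2 ≤ (Fintype.card F : ℝ) ^ 4 := by
      refine le_trans ?_ hP2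
      rw [← hbij.sum_comp (fun χ => ‖Glqhat ψ β x κ c σ χ‖ ^ 2)]
      exact Finset.sum_le_sum_of_subset_of_nonneg (Finset.subset_univ _)
        fun q _ _ => by positivity
    have h7 := sq_sum_le_card_mul_sum_sq (s := S)
      (f := fun q => ‖Glqhat ψ β x κ c σ (Ph ψ q)‖)
    rw [h5]
    have h8 : 0 ≤ ∑ q ∈ S, ‖Glqhat ψ β x κ c σ (Ph ψ q)‖ :=
      Finset.sum_nonneg fun q _ => norm_nonneg _
    have h9 : 0 ≤ (Fintype.card F : ℝ) ^ 3 / Real.sqrt 2 := by positivity
    refine (pow_le_pow_iff_left₀ h8 h9 two_ne_zero).1 ?_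
    rw [div_pow, Real.sq_sqrt (by norm_num : (0 : ℝ) ≤ 2)]
    have h10 : (S.card : ℝ) = (Fintype.card F : ℝ) ^ 2 / 2 := by linarith
    calc (∑ q ∈ S, ‖Glqhat ψ β x κ c σ (Ph ψ q)‖) ^ 2 ≤
        S.card * ∑ q ∈ S, ‖Glqhat ψ β x κ c σ (Ph ψ q)‖ ^ 2 := h7
      _ ≤ S.card * (Fintype.card F : ℝ) ^ 4 :=
          mul_le_mul_of_nonneg_left h6 (Nat.cast_nonneg _)
      _ = ((Fintype.card F : ℝ) ^ 3) ^ 2 / 2 := by
          rw [h10]
          ring

end Pool.Agent.H140.Q

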