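import Pool.Agent.H140.Q.StmM
import Pool.Agent.H140.Q.Loc

/-!
# Task LOCM: the linear twist of the local Fourier bounds (helper870)
-/

set_option autoImplicit false

namespace Pool.Agent.H140.Q

namespace LocM

variable {F : Type} [Field F]

/-- the shear `(a, α) ↦ (a, α + t a)` -/
def shear (t : F) : F × F ≃+ F × F where
  toFun p := (p.1, p.2 + t * p.1)
  invFun p := (p.1, p.2 - t * p.1)
  left_inv p := by simp
  right_inv p := by simp
  map_add' p q := by
    refine Prod.ext rfl ?_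
    simp only [Prod.fst_add, Prod.snd_add]
    ring

theorem Glm_eq {ψ : AddChar F ℂ} {β x κ τ c σ : F} (hκ : κ ≠ 0) (v : F × F) :
    Glm ψ β x κ τ c σ v = Glq ψ β x κ c σ (shear (τ / κ) v) := by
  unfold Glm Glq
  have e1 : (shear (τ / κ) v).1 = v.1 := rfl
  have e2 : κ * (shear (τ / κ) v).2 + σ = κ * v.2 + τ * v.1 + σ := by
    show κ * (v.2 + τ / κ * v.1) + σ = _
    field_simp
  rw [e1, e2]

theorem sum_eq [Fintype F] {ψ : AddChar F ℂ} {β x κ τ c σ : F} (hκ : κ ≠ 0)
    (χ : AddChar (F × F) ℂ) :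
    ∑ v, Glm ψ β x κ τ c σ v * χ v =
      Glqhat ψ β x κ c σ (χ.compAddMonoidHom (shear (τ / κ)).symm.toAddMonoidHom) := by
  unfold Glqhat
  refine Fintype.sum_equiv (shear (τ / κ)).toEquiv _ _ fun v => ?_
  rw [Glm_eq hκ]
  have h : (χ.compAddMonoidHom (shear (τ / κ)).symm.toAddMonoidHom) ((shear (τ / κ)).toEquiv v) =
      χ v := congrArg χ ((shear (τ / κ)).symm_apply_apply v)
  rw [h]
  rfl

/-- the action on characters -/
def chE (e : F × F ≃+ F × F) : AddChar (F × F) ℂ ≃ AddChar (F × F) ℂ where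
  toFun χ := χ.compAddMonoidHom e.symm.toAddMonoidHom
  invFun χ := χ.compAddMonoidHom e.toAddMonoidHom
  left_inv χ := by
    refine DFunLike.ext _ _ fun v => ?_
    exact congrArg χ (e.symm_apply_apply v)
  right_inv χ := by
    refine DFunLike.ext _ _ fun v => ?_
    exact congrArg χ (e.apply_symm_apply v)

end LocM

open LocM in
theorem locM : S_locM := by
  intro F _ _ _ ψ hψ1 hψ β x κ τ c σ hβ hκ
  obtain ⟨h1, h2⟩ := locQ F ψ hψ1 hψ β x κ c σ hβ hκ
  refine ⟨fun χ => ?_, ?_⟩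
  · rw [sum_eq hκ]
    exact h1 _
  · refine le_of_eq_of_le ?_ h2
    refine Fintype.sum_equiv (chE (shear (τ / κ))) _ _ fun χ => ?_
    rw [sum_eq hκ]
    rfl

end Pool.Agent.H140.Q
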