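import Mathlib
import Pool.Agent.H140.QM.Key
import Pool.Agent.H140.Q.LocM
import Pool.Agent.H140.Q.WinM
import Pool.Agent.H140.Q.AsmM
import Pool.Agent.H140.Q.CntM
import Pool.Agent.H140.Q.TailM
import Pool.Agent.H140.Q.LamM
import Pool.Agent.H140.Q.FinM
import Pool.Agent.H985.Chow.Cmp
import Pool.Agent.H985.Chow.Typ

/-!
# The theorem for the Liouville function and all separable quadratic polynomials
-/

set_option autoImplicit false

namespace Pool.Agent.H140.Q

theorem apM : S_apM :=
  asmM (winM Pool.Agent.H140.QM.keyM locM Pool.Agent.H985.Chow.cmp) Pool.Agent.H985.Chow.typ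

theorem lioM : S_lioM := lamM apM (tailM cntM bigM)

theorem quad : S_quad := quadM lioM

end Pool.Agent.H140.Q
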