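import Pool.Agent.H140.Q.Stm
import Pool.Agent.H985.Chow.Win

/-!
# The window bound for the quadratic Möbius theorem in characteristic two (task WINQ, helper955)
-/

set_option autoImplicit false
set_option linter.unusedSectionVars false

namespace Pool.Agent.H140.Q

open Polynomial
open Pool.Agent.H524 (AC)
open Pool.Agent.H985.Chow (mob MD PD PDc Good Wr Wl)
open Pool.Agent.H985.Chow.Win

namespace WinQ

section key

variable {K : Type} [Field K] [Fintype K] [CharP K 2]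

lemma key_psi (hkey : S_keyQ) {n : ℕ} {c θ : K} {x₁ x₂ y ε δ e h : K[X]} (hc : c ≠ 0)
    (hθ : θ ≠ 0) (he : e.Monic)
    (hh : h.Monic) (heh : IsCoprime e h) (hs : Squarefree h)
    (hb : C θ * y + δ = C c * (e * h))
    (m1 : (x₁ ^ 2 + X * y ^ 2).Monic)
    (d1 : (x₁ ^ 2 + X * y ^ 2).natDegree = n)
    (m2 : (x₂ ^ 2 + X * y ^ 2).Monic)
    (d2 : (x₂ ^ 2 + X * y ^ 2).natDegree = n)
    (c1 : IsCoprime (UQ θ ε x₁ y) (e * h)) (c2 : IsCoprime (UQ θ ε x₂ y) (e * h))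
    (h5 : e ^ 5 ∣ x₂ - x₁)
    (hd : n + 2 * (x₂ - x₁).natDegree + 2 * (ε ^ 2 + X * δ ^ 2).natDegree + 2 ≤
      4 * (e * h).natDegree)
    {I : Finset K[X]} (hI : ∀ P ∈ I, P.Monic ∧ Irreducible P) (hp : ∏ P ∈ I, P = h)
    [inst : ∀ i : {P // P ∈ I}, Fact (Irreducible i.1)] :
    ((mob ((UQ θ ε x₁ y) ^ 2 + X * (C c * (e * h)) ^ 2) : ℤ) : ℂ) *
      ((mob ((UQ θ ε x₂ y) ^ 2 + X * (C c * (e * h)) ^ 2) : ℤ) : ℂ) =
      (∏ i : {P // P ∈ I}, psiP i.1 (Tl i.1 (UQ θ ε x₁ y) (C c * (e * h)))) *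
        ∏ i : {P // P ∈ I}, psiP i.1 (Tl i.1 (UQ θ ε x₂ y) (C c * (e * h))) := by
  classical
  obtain ⟨w, hw, hm⟩ := hkey K n c θ x₁ x₂ y ε δ e h hc hθ he hh heh hs hb m1 d1 m2 d2 c1 c2 h5 hd
  have hsum : ∀ A : K[X], ∑ ρ ∈ (h.aroots (AC K)).toFinset, Wr A (C c * (e * h)) ρ =
      algebraMap K (AC K) (∑ i : {P // P ∈ I}, Algebra.trace K (AdjoinRoot i.1)
        (Tl i.1 A (C c * (e * h)))) := by
    intro A
    rw [roots_union hh.ne_zero hI hp, map_sum, ← Finset.sum_coe_sort I]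
    exact Finset.sum_congr rfl fun i _ => (sum_Wr i.1 A _).symm
  have hw' : w = (∑ i : {P // P ∈ I}, Algebra.trace K (AdjoinRoot i.1)
        (Tl i.1 (UQ θ ε x₁ y) (C c * (e * h)))) +
        ∑ i : {P // P ∈ I}, Algebra.trace K (AdjoinRoot i.1)
        (Tl i.1 (UQ θ ε x₂ y) (C c * (e * h))) := by
    apply (algebraMap K (AC K)).injective
    rw [hw, Finset.sum_add_distrib, hsum, hsum, map_add]
  have hps : ((if ∃ x : K, x ^ 2 + x = w then (1 : ℤ) else -1 : ℤ) : ℂ) = psiK K w := by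
    rw [psiK_apply]
    split_ifs <;> simp
  rw [← Int.cast_mul, hm, hps, hw', AddChar.map_add_eq_mul, char_sum, char_sum]
  rfl

end key

section main

variable {K : Type} [Field K] [Fintype K] [CharP K 2]

section loc

variable (P : K[X]) [hP : Fact (Irreducible P)]

/-- the local function at `P` -/
noncomputable def GPq (b : K[X]) (θ : K) (ε y : K[X]) (v : AdjoinRoot P × AdjoinRoot P) : ℂ :=
  Glq (psiP P) (AdjoinRoot.mk P (derivative b)) (AdjoinRoot.root P) (AdjoinRoot.mk P (C θ))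
    (AdjoinRoot.mk P (X * y ^ 2 + ε)) (AdjoinRoot.mk P (y ^ 2 + derivative ε)) v

lemma mk_U (θ : K) (ε x y : K[X]) : AdjoinRoot.mk P x ^ 2 + AdjoinRoot.mk P (C θ) *
    AdjoinRoot.mk P x + AdjoinRoot.mk P (X * y ^ 2 + ε) = AdjoinRoot.mk P (UQ θ ε x y) := by
  rw [← map_pow, ← map_mul, ← map_add, ← map_add]
  unfold UQ
  congr 1
  ring

lemma der_U (θ : K) (ε x y : K[X]) : derivative (UQ θ ε x y) =
    C θ * derivative x + (y ^ 2 + derivative ε) := by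
  unfold UQ
  rw [derivative_add, derivative_add, derivative_add, derivative_C_mul, derivative_mul,
    derivative_X, derivative_pow, derivative_pow]
  have h2 : (C ((2 : ℕ) : K) : K[X]) = 0 := by
    have h : ((2 : ℕ) : K) = 0 := CharP.cast_eq_zero K 2
    rw [h, C_0]
  rw [h2]
  ring

lemma mk_dU (θ : K) (ε x y : K[X]) : AdjoinRoot.mk P (C θ) * AdjoinRoot.mk P (derivative x) +
    AdjoinRoot.mk P (y ^ 2 + derivative ε) = AdjoinRoot.mk P (derivative (UQ θ ε x y)) := by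
  rw [der_U, map_add (AdjoinRoot.mk P) (C θ * derivative x), map_mul]

lemma GPq_zero {b : K[X]} {θ : K} {ε x y : K[X]} (h : P ∣ UQ θ ε x y) :
    GPq P b θ ε y (rr P x) = 0 := by
  unfold GPq Glq
  rw [if_pos]
  show AdjoinRoot.mk P x ^ 2 + AdjoinRoot.mk P (C θ) * AdjoinRoot.mk P x +
    AdjoinRoot.mk P (X * y ^ 2 + ε) = 0
  rw [mk_U]
  exact AdjoinRoot.mk_eq_zero.2 h

lemma GPq_ne {b : K[X]} {θ : K} {ε x y : K[X]} (h : ¬ P ∣ UQ θ ε x y) :
    GPq P b θ ε y (rr P x) = psiP P (Tl P (UQ θ ε x y) b) := by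
  unfold GPq Glq
  have e1 : (rr P x).1 ^ 2 + AdjoinRoot.mk P (C θ) * (rr P x).1 +
      AdjoinRoot.mk P (X * y ^ 2 + ε) = AdjoinRoot.mk P (UQ θ ε x y) := mk_U P θ ε x y
  have e2 : AdjoinRoot.mk P (C θ) * (rr P x).2 +
      AdjoinRoot.mk P (y ^ 2 + derivative ε) = AdjoinRoot.mk P (derivative (UQ θ ε x y)) :=
    mk_dU P θ ε x y
  rw [e1, e2, if_neg]
  · rfl
  · exact fun h1 => h (AdjoinRoot.mk_eq_zero.1 h1)

lemma th_ne {θ : K} (hθ : θ ≠ 0) : AdjoinRoot.mk P (C θ) ≠ 0 := by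
  rw [AdjoinRoot.mk_C]
  intro h
  apply hθ
  have h1 : (algebraMap K (AdjoinRoot P)) θ = 0 := h
  exact (algebraMap K (AdjoinRoot P)).injective (by rw [h1, map_zero])

end loc

open Classical in
lemma cmp_gen (hloc : S_locQ) (hcmp : Pool.Agent.H985.Chow.S_cmp) (ι : Type) [Fintype ι]
    (F : ι → Type)
    [∀ i, Field (F i)] [∀ i, Fintype (F i)] [∀ i, CharP (F i) 2] (U : Type) [AddCommGroup U]
    [Fintype U] (φ : ∀ i, U →+ F i × F i) (ψ : ∀ i, AddChar (F i) ℂ) (h1 : ∀ i, ψ i ≠ 1)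
    (h2 : ∀ i x, ψ i (x ^ 2) = ψ i x) (β x κ c σ : ∀ i, F i) (h3 : ∀ i, β i ≠ 0)
    (h4 : ∀ i, κ i ≠ 0) (p : ι → Prop) (hinj : ∀ u, (∀ i, ¬ p i → φ i u = 0) → u = 0)
    (v : ∀ i, F i × F i) :
    ‖∑ u : U, ∏ i, Glq (ψ i) (β i) (x i) (κ i) (c i) (σ i) (v i + φ i u)‖ ≤
      ∏ i, ((Fintype.card (F i) : ℝ) * (if p i then 1 / Real.sqrt 2 else 8)) := by
  refine hcmp ι (fun i => F i × F i) U φ (fun i => Glq (ψ i) (β i) (x i) (κ i) (c i) (σ i))
    (Finset.univ.filter p) ?_ _ ?_ ?_ ?_ v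
  · intro u hu
    refine hinj u fun i hi => hu i ?_
    rw [Finset.mem_filter]
    exact fun h => hi h.2
  · intro i
    split_ifs <;> positivity
  · intro i hi χ
    rw [Finset.mem_filter] at hi
    rw [if_neg fun h => hi ⟨Finset.mem_univ _, h⟩, mul_comm]
    exact (hloc (F i) (ψ i) (h1 i) (h2 i) (β i) (x i) (κ i) (c i) (σ i) (h3 i) (h4 i)).1 χ
  · intro i hi
    rw [Finset.mem_filter] at hi
    rw [if_pos hi.2]
    refine (hloc (F i) (ψ i) (h1 i) (h2 i) (β i) (x i) (κ i) (c i) (σ i) (h3 i) (h4 i)).2.trans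
      (le_of_eq ?_)
    rw [Fintype.card_prod]
    push_cast
    ring

open Classical in
lemma cmp_bd (hloc : S_locQ) (hcmp : Pool.Agent.H985.Chow.S_cmp) {c θ : K} {x y ε e h E : K[X]}
    {L : ℕ} {z : ℝ}
    (hc : c ≠ 0) (hθ : θ ≠ 0) (heh : IsCoprime e h) (hs : Squarefree h)
    (hEh : IsCoprime E h) (hL : 1 ≤ L) [Fintype (degreeLT K L)]
    {I : Finset K[X]} (hI : ∀ P ∈ I, P.Monic ∧ Irreducible P) (hp : ∏ P ∈ I, P = h)
    [inst : ∀ i : {P // P ∈ I}, Fact (Irreducible i.1)]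
    (hwin : L + 2 * (∑ P ∈ I with (P.natDegree : ℝ) ≤ z, P.natDegree) ≤ 2 * h.natDegree) :
    ‖∑ u : degreeLT K L, ∏ i : {P // P ∈ I},
        GPq i.1 (C c * (e * h)) θ ε y (rr i.1 (x + E * u.1))‖ ≤
      ∏ i : {P // P ∈ I}, ((Fintype.card (AdjoinRoot i.1) : ℝ) *
        (if (i.1.natDegree : ℝ) ≤ z then 1 / Real.sqrt 2 else 8)) := by
  have hd : ∀ i : {P // P ∈ I}, i.1 ∣ h := fun i => by
    rw [← hp]
    exact Finset.dvd_prod_of_mem _ i.2
  have key := cmp_gen hloc hcmp {P // P ∈ I} (fun i => AdjoinRoot i.1) (degreeLT K L)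
    (fun i => phi E L i.1) (fun i => psiP i.1) (fun i => psiP_ne i.1) (fun i => psiP_sq i.1)
    (fun i => AdjoinRoot.mk i.1 (derivative (C c * (e * h)))) (fun i => AdjoinRoot.root i.1)
    (fun i => AdjoinRoot.mk i.1 (C θ)) (fun i => AdjoinRoot.mk i.1 (X * y ^ 2 + ε))
    (fun i => AdjoinRoot.mk i.1 (y ^ 2 + derivative ε))
    (fun i => be_ne i.1 hc heh hs (hd i)) (fun i => th_ne i.1 hθ)
    (fun i => (i.1.natDegree : ℝ) ≤ z)
    (fun u hu => inj_aux hL hI hp hEh (fun P => (P.natDegree : ℝ) ≤ z) hwin u hu)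
    (fun i => rr i.1 x)
  have e1 : ∀ (u : degreeLT K L) (i : {P // P ∈ I}),
      rr i.1 x + phi E L i.1 u = rr i.1 (x + E * u.1) := fun u i => (rr_add i.1 _ _).symm
  simp only [e1] at key
  exact key

open Classical in
lemma prod_C {h : K[X]} {z : ℝ} {I : Finset K[X]}
    (hI : ∀ P, P ∈ I ↔ P.Monic ∧ Irreducible P ∧ P ∣ h)
    (hp : ∏ P ∈ I, P = h) [inst : ∀ i : {P // P ∈ I}, Fact (Irreducible i.1)] :
    ∏ i : {P // P ∈ I}, ((Fintype.card (AdjoinRoot i.1) : ℝ) *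
        (if (i.1.natDegree : ℝ) ≤ z then 1 / Real.sqrt 2 else 8)) =
      (Fintype.card K : ℝ) ^ h.natDegree * 8 ^ (PDc h z).ncard *
        (1 / Real.sqrt 2) ^ (PD h z).ncard := by
  have h1 : ∀ i : {P // P ∈ I}, ((Fintype.card (AdjoinRoot i.1) : ℝ) *
        (if (i.1.natDegree : ℝ) ≤ z then 1 / Real.sqrt 2 else 8)) =
      (fun P : K[X] => (Fintype.card K : ℝ) ^ P.natDegree *
        (if (P.natDegree : ℝ) ≤ z then 1 / Real.sqrt 2 else 8)) i.1 := by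
    intro i
    rw [card_P]
    push_cast
    rfl
  rw [Finset.prod_congr rfl fun i _ => h1 i,
    Finset.prod_coe_sort I (fun P : K[X] => (Fintype.card K : ℝ) ^ P.natDegree *
        (if (P.natDegree : ℝ) ≤ z then 1 / Real.sqrt 2 else 8)), Finset.prod_mul_distrib,
    Finset.prod_pow_eq_pow_sum, Finset.prod_ite, Finset.prod_const, Finset.prod_const]
  have h2 : PD h z = ↑(I.filter fun P => (P.natDegree : ℝ) ≤ z) := by
    ext P
    rw [Finset.coe_filter]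
    show (P.Monic ∧ Irreducible P ∧ P ∣ h ∧ (P.natDegree : ℝ) ≤ z) ↔
      (P ∈ I ∧ (P.natDegree : ℝ) ≤ z)
    rw [hI]
    tauto
  have h3 : PDc h z = ↑(I.filter fun P => ¬ (P.natDegree : ℝ) ≤ z) := by
    ext P
    rw [Finset.coe_filter]
    show (P.Monic ∧ Irreducible P ∧ P ∣ h ∧ z < (P.natDegree : ℝ)) ↔
      (P ∈ I ∧ ¬ (P.natDegree : ℝ) ≤ z)
    rw [hI, not_le]
    tauto
  have h6 : h.natDegree = ∑ P ∈ I, P.natDegree := by
    rw [← hp]
    exact natDegree_prod_of_monic _ _ fun P hP => ((hI P).1 hP).1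
  rw [h2, h3, Set.ncard_coe_finset, Set.ncard_coe_finset, h6]
  ring

end main

section fin

variable {K : Type} [Field K] [Fintype K] [CharP K 2]

lemma cop_shift {θ : K} {ε x y e E u : K[X]} (h : e ^ 5 ∣ E) :
    IsCoprime (UQ θ ε (x + E * u) y) e ↔ IsCoprime (UQ θ ε x y) e := by
  obtain ⟨t, rfl⟩ := h
  have e1 : UQ θ ε (x + e ^ 5 * t * u) y =
      UQ θ ε x y + e * (e ^ 4 * t * u * (2 * x + e ^ 5 * t * u + C θ)) := by
    unfold UQ
    ring
  rw [e1]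
  exact IsCoprime.add_mul_left_left_iff

lemma deg_aux {n c0 : ℕ} {c θ : K} {x y ε δ e h : K[X]} (hc : c ≠ 0)
    (he : e.Monic) (hh : h.Monic) (hb : C θ * y + δ = C c * (e * h))
    (d1 : (x ^ 2 + X * y ^ 2).natDegree = n) (d2 : (ε ^ 2 + X * δ ^ 2).natDegree = c0) :
    2 * (e * h).natDegree + 1 ≤ n + c0 := by
  have hbd : (C c * (e * h)).natDegree = (e * h).natDegree := deg_b hc
  have hle : (e * h).natDegree ≤ max y.natDegree δ.natDegree := by
    rw [← hbd, ← hb]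
    refine (natDegree_add_le _ _).trans (max_le_max (natDegree_C_mul_le _ _) le_rfl)
  have hb0 : C c * (e * h) ≠ 0 := mul_ne_zero (C_ne_zero.2 hc) (mul_ne_zero he.ne_zero hh.ne_zero)
  by_cases hy : y = 0
  · by_cases hδ : δ = 0
    · rw [hy, hδ, mul_zero, zero_add] at hb
      exact absurd hb.symm hb0
    · have h1 := win_deg (a := ε) hδ
      rw [d2] at h1
      rw [hy, natDegree_zero] at hle
      have : (e * h).natDegree ≤ δ.natDegree := by simpa using hle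
      omega
  · have h1 := win_deg (a := x) hy
    rw [d1] at h1
    by_cases hδ : δ = 0
    · rw [hδ, natDegree_zero] at hle
      have : (e * h).natDegree ≤ y.natDegree := by simpa using hle
      omega
    · have h2 := win_deg (a := ε) hδ
      rw [d2] at h2
      rcases le_max_iff.1 hle with h3 | h3 <;> omega

lemma eps (hkey : S_keyQ) {n L : ℕ} {c θ : K} {x y ε δ e h E : K[X]} (hc : c ≠ 0) (hθ : θ ≠ 0)
    (he : e.Monic)
    (hh : h.Monic) (heh : IsCoprime e h) (hs : Squarefree h)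
    (h5 : e ^ 5 ∣ E) (hL : 1 ≤ L) (hb : C θ * y + δ = C c * (e * h))
    (m1 : (x ^ 2 + X * y ^ 2).Monic)
    (d1 : (x ^ 2 + X * y ^ 2).natDegree = n)
    (hd : n + 2 * (E.natDegree + (L - 1)) + 2 * (ε ^ 2 + X * δ ^ 2).natDegree + 2 ≤
      4 * (e * h).natDegree)
    {I : Finset K[X]} (hI : ∀ P ∈ I, P.Monic ∧ Irreducible P) (hp : ∏ P ∈ I, P = h)
    [inst : ∀ i : {P // P ∈ I}, Fact (Irreducible i.1)] :
    ∃ w : ℂ, ‖w‖ ≤ 1 ∧ ∀ u : K[X], u.degree < (L : WithBot ℕ) →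
      ((mob ((UQ θ ε (x + E * u) y) ^ 2 + X * (C c * (e * h)) ^ 2) : ℤ) : ℂ) =
      w * ∏ i : {P // P ∈ I}, GPq i.1 (C c * (e * h)) θ ε y (rr i.1 (x + E * u)) := by
  classical
  by_cases hA : IsCoprime (UQ θ ε x y) e
  swap
  · refine ⟨0, by norm_num, fun u hu => ?_⟩
    rw [zero_mul]
    have h2 : ¬ IsCoprime (UQ θ ε (x + E * u) y) (C c * (e * h)) := by
      intro h3
      exact hA ((cop_shift h5).1 (cop_b_left h3))
    rw [mob_zero h2]
    simp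
  have bad : ∀ u : K[X], ¬ IsCoprime (UQ θ ε (x + E * u) y) h →
      ((mob ((UQ θ ε (x + E * u) y) ^ 2 + X * (C c * (e * h)) ^ 2) : ℤ) : ℂ) = 0 := by
    intro u hu
    rw [mob_zero (A := UQ θ ε (x + E * u) y) fun h2 => hu (cop_b_right h2)]
    simp
  by_cases hg : ∃ u₀ : K[X], u₀.degree < (L : WithBot ℕ) ∧ IsCoprime (UQ θ ε (x + E * u₀) y) h
  swap
  · refine ⟨0, by norm_num, fun u hu => ?_⟩
    rw [zero_mul]
    exact bad u fun h1 => hg ⟨u, hu, h1⟩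
  obtain ⟨u₀, hu₀, g1⟩ := hg
  have hnd := deg_aux hc he hh hb d1 (rfl : (ε ^ 2 + X * δ ^ 2).natDegree = _)
  -- degrees
  have hEu : ∀ u : K[X], u.degree < (L : WithBot ℕ) →
      (E * u).natDegree ≤ E.natDegree + (L - 1) := fun u hu =>
    natDegree_mul_le.trans (Nat.add_le_add_left (nd_lt hL hu) _)
  have hdeg : ∀ u : K[X], u.degree < (L : WithBot ℕ) → ((E * u) ^ 2).natDegree < n := by
    intro u hu
    rw [natDegree_pow]
    have := hEu u hu
    omega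
  have md1 : ∀ u : K[X], u.degree < (L : WithBot ℕ) →
      ((x + E * u) ^ 2 + X * y ^ 2).Monic ∧
      ((x + E * u) ^ 2 + X * y ^ 2).natDegree = n := by
    intro u hu
    have e1 : (x + E * u) ^ 2 + X * y ^ 2 =
        (x ^ 2 + X * y ^ 2) + (E * u) ^ 2 := by
      rw [sq_add]
      ring
    rw [e1]
    exact win_mon m1 d1 (hdeg u hu)
  have K1 : ∀ u : K[X], u.degree < (L : WithBot ℕ) → IsCoprime (UQ θ ε (x + E * u) y) h →
      ((mob ((UQ θ ε (x + E * u₀) y) ^ 2 + X * (C c * (e * h)) ^ 2) : ℤ) : ℂ) *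
        ((mob ((UQ θ ε (x + E * u) y) ^ 2 + X * (C c * (e * h)) ^ 2) : ℤ) : ℂ) =
      XX (I := I) (C c * (e * h)) (UQ θ ε (x + E * u₀) y) *
        XX (I := I) (C c * (e * h)) (UQ θ ε (x + E * u) y) := by
    intro u hu hcu
    have e1 : (x + E * u) - (x + E * u₀) = E * (u - u₀) := by ring
    refine key_psi hkey (δ := δ) hc hθ he hh heh hs hb (md1 u₀ hu₀).1 (md1 u₀ hu₀).2 (md1 u hu).1
      (md1 u hu).2
      (((cop_shift h5).2 hA).mul_right g1) (((cop_shift h5).2 hA).mul_right hcu) ?_ ?_ hI hp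
    · rw [e1]
      exact h5.mul_right _
    · rw [e1]
      have := hEu (u - u₀) ((degree_sub_le u u₀).trans_lt (max_lt hu hu₀))
      omega
  have P1 := K1 u₀ hu₀ g1
  rw [XX_pm] at P1
  generalize hM1 : ((mob ((UQ θ ε (x + E * u₀) y) ^ 2 + X * (C c * (e * h)) ^ 2) : ℤ) : ℂ) = M1
    at *
  have Q1 := XX_pm (I := I) (C c * (e * h)) (UQ θ ε (x + E * u₀) y)
  refine ⟨M1 * XX (I := I) (C c * (e * h)) (UQ θ ε (x + E * u₀) y), ?_, ?_⟩
  · rw [norm_mul, nrm1 P1, nrm1 Q1]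
    norm_num
  intro u hu
  by_cases hgu : IsCoprime (UQ θ ε (x + E * u) y) h
  · have R1 := K1 u hu hgu
    have hprod : ∏ i : {P // P ∈ I}, GPq i.1 (C c * (e * h)) θ ε y (rr i.1 (x + E * u)) =
        XX (I := I) (C c * (e * h)) (UQ θ ε (x + E * u) y) := by
      unfold XX
      apply Finset.prod_congr rfl
      intro i _
      have hdi : i.1 ∣ h := by
        rw [← hp]
        exact Finset.dvd_prod_of_mem _ i.2
      apply GPq_ne
      intro h1
      exact (inst i).out.not_isUnit (hgu.isUnit_of_dvd' h1 hdi)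
    rw [hprod]
    linear_combination M1 * R1 -
      ((mob ((UQ θ ε (x + E * u) y) ^ 2 + X * (C c * (e * h)) ^ 2) : ℤ) : ℂ) * P1
  · rw [bad u hgu]
    have hz : ∏ i : {P // P ∈ I}, GPq i.1 (C c * (e * h)) θ ε y (rr i.1 (x + E * u)) = 0 := by
      obtain ⟨i, hi⟩ := not_cop hI hp hgu
      exact Finset.prod_eq_zero (Finset.mem_univ i) (GPq_zero i.1 hi)
    rw [hz, mul_zero]

end fin

end WinQ

open WinQ

/-- **Task WINQ.** -/
theorem winQ (hkey : S_keyQ) (hloc : S_locQ) (hcmp : Pool.Agent.H985.Chow.S_cmp) : S_winQ := by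
  intro K _ _ _ n L c θ x y ε δ e h E z hc hθ he hh heh hs hEh hE0 h5 hL hb m1 d1 hd hw
  classical
  obtain ⟨I, hI, hp⟩ := facs hh hs
  have hI' : ∀ P ∈ I, P.Monic ∧ Irreducible P := fun P hP =>
    ⟨((hI P).1 hP).1, ((hI P).1 hP).2.1⟩
  have inst : ∀ i : {P // P ∈ I}, Fact (Irreducible i.1) := fun i => ⟨(hI' i.1 i.2).2⟩
  let _ : Fintype (degreeLT K L) := Fintype.ofFinite _
  have hPD : PD h z = ↑(I.filter fun P => (P.natDegree : ℝ) ≤ z) := by
    ext P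
    rw [Finset.coe_filter]
    show (P.Monic ∧ Irreducible P ∧ P ∣ h ∧ (P.natDegree : ℝ) ≤ z) ↔
      (P ∈ I ∧ (P.natDegree : ℝ) ≤ z)
    rw [hI]
    tauto
  have hwin : L + 2 * (∑ P ∈ I with (P.natDegree : ℝ) ≤ z, P.natDegree) ≤ 2 * h.natDegree := by
    have e1 : ∑ᶠ P ∈ PD h z, P.natDegree = ∑ P ∈ I with (P.natDegree : ℝ) ≤ z, P.natDegree := by
      rw [hPD]
      exact finsum_mem_coe_finset _ _
    rw [← e1]
    exact hw
  obtain ⟨w, hw1, hu⟩ := eps hkey hc hθ he hh heh hs h5 hL hb m1 d1 hd hI' hp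
  have hbd := WinQ.cmp_bd hloc hcmp (x := x) (y := y) (ε := ε) hc hθ heh hs hEh hL hI' hp hwin
  rw [WinQ.prod_C hI hp] at hbd
  refine le_trans ?_ hbd
  have e2 : (∑ᶠ u ∈ {u : K[X] | u.degree < (L : WithBot ℕ)},
        (mob ((UQ θ ε (x + E * u) y) ^ 2 + X * (C c * (e * h)) ^ 2) : ℝ)) =
      ∑ u : degreeLT K L, (mob ((UQ θ ε (x + E * u.1) y) ^ 2 + X * (C c * (e * h)) ^ 2) : ℝ) := by
    have e3 : {u : K[X] | u.degree < (L : WithBot ℕ)} = (degreeLT K L : Set K[X]) := by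
      ext u
      exact mem_degreeLT.symm
    rw [e3, ← finsum_set_coe_eq_finsum_mem, finsum_eq_sum_of_fintype]
    rfl
  rw [e2]
  have e4 : ((∑ u : degreeLT K L,
        (mob ((UQ θ ε (x + E * u.1) y) ^ 2 + X * (C c * (e * h)) ^ 2) : ℝ) : ℝ) : ℂ) =
      w * ∑ u : degreeLT K L, ∏ i : {P // P ∈ I}, GPq i.1 (C c * (e * h)) θ ε y
        (rr i.1 (x + E * u.1)) := by
    rw [Finset.mul_sum]
    push_cast
    exact Finset.sum_congr rfl fun u _ => hu u.1 (mem_degreeLT.1 u.2)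
  have e5 := congrArg norm e4
  rw [Complex.norm_real, norm_mul, Real.norm_eq_abs] at e5
  rw [e5]
  exact mul_le_of_le_one_left (norm_nonneg _) hw1

end Pool.Agent.H140.Q
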